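import Pool.Agent.H68.GC.Stm

/-!
# Project GC: the average of a cell (module AVG; helper40, after `Pool/Agent/H68/GB/Avg.lean`)
-/

set_option autoImplicit false

namespace Pool.Agent.H68.GC

open MeasureTheory Filter Topology Set
open Pool.Agent.H49.BZ
open Pool.Agent.H49.BP (em em_norm em_meas)

variable [Dens]

theorem avg_int (m : ℤ) (hF : Monotone F) (a b : ℝ) : IntervalIntegrable (fun v => em m (F v)) volume a b := by
  have hm : Measurable (fun v => em m (F v)) := (em_meas m).comp hF.measurable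
  refine (intervalIntegrable_const (c := (1 : ℝ))).mono_fun hm.aestronglyMeasurable ?_
  refine Eventually.of_forall fun v => ?_
  show ‖em m (F v)‖ ≤ ‖(1 : ℝ)‖
  rw [em_norm]
  simp

theorem avg_eq (m : ℤ) (c n : ℕ) (hc : 1 ≤ c) (hF : Monotone F) :
    ∫ θ in (0 : ℝ)..1, cs m c θ n = (c : ℂ) * ∫ v in (n : ℝ)..(n + 1), em m (F v) := by
  have hc0 : (c : ℝ) ≠ 0 := by
    have : (1 : ℝ) ≤ c := by exact_mod_cast hc
    positivity
  unfold cs pt
  have h1 : ∀ i : ℕ, (fun θ : ℝ => em m (F (n + (θ + i) / c))) = fun θ : ℝ => em m (F ((n + i / c) + θ / c)) := by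
    intro i
    funext θ
    congr 2
    ring
  have hint : ∀ i : ℕ, IntervalIntegrable (fun θ : ℝ => em m (F (n + (θ + i) / c))) volume 0 1 := by
    intro i
    have hm : Measurable (fun θ : ℝ => em m (F (n + (θ + i) / c))) := by
      refine (em_meas m).comp (hF.measurable.comp ?_)
      fun_prop
    refine (intervalIntegrable_const (c := (1 : ℝ))).mono_fun hm.aestronglyMeasurable ?_
    refine Eventually.of_forall fun v => ?_
    show ‖em m (F (n + (v + i) / c))‖ ≤ ‖(1 : ℝ)‖
    rw [em_norm]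
    simp
  rw [intervalIntegral.integral_finsetSum (fun i _ => hint i)]
  have h2 : ∀ i : ℕ, ∫ θ in (0 : ℝ)..1, em m (F (n + (θ + i) / c)) =
      (c : ℂ) * ∫ v in ((n : ℝ) + (i : ℕ) / c)..((n : ℝ) + ((i + 1 : ℕ) : ℝ) / c), em m (F v) := by
    intro i
    rw [h1 i, intervalIntegral.integral_comp_add_div (fun v => em m (F v)) hc0]
    have e1 : (n : ℝ) + i / c + 0 / c = n + i / c := by simp
    have e2 : (n : ℝ) + i / c + 1 / c = n + ((i + 1 : ℕ) : ℝ) / c := by
      push_cast
      ring
    rw [e1, e2, Complex.real_smul]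
    push_cast
    rfl
  simp only [h2]
  rw [← Finset.mul_sum]
  congr 1
  rw [intervalIntegral.sum_integral_adjacent_intervals (a := fun i : ℕ => (n : ℝ) + (i : ℝ) / c)
    (fun k _ => avg_int m hF _ _)]
  have e3 : (n : ℝ) + ((0 : ℕ) : ℝ) / c = n := by simp
  have e4 : (n : ℝ) + (c : ℝ) / c = n + 1 := by rw [div_self hc0]
  simp only [e3, e4]

theorem t_AVG (inv : S_INV) : S_AVG := by
  obtain ⟨h1, h2, h3, h4, h5, h6, h7, h8, h9, h10⟩ := inv
  refine ⟨?_, ?_, ?_, ?_⟩
  · intro m c n
    unfold cs pt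
    refine Finset.measurable_sum _ fun i _ => ?_
    refine (em_meas m).comp (h5.measurable.comp ?_)
    fun_prop
  · intro m c n hc hn
    rw [avg_eq m c n hc h5]
    congr 1
    unfold ci
    have hn1 : (1 : ℝ) ≤ n := by exact_mod_cast hn
    rw [h8 m n (n + 1) hn1 (by linarith), h3 n]
    have := h3 (n + 1)
    push_cast at this
    rw [this]
  · intro m c n θ
    unfold cs
    refine (norm_sum_le _ _).trans ?_
    simp [em_norm]
  · intro m n
    unfold ci
    have hle : tt n ≤ tt (n + 1) := tt_mono.monotone (Nat.le_succ n)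
    have hb : ∀ u ∈ Ioc (tt n) (tt (n + 1)), ‖em m u * (md u : ℂ)‖ ≤ md u := by
      intro u hu
      have hu1 : 1 ≤ u := (tt_one_le n).trans hu.1.le
      rw [norm_mul, em_norm, one_mul, Complex.norm_real, Real.norm_of_nonneg (md_nonneg hu1)]
    have hi := intervalIntegral.norm_integral_le_of_norm_le hle (Eventually.of_forall hb)
      (md_int (tt_one_le n) (tt_one_le (n + 1)))
    refine hi.trans ?_
    rw [← MM_sub (tt_one_le n) (tt_one_le (n + 1)), MM_tt, MM_tt]
    push_cast
    linarith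

end Pool.Agent.H68.GC
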