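import Pool.Agent.H68.GC.Gsc

set_option autoImplicit false

/-! Project GC (helper68), module GEO: the geometry of one scale. -/

namespace Pool.Agent.H68.GC

open MeasureTheory Filter Topology Set
open Pool.Agent.H49.BZ

section
variable [Dens]
variable {A M : ℕ} {H ell lam R y z Λ : ℝ} {W N : ℕ}

/-- the images of the blocks -/
theorem Scale.dif (S : Scale A M H ell lam R y z Λ W N) (hM : 4 ≤ M) {j : ℕ} (hj : j < N) :
    MM (y - tt (A + 4 * j * W)) - MM (y - tt (A + 4 * (j + 1) * W)) ≤ Λ := by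
  have hzP := S.zP
  have h1000 := S.P1.1
  have hR0 := S.R0
  have h0 : tt (A + 4 * j * W) ≤ tt (A + 4 * (j + 1) * W) :=
    tt_mono.monotone (Nat.add_le_add_left (Nat.mul_le_mul_right W (by omega)) A)
  have hb1 := (S.big hM (show 4 * (j + 1) ≤ 4 * N by omega)).2.2.1
  have h5 := MM_sub_le hb1 (show y - tt (A + 4 * (j + 1) * W) ≤ y - tt (A + 4 * j * W) by linarith)
  have h6 := S.al (show 4 * j ≤ 4 * N by omega)
  have h7 := S.al (show 4 * (j + 1) ≤ 4 * N by omega)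
  have h9 : MM (tt (A + 4 * (j + 1) * W)) - MM (tt (A + 4 * j * W)) ≤ 4 * W := by
    rw [h6.2.2, h7.2.2]
    push_cast
    linarith
  have h10 : Real.log (tt (A + 4 * (j + 1) * W)) ≤ ell :=
    S.logle (by linarith [h7.1]) (by linarith [h7.2.1, hzP.2, hzP.1])
  have h8 := glen_le (m := 4 * W) (l := ell) (a := tt (A + 4 * j * W)) (b := tt (A + 4 * (j + 1) * W))
    (by linarith [h6.1]) h0 h9 (by positivity) h10
  rw [S.hΛ]
  linarith

/-- the right ends -/
theorem Scale.bt (S : Scale A M H ell lam R y z Λ W N) (hM : 4 ≤ M) {k b : ℕ} (hk : k ≤ 4 * N) (hb : 1 ≤ b)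
    (h1 : (b : ℝ) ≤ MM (y - tt (A + k * W)) - 3) (h2 : MM (y - tt (A + k * W)) - (b : ℝ) ≤ 9) :
    tt b ≤ y - tt (A + k * W) ∧ y - tt (A + k * W) - tt b ≤ 72 * ell := by
  obtain ⟨_, _, g1, _, g2⟩ := S.big hM hk
  have h0 : tt b ≤ y - tt (A + k * W) := by
    rw [← MM_le_iff (tt_one_le _) g1, MM_tt]
    linarith
  refine ⟨h0, ?_⟩
  have h3 := glen_le (m := 9) (l := ell) (gtt_two hb) h0 (by rw [MM_tt]; exact h2) (by norm_num)
    (S.logle (by linarith) (by linarith))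
  linarith

/-- the last block -/
theorem Scale.last (S : Scale A M H ell lam R y z Λ W N) : z - tt (A + 4 * N * W) ≤ Λ := by
  have hal4 := S.al (le_refl (4 * N))
  have h1000 := S.P1.1
  have hR0 := S.R0
  have hN2 := S.N2
  have hzP := S.zP
  have h2 : MM z - MM (tt (A + 4 * N * W)) ≤ 4 * W := by
    rw [hal4.2.2]
    push_cast
    linarith
  have h1 := glen_le (m := 4 * W) (l := ell) (a := tt (A + 4 * N * W)) (b := z) (by linarith [hal4.1])
    hal4.2.1 h2 (by positivity) (S.logle (by linarith) (by linarith))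
  rw [S.hΛ]
  linarith

/-- the size of `B` -/
theorem Scale.sizeB (S : Scale A M H ell lam R y z Λ W N) {l B : ℝ} (hell2 : ell ≤ 2 * l ^ 2)
    (hB2 : B ≤ 2 * H + 200 * ell + 2 * Λ + 9) : B ≤ 22000 * (H + 1) * l ^ 4 := by
  have hell1 := S.ell1
  have hH := S.hH
  have hW2 := S.W2
  have hΛ := S.hΛ
  have e0 : 0 ≤ H * (ell - 1) := mul_nonneg hH (by linarith)
  have h1 : H + 80 * ell + 2 ≤ (H + 1) * (82 * ell) := by linarith
  have h2 : (W : ℝ) * ell ≤ ((H + 1) * (82 * ell)) * ell := mul_le_mul_of_nonneg_right (hW2.trans h1) (by linarith)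
  have h4 : ell ≤ ell ^ 2 := by nlinarith
  have h3 : 2 * H + 200 * ell + 9 ≤ 211 * ((H + 1) * ell ^ 2) := by
    have h5 : (1 : ℝ) ≤ ell ^ 2 := by linarith
    have h6 : H ≤ H * ell ^ 2 := le_mul_of_one_le_right hH h5
    linarith
  have h5 : 0 ≤ (H + 1) * ell ^ 2 := by positivity
  have h4' : B ≤ 5500 * ((H + 1) * ell ^ 2) := by
    have e1 : (H + 1) * (82 * ell) * ell = 82 * ((H + 1) * ell ^ 2) := by ring
    rw [e1] at h2
    rw [hΛ] at hB2
    linarith
  have h5' : ell ^ 2 ≤ 4 * l ^ 4 := by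
    calc ell ^ 2 ≤ (2 * l ^ 2) ^ 2 := pow_le_pow_left₀ (by linarith) hell2 2
      _ = 4 * l ^ 4 := by ring
  calc B ≤ 5500 * ((H + 1) * ell ^ 2) := h4'
    _ ≤ 5500 * ((H + 1) * (4 * l ^ 4)) := by
        refine mul_le_mul_of_nonneg_left (mul_le_mul_of_nonneg_left h5' (by linarith)) (by norm_num)
    _ = 22000 * (H + 1) * l ^ 4 := by ring

/-- the middle -/
theorem Scale.mid (S : Scale A M H ell lam R y z Λ W N) (hM : 4 ≤ M) {b B : ℕ}
    (h1 : (b : ℝ) ≤ MM (y - tt (A + 4 * N * W)) - 3) (h2 : MM (y - tt (A + 4 * N * W)) - (b : ℝ) ≤ 9)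
    (hB : 2 * H + 200 * ell + 2 * Λ ≤ B) : A + 4 * N * W ≤ b ∧ b ≤ A + 4 * N * W + B := by
  have hal4 := S.al (le_refl (4 * N))
  have hbig := (S.big hM (le_refl (4 * N))).2.2
  have hell1 := S.ell1
  have hH := S.hH
  have h1000 := S.P1.1
  have hR0 := S.R0
  have hz := S.hz
  have hl := S.last
  set a := tt (A + 4 * N * W) with ha
  have hab : a ≤ y - a := by linarith [hal4.2.1]
  constructor
  · have g1 := le_MM_inc (a := a) (b := y - a) (by linarith [hal4.1]) hab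
    have g2 : Real.log (y - a) ≤ ell := S.logle (by linarith [hbig.1]) (by linarith [hbig.2.2])
    have g3 : 0 < Real.log (y - a) := log_pos' (by linarith [hal4.1])
    rw [div_le_iff₀ (by positivity), hal4.2.2] at g1
    have g4 : 200 * ell ≤ (y - a) - a := by
      linarith [hal4.2.1]
    have g5 : (25 : ℝ) ≤ MM (y - a) - (A + (4 * N : ℕ) * W) := by
      by_contra h6
      push Not at h6
      have h7 : (MM (y - a) - (A + (4 * N : ℕ) * W)) * (8 * Real.log (y - a)) <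
          25 * (8 * Real.log (y - a)) := mul_lt_mul_of_pos_right h6 (by positivity)
      linarith
    have g6 : ((A + 4 * N * W : ℕ) : ℝ) ≤ b := by
      push_cast at g5 ⊢
      linarith
    exact_mod_cast g6
  · have g2 := MM_sub_le (a := a) (b := y - a) (tt_one_le _) hab
    rw [hal4.2.2] at g2
    have g6 : (b : ℝ) ≤ ((A + 4 * N * W + B : ℕ) : ℝ) := by
      push_cast at g2 ⊢
      linarith
    exact_mod_cast g6

/-- the end -/
theorem Scale.fin (S : Scale A M H ell lam R y z Λ W N) (hM : 4 ≤ M) {b e : ℕ} (hb : 1 ≤ b)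
    (h1 : (b : ℝ) ≤ MM (y - tt (A + 0 * W)) - 3) (h2 : MM (y - tt (A + 0 * W)) - (b : ℝ) ≤ 9)
    (he1 : MM (y + H) + 1 ≤ e) (he2 : (e : ℝ) < MM (y + H) + 2) :
    b ≤ e ∧ (e : ℝ) ≤ b + 5 * tt A ∧ 2 * A ≤ e ∧ y + H < tt e := by
  have hbig := S.big hM (Nat.zero_le (4 * N))
  have e0 : A + 0 * W = A := by ring
  rw [e0] at h1 h2 hbig
  obtain ⟨g0, g1, g2, g3, g4⟩ := hbig
  obtain ⟨h1000, hP1, _, _⟩ := S.P1
  have hR0 := S.R0
  have hH := S.hH
  have hHR := S.HR
  have hell1 := S.ell1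
  have hy1 : 1 ≤ y + H := by linarith
  have h3 : MM (y - tt A) ≤ MM (y + H) := MM_le g2 (by linarith)
  have h4 := MM_sub_le g2 (show y - tt A ≤ y + H by linarith)
  have hPA : (A : ℝ) + 1 ≤ tt A := tt_ge A
  have hbe : (b : ℝ) ≤ e := by linarith
  refine ⟨by exact_mod_cast hbe, by linarith, ?_, ?_⟩
  · have h5 : (2 * A : ℝ) ≤ e := by
      have h6 : tt A ^ 2 ≤ tt A ^ (M - 1) := pow_le_pow_right₀ hP1 (by omega)
      have h7 : 2 * tt A ≤ tt A ^ 2 := by nlinarith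
      linarith
    exact_mod_cast h5
  · rw [← MM_lt_iff hy1 (tt_one_le _), MM_tt]
    linarith

end

section
variable [Dens]

theorem t_GEO : S_GEO := by
  rintro ⟨C, hC, hloc⟩
  obtain ⟨A0, hA01, hA0⟩ := geo_scale hC
  refine ⟨22000, A0, by norm_num, hA01, fun A M H hA hM hMl hH hHP => ?_⟩
  obtain ⟨ell, R, y, z, Λ, W, N, S, hsmall, hell2⟩ := hA0 A M H hA hM hMl hH hHP
  have hell1 := S.ell1
  have hW1 := S.W1
  have hWr : (1 : ℝ) ≤ W := by linarith
  have hW0 : 1 ≤ W := by exact_mod_cast hWr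
  have hΛ0 : 0 ≤ Λ := by
    rw [S.hΛ]
    positivity
  obtain ⟨β, V, hβanti, hstep, hV4', hβ1, hclose⟩ := S.beta hM hC hloc hsmall hΛ0 (fun j hj => S.dif hM hj)
  clear hloc hsmall hA0
  have hbt := fun (k : ℕ) (hk : k ≤ 4 * N) => S.bt hM hk (hβ1 k) (hclose k hk).1 (hclose k hk).2
  set B : ℕ := ⌈2 * H + 200 * ell + 2 * Λ + 8⌉₊ with hB
  have hB1 : 2 * H + 200 * ell + 2 * Λ + 8 ≤ B := Nat.le_ceil _
  have hB0 : 0 ≤ 2 * H + 200 * ell + 2 * Λ + 8 := by positivity
  have hB2 : (B : ℝ) < 2 * H + 200 * ell + 2 * Λ + 8 + 1 := Nat.ceil_lt_add_one hB0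
  clear_value B
  set e : ℕ := ⌈MM (y + H)⌉₊ + 1 with he
  have hyH : 1 ≤ y + H := by
    have h1 := (S.big hM (Nat.zero_le _)).2.2
    linarith [h1.1, h1.2.2]
  have he1 : MM (y + H) + 1 ≤ e := by
    rw [he]
    push_cast
    linarith [Nat.le_ceil (MM (y + H))]
  have he2 : (e : ℝ) < MM (y + H) + 2 := by
    rw [he]
    push_cast
    linarith [Nat.ceil_lt_add_one (MM_nonneg (x := y + H) hyH)]
  clear_value e
  have hmid := S.mid hM (hclose (4 * N) le_rfl).1 (hclose (4 * N) le_rfl).2 (B := B) (by linarith)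
  have hfin := S.fin hM (hβ1 0) (hclose 0 (Nat.zero_le _)).1 (hclose 0 (Nat.zero_le _)).2 he1 he2
  have hsz := S.sizeB (B := (B : ℝ)) hell2 (by linarith)
  have hP1 : 1 ≤ tt A := tt_one_le A
  have hβN : tt A ^ (M - 1) ≤ β (4 * N) := by
    have h1 := (S.big hM (le_refl (4 * N))).1
    have h2 := (hclose (4 * N) le_rfl).2
    linarith
  have hβ0N : (β (4 * N) : ℝ) ≤ β 0 := by exact_mod_cast hβanti (Nat.zero_le _)
  have hP2M : tt A ^ 2 ≤ tt A ^ (M - 1) := pow_le_pow_right₀ hP1 (by omega)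
  have hlast := S.last
  have hal4 := (S.al (le_refl (4 * N))).2.1
  have hbt4 := (hbt (4 * N) le_rfl).2
  have hz := S.hz
  rw [← S.hy]
  refine ⟨W, N, B, e, β, V, hW0, ?_, hsz, hβanti, hstep, ?_, hβ1, hmid.1, hmid.2, by linarith, by linarith, hfin.1,
    hfin.2.1, hfin.2.2.1, hfin.2.2.2, ?_, ?_, ?_, ?_⟩
  · have h1 : ((4 * W : ℕ) : ℝ) ≤ B := by
      have hWell : (W : ℝ) ≤ W * ell := le_mul_of_one_le_right (by linarith) hell1
      have hΛ := S.hΛ
      push_cast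
      linarith
    exact_mod_cast h1
  · intro j
    have h1 := hV4' j
    have h2 : ((4 * V j : ℕ) : ℝ) ≤ B := by linarith
    exact_mod_cast h2
  · linarith
  · linarith
  · intro k hk
    linarith [(hbt k hk).1]
  · intro k hk
    have h1 := (hbt k hk.le).2
    have h2 := gtt_diff (i := A + k * W) (j := A + (k + 1) * W)
      (Nat.add_le_add_left (Nat.mul_le_mul_right W (Nat.le_succ k)) A)
    push_cast at h2
    linarith

end

end Pool.Agent.H68.GC
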