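import Pool.Agent.H68.GC.Stm

set_option autoImplicit false

/-! Project GC (helper68), module GLU (helper58): the scales are put together. -/

namespace Pool.Agent.H68.GC

open MeasureTheory Filter Topology Set
open Pool.Agent.H49.BZ (Dens md MM tt MM_one MM_cont MM_tendsto Disc tt_one_le tt_mono tt_ge)
open Pool.Agent.H49.BP (pc)
open Pool.Agent.H68.GB (LL)

theorem glu_LL (m : ℤ) : 1 ≤ LL m := by
  unfold LL
  rw [Real.one_le_sqrt]
  exact Pool.Agent.H49.BP.L_ge m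

theorem glu_pt_ge [Dens] (inv : S_INV) {c : ℕ} {θ : ℝ} (n : ℕ) {i : ℕ} (h0 : 0 ≤ θ) : tt n ≤ pt c θ n i := by
  obtain ⟨-, -, h3, -, h5, -⟩ := inv
  rw [← h3 n]
  unfold pt
  apply h5
  have : (0 : ℝ) ≤ (θ + i) / c := by positivity
  linarith

theorem glu_pt_lt [Dens] (inv : S_INV) {c : ℕ} {θ : ℝ} (n : ℕ) {i : ℕ} (hi : i < c) (h0 : 0 ≤ θ) (h1 : θ < 1) :
    pt c θ n i < tt (n + 1) := by
  obtain ⟨-, -, h3, h4, -⟩ := inv
  rw [← h3 (n + 1)]
  unfold pt
  have hc : (0 : ℝ) < c := by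
    have : 0 < c := by omega
    exact_mod_cast this
  have h5 : (0 : ℝ) ≤ (θ + i) / c := by positivity
  have h6 : (θ + i) / c < 1 := by
    rw [div_lt_one hc]
    have : (i : ℝ) + 1 ≤ c := by exact_mod_cast hi
    linarith
  have hn : (0 : ℝ) ≤ n := Nat.cast_nonneg n
  apply h4
  · show (0 : ℝ) ≤ _
    linarith
  · show (0 : ℝ) ≤ _
    positivity
  · push_cast
    linarith

/-- a bound for the sum from the bounds for the scales -/
theorem glu_sum (a : ℕ → ℕ) (s C4 : ℝ) (hs : 0 < s) (hC4 : 0 ≤ C4) (ha1 : 1 ≤ a 0)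
    (ha : ∀ i, 2 * a i ≤ a (i + 1)) (hex : ∀ n, a 0 ≤ n → ∃ i, a i ≤ n ∧ n < a (i + 1)) :
    ∃ C : ℝ, 0 ≤ C ∧ ∀ (E : Type) [NormedAddCommGroup E] (T : ℕ → E) (L : ℝ), 1 ≤ L → (∀ n, n < a 0 → ‖T n‖ ≤ 1) →
      (∀ i n, a i ≤ n → n ≤ a (i + 1) → ‖∑ n' ∈ Finset.Ico (a i) n, T n'‖ ≤ C4 * (n : ℝ) ^ s * L) →
      ∀ n : ℕ, ‖∑ n' ∈ Finset.range n, T n'‖ ≤ C * (n : ℝ) ^ s * L := by
  obtain ⟨r, hr⟩ : ∃ r : ℝ, r = (1 / 2 : ℝ) ^ s := ⟨_, rfl⟩
  have hr0 : 0 ≤ r := by rw [hr]; positivity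
  have hr1 : r < 1 := by
    rw [hr]
    exact Real.rpow_lt_one (by norm_num) (by norm_num) hs
  obtain ⟨K, hK⟩ : ∃ K : ℝ, K = C4 / (1 - r) + a 0 := ⟨_, rfl⟩
  have hq : 0 ≤ C4 / (1 - r) := div_nonneg hC4 (by linarith)
  have hK0 : 0 ≤ K := by rw [hK]; positivity
  have hK1 : K * r + C4 ≤ K := by
    have e1 : C4 = C4 / (1 - r) * (1 - r) := by
      field_simp
      rw [mul_div_assoc, div_self (by linarith), mul_one]
    have e2 : (0 : ℝ) ≤ a 0 := Nat.cast_nonneg _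
    have e3 : K * (1 - r) = C4 / (1 - r) * (1 - r) + a 0 * (1 - r) := by rw [hK]; ring
    have e4 : 0 ≤ (a 0 : ℝ) * (1 - r) := mul_nonneg e2 (by linarith)
    rw [← e1] at e3
    nlinarith
  refine ⟨K + C4, by positivity, ?_⟩
  intro E _ T L hL hT1 hT2
  have hsmall : ∀ (n : ℕ), n ≤ a 0 → ‖∑ n' ∈ Finset.range n, T n'‖ ≤ (a 0 : ℝ) * (n : ℝ) ^ s * L := by
    intro n hn
    rcases Nat.eq_zero_or_pos n with h0 | h0
    · subst h0
      simp only [Finset.range_zero, Finset.sum_empty, norm_zero]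
      positivity
    · have h1 : ‖∑ n' ∈ Finset.range n, T n'‖ ≤ ∑ n' ∈ Finset.range n, (1 : ℝ) := by
        refine (norm_sum_le _ _).trans (Finset.sum_le_sum ?_)
        intro n' hn'
        apply hT1
        have := Finset.mem_range.1 hn'
        omega
      have h2 : ∑ n' ∈ Finset.range n, (1 : ℝ) = n := by simp
      have h3 : (n : ℝ) ≤ a 0 := by exact_mod_cast hn
      have h4 : (1 : ℝ) ≤ (n : ℝ) ^ s := by
        apply Real.one_le_rpow
        · exact_mod_cast h0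
        · linarith
      have h6 : (0 : ℝ) ≤ a 0 := Nat.cast_nonneg _
      calc ‖∑ n' ∈ Finset.range n, T n'‖ ≤ n := by rw [← h2]; exact h1
        _ ≤ (a 0 : ℝ) * 1 * 1 := by linarith
        _ ≤ (a 0 : ℝ) * (n : ℝ) ^ s * L := by gcongr
  have hP : ∀ (i : ℕ), ‖∑ n' ∈ Finset.range (a i), T n'‖ ≤ K * (a i : ℝ) ^ s * L := by
    intro i
    induction i with
    | zero =>
      refine (hsmall (a 0) le_rfl).trans ?_
      have h6 : (0 : ℝ) ≤ (a 0 : ℝ) ^ s := by positivity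
      gcongr
      rw [hK]
      linarith
    | succ i ih =>
      have hle : a i ≤ a (i + 1) := by
        have := ha i
        omega
      have h2 := hT2 i (a (i + 1)) hle le_rfl
      have h3 : ∑ n' ∈ Finset.range (a (i + 1)), T n' =
          ∑ n' ∈ Finset.range (a i), T n' + ∑ n' ∈ Finset.Ico (a i) (a (i + 1)), T n' :=
        (Finset.sum_range_add_sum_Ico _ hle).symm
      have h6 : (a i : ℝ) ^ s ≤ r * (a (i + 1) : ℝ) ^ s := by
        have e1 : (a i : ℝ) ≤ 1 / 2 * (a (i + 1) : ℝ) := by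
          have : (2 : ℝ) * a i ≤ a (i + 1) := by exact_mod_cast ha i
          linarith
        have e2 : (a i : ℝ) ^ s ≤ (1 / 2 * (a (i + 1) : ℝ)) ^ s :=
          Real.rpow_le_rpow (Nat.cast_nonneg _) e1 (by linarith)
        rw [Real.mul_rpow (by norm_num) (Nat.cast_nonneg _)] at e2
        rw [hr]
        exact e2
      rw [h3]
      have h7 : (0 : ℝ) ≤ (a (i + 1) : ℝ) ^ s := by positivity
      calc _ ≤ ‖∑ n' ∈ Finset.range (a i), T n'‖ + ‖∑ n' ∈ Finset.Ico (a i) (a (i + 1)), T n'‖ := norm_add_le _ _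
        _ ≤ K * (a i : ℝ) ^ s * L + C4 * (a (i + 1) : ℝ) ^ s * L := add_le_add ih h2
        _ ≤ K * (r * (a (i + 1) : ℝ) ^ s) * L + C4 * (a (i + 1) : ℝ) ^ s * L := by gcongr
        _ = (K * r + C4) * ((a (i + 1) : ℝ) ^ s * L) := by ring
        _ ≤ K * ((a (i + 1) : ℝ) ^ s * L) := by
            apply mul_le_mul_of_nonneg_right hK1
            positivity
        _ = _ := by ring
  intro n
  have h7 : (0 : ℝ) ≤ (n : ℝ) ^ s := by positivity
  rcases le_or_gt n (a 0) with hn | hn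
  · refine (hsmall n hn).trans ?_
    gcongr
    rw [hK]
    linarith
  · obtain ⟨i, hi1, hi2⟩ := hex n hn.le
    have h3 : ∑ n' ∈ Finset.range n, T n' =
        ∑ n' ∈ Finset.range (a i), T n' + ∑ n' ∈ Finset.Ico (a i) n, T n' :=
      (Finset.sum_range_add_sum_Ico _ hi1).symm
    have h8 : (a i : ℝ) ^ s ≤ (n : ℝ) ^ s :=
      Real.rpow_le_rpow (Nat.cast_nonneg _) (by exact_mod_cast hi1) (by linarith)
    rw [h3]
    calc _ ≤ ‖∑ n' ∈ Finset.range (a i), T n'‖ + ‖∑ n' ∈ Finset.Ico (a i) n, T n'‖ := norm_add_le _ _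
      _ ≤ K * (a i : ℝ) ^ s * L + C4 * (n : ℝ) ^ s * L := add_le_add (hP i) (hT2 i n hi1 hi2.le)
      _ ≤ K * (n : ℝ) ^ s * L + C4 * (n : ℝ) ^ s * L := by gcongr
      _ = _ := by ring

/-- the exponents `M A` -/
theorem glu_exp [Dens] (h : ℝ → ℝ) (hh : ∀ ε : ℝ, 0 < ε → ∃ C : ℝ, ∀ x : ℝ, 1 ≤ x → h x ≤ C * x ^ ε) :
    ∃ (M : ℕ → ℕ) (a0 : ℕ), 1 ≤ a0 ∧ (∀ A, a0 ≤ A → 100 ≤ M A ∧ (M A : ℝ) ≤ Real.log (tt A) ∧
      max (h (tt A ^ M A)) 0 ≤ tt A ^ (1 / (M A : ℝ))) ∧ ∀ K : ℕ, ∃ A1 : ℕ, ∀ A, A1 ≤ A → K ≤ M A := by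
  have hX : ∀ M : ℕ, ∃ X : ℕ, 100 ≤ M → ∀ A : ℕ, X ≤ A → (M : ℝ) ≤ Real.log (tt A) ∧
      max (h (tt A ^ M)) 0 ≤ tt A ^ (1 / (M : ℝ)) := by
    intro M
    by_cases hM : 100 ≤ M
    · have hM0 : (0 : ℝ) < M := by
        have : 0 < M := by omega
        exact_mod_cast this
      obtain ⟨C, hC⟩ := hh (1 / (2 * (M : ℝ) ^ 2)) (by positivity)
      refine ⟨⌈Real.exp M⌉₊ + ⌈|C| ^ (2 * (M : ℝ))⌉₊, fun _ A hA => ?_⟩
      have ht1 := tt_one_le A
      have ht0 : 0 < tt A := by linarith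
      have hge := tt_ge A
      have hA1 : Real.exp M ≤ tt A := by
        have e1 : Real.exp M ≤ (⌈Real.exp M⌉₊ : ℝ) := Nat.le_ceil _
        have e2 : (⌈Real.exp M⌉₊ : ℝ) ≤ A := by
          have : ⌈Real.exp M⌉₊ ≤ A := by omega
          exact_mod_cast this
        linarith
      have hA2 : |C| ^ (2 * (M : ℝ)) ≤ tt A := by
        have e1 : |C| ^ (2 * (M : ℝ)) ≤ (⌈|C| ^ (2 * (M : ℝ))⌉₊ : ℝ) := Nat.le_ceil _
        have e2 : (⌈|C| ^ (2 * (M : ℝ))⌉₊ : ℝ) ≤ A := by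
          have : ⌈|C| ^ (2 * (M : ℝ))⌉₊ ≤ A := by omega
          exact_mod_cast this
        linarith
      refine ⟨(Real.le_log_iff_exp_le ht0).2 hA1, max_le ?_ (by positivity)⟩
      have h1 := hC (tt A ^ M) (one_le_pow₀ ht1)
      have h2 : (tt A ^ M) ^ (1 / (2 * (M : ℝ) ^ 2)) = tt A ^ (1 / (2 * (M : ℝ))) := by
        rw [← Real.rpow_natCast, ← Real.rpow_mul ht0.le]
        congr 1
        field_simp
      have h3 : |C| ≤ tt A ^ (1 / (2 * (M : ℝ))) := by
        have e1 := Real.rpow_le_rpow (by positivity) hA2 (z := 1 / (2 * (M : ℝ))) (by positivity)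
        rw [← Real.rpow_mul (abs_nonneg C), mul_one_div_cancel (by positivity), Real.rpow_one] at e1
        exact e1
      rw [h2] at h1
      calc h (tt A ^ M) ≤ C * tt A ^ (1 / (2 * (M : ℝ))) := h1
        _ ≤ |C| * tt A ^ (1 / (2 * (M : ℝ))) := mul_le_mul_of_nonneg_right (le_abs_self C) (by positivity)
        _ ≤ tt A ^ (1 / (2 * (M : ℝ))) * tt A ^ (1 / (2 * (M : ℝ))) := by gcongr
        _ = tt A ^ (1 / (M : ℝ)) := by
            rw [← Real.rpow_add ht0]
            congr 1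
            field_simp
            norm_num
    · exact ⟨0, fun h => absurd h hM⟩
  choose X hX using hX
  classical
  refine ⟨fun A => Nat.findGreatest (fun M => 100 ≤ M ∧ X M ≤ A) A, 100 + X 100, by omega, ?_, ?_⟩
  · intro A hA
    have h1 : 100 ≤ Nat.findGreatest (fun M => 100 ≤ M ∧ X M ≤ A) A ∧
        X (Nat.findGreatest (fun M => 100 ≤ M ∧ X M ≤ A) A) ≤ A :=
      Nat.findGreatest_spec (P := fun M => 100 ≤ M ∧ X M ≤ A) (m := 100) (by omega) ⟨le_rfl, by omega⟩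
    exact ⟨h1.1, hX _ h1.1 A h1.2⟩
  · intro K
    refine ⟨K + 100 + X (K + 100), fun A hA => ?_⟩
    have h1 : K + 100 ≤ Nat.findGreatest (fun M => 100 ≤ M ∧ X M ≤ A) A :=
      Nat.le_findGreatest (by omega) ⟨by omega, by omega⟩
    show K ≤ Nat.findGreatest (fun M => 100 ≤ M ∧ X M ≤ A) A
    omega

/-- `H + 1` and the logarithms are small -/
theorem glu_small [Dens] (h : ℝ → ℝ) (M : ℕ → ℕ) (a0 : ℕ)
    (h1 : ∀ A, a0 ≤ A → 100 ≤ M A ∧ (M A : ℝ) ≤ Real.log (tt A) ∧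
      max (h (tt A ^ M A)) 0 ≤ tt A ^ (1 / (M A : ℝ))) (h2 : ∀ K : ℕ, ∃ A1 : ℕ, ∀ A, A1 ≤ A → K ≤ M A)
    (η : ℝ) (hη : 0 < η) :
    ∃ C5 : ℝ, 0 ≤ C5 ∧ ∀ A : ℕ, a0 ≤ A → 1 ≤ A → tt A ≤ (A : ℝ) ^ 2 →
      (max (h (tt A ^ M A)) 0 + 1) * Real.log (tt A) ^ 4 ≤ C5 * (A : ℝ) ^ η := by
  obtain ⟨A1, hA1⟩ := h2 ⌈4 / η⌉₊
  refine ⟨(tt A1 + 2) * (16 / η) ^ 4, ?_, ?_⟩
  · have := tt_one_le A1
    positivity
  intro A hA hAo hA2
  have hA1' : (1 : ℝ) ≤ A := by exact_mod_cast hAo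
  have hA0 : (0 : ℝ) < A := by linarith
  have ht1 := tt_one_le A
  have ht0 : 0 < tt A := by linarith
  have hs1 := tt_one_le A1
  obtain ⟨hM, -, hH⟩ := h1 A hA
  have hM0 : (0 : ℝ) < M A := by
    have : 0 < M A := by omega
    exact_mod_cast this
  have h3 : max (h (tt A ^ M A)) 0 + 1 ≤ (tt A1 + 2) * (A : ℝ) ^ (η / 2) := by
    have e0 : (1 : ℝ) ≤ (A : ℝ) ^ (η / 2) := Real.one_le_rpow hA1' (by positivity)
    have e1 : tt A ^ (1 / (M A : ℝ)) ≤ tt A1 + (A : ℝ) ^ (η / 2) := by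
      rcases le_or_gt A1 A with h4 | h4
      · have h5 := hA1 A h4
        have h6 : 4 / η ≤ M A := (Nat.le_ceil _).trans (by exact_mod_cast h5)
        have h7 : 1 / (M A : ℝ) ≤ η / 4 := by
          rw [div_le_iff₀ hM0]
          rw [div_le_iff₀ hη] at h6
          nlinarith
        have h8 : tt A ^ (1 / (M A : ℝ)) ≤ tt A ^ (η / 4) := Real.rpow_le_rpow_of_exponent_le ht1 h7
        have h9 : tt A ^ (η / 4) ≤ ((A : ℝ) ^ 2) ^ (η / 4) := Real.rpow_le_rpow ht0.le hA2 (by positivity)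
        have h10 : ((A : ℝ) ^ 2) ^ (η / 4) = (A : ℝ) ^ (η / 2) := by
          rw [← Real.rpow_natCast, ← Real.rpow_mul hA0.le]
          congr 1
          push_cast
          ring
        linarith
      · have h5 : tt A ≤ tt A1 := tt_mono.monotone h4.le
        have h6 : tt A ^ (1 / (M A : ℝ)) ≤ tt A ^ (1 : ℝ) := by
          apply Real.rpow_le_rpow_of_exponent_le ht1
          rw [div_le_one hM0]
          have : 1 ≤ M A := by omega
          exact_mod_cast this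
        rw [Real.rpow_one] at h6
        linarith
    nlinarith
  have h4 : Real.log (tt A) ^ 4 ≤ (16 / η) ^ 4 * (A : ℝ) ^ (η / 2) := by
    have e1 : Real.log (tt A) ≤ 2 * Real.log A := by
      have := Real.log_le_log ht0 hA2
      rw [Real.log_pow] at this
      exact_mod_cast this
    have e2 : Real.log A ≤ (A : ℝ) ^ (η / 8) / (η / 8) := Real.log_le_rpow_div hA0.le (by positivity)
    have e3 : (0 : ℝ) ≤ Real.log (tt A) := Real.log_nonneg ht1
    have e4 : Real.log (tt A) ≤ 16 / η * (A : ℝ) ^ (η / 8) := by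
      have e5 : 2 * ((A : ℝ) ^ (η / 8) / (η / 8)) = 16 / η * (A : ℝ) ^ (η / 8) := by
        field_simp
        norm_num
      linarith
    have e5 : ((A : ℝ) ^ (η / 8)) ^ 4 = (A : ℝ) ^ (η / 2) := by
      rw [← Real.rpow_natCast, ← Real.rpow_mul hA0.le]
      congr 1
      push_cast
      ring
    calc Real.log (tt A) ^ 4 ≤ (16 / η * (A : ℝ) ^ (η / 8)) ^ 4 := by gcongr
      _ = (16 / η) ^ 4 * ((A : ℝ) ^ (η / 8)) ^ 4 := by ring
      _ = _ := by rw [e5]
  have h5 : (0 : ℝ) ≤ max (h (tt A ^ M A)) 0 := le_max_right _ _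
  calc (max (h (tt A ^ M A)) 0 + 1) * Real.log (tt A) ^ 4
      ≤ ((tt A1 + 2) * (A : ℝ) ^ (η / 2)) * ((16 / η) ^ 4 * (A : ℝ) ^ (η / 2)) := by
        apply mul_le_mul h3 h4 (by positivity) (by positivity)
    _ = (tt A1 + 2) * (16 / η) ^ 4 * ((A : ℝ) ^ (η / 2) * (A : ℝ) ^ (η / 2)) := by ring
    _ = _ := by
        rw [← Real.rpow_add hA0]
        congr 2
        ring

theorem t_GLU [Dens] (inv : S_INV) (avg : S_AVG) (scl : S_SCL) : S_GLU := by
  intro hup h hh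
  obtain ⟨-, -, -, avg4⟩ := avg
  obtain ⟨CN, CC, As, hCN, hCC, hAs, hscl⟩ := scl
  obtain ⟨I1, hI1, hI1'⟩ := inv.2.2.2.2.2.2.2.2.1 hup
  obtain ⟨I2, hI2, hI2'⟩ := inv.2.2.2.2.2.2.2.2.2
  obtain ⟨M, aM, haM, hM1, hM2⟩ := glu_exp h hh
  obtain ⟨a0, ha0⟩ : ∃ a0 : ℕ, a0 = As + I1 + I2 + aM := ⟨_, rfl⟩
  have hH100 : ∀ A : ℕ, a0 ≤ A → (max (h (tt A ^ M A)) 0) ^ 100 ≤ tt A := by
    intro A hA
    obtain ⟨e1, -, e2⟩ := hM1 A (by omega)
    have ht1 := tt_one_le A
    have ht0 : 0 < tt A := by linarith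
    have e3 : tt A ^ (1 / (M A : ℝ)) ≤ tt A ^ (1 / 100 : ℝ) := by
      apply Real.rpow_le_rpow_of_exponent_le ht1
      apply one_div_le_one_div_of_le (by norm_num)
      exact_mod_cast e1
    calc (max (h (tt A ^ M A)) 0) ^ 100 ≤ (tt A ^ (1 / 100 : ℝ)) ^ 100 := by
          apply pow_le_pow_left₀ (le_max_right _ _) (e2.trans e3)
      _ = tt A := by
          rw [← Real.rpow_natCast, ← Real.rpow_mul ht0.le]
          norm_num
  have hex : ∀ A : ℕ, a0 ≤ A → ∃ (e : ℕ) (c : ℕ → ℕ) (θ : ℕ → ℝ), 2 * A ≤ e ∧ (∀ n, c n ≤ 4) ∧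
      (∀ n, 0 ≤ θ n ∧ θ n < 1) ∧ tt A ^ M A + max (h (tt A ^ M A)) 0 < tt e ∧
      (∀ n i, A ≤ n → n < e → i < c n → pt (c n) (θ n) n i + tt A ≤ tt A ^ M A) ∧
      (∀ n i n' i', A ≤ n → n < e → i < c n → A ≤ n' → n' < e → i' < c n' →
        pt (c n) (θ n) n i + pt (c n') (θ n') n' i' < tt A ^ M A ∨
        tt A ^ M A + max (h (tt A ^ M A)) 0 < pt (c n) (θ n) n i + pt (c n') (θ n') n' i') ∧
      (∀ δ : ℝ, 0 < δ → ∀ (m : ℤ) (n : ℕ), A ≤ n → n ≤ e →
        ‖∑ n' ∈ Finset.Ico A n, (cs m (c n') (θ n') n' - ci m n')‖ ≤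
          CC δ * (max (h (tt A ^ M A)) 0 + 1) * Real.log (tt A) ^ 4 * (n : ℝ) ^ (1 / 2 + δ) * LL m) ∧
      ∀ n : ℕ, A ≤ n → n ≤ e → |∑ n' ∈ Finset.Ico A n, ((c n' : ℝ) - 1)| ≤
        CN * (max (h (tt A ^ M A)) 0 + 1) * Real.log (tt A) ^ 4 + if tt A ^ (M A - 1) ≤ n then 5 * tt A else 0 := by
    intro A hA
    obtain ⟨e1, e2, -⟩ := hM1 A (by omega)
    exact hscl A (M A) _ (by omega) (by omega) e2 (le_max_right _ _) (hH100 A hA)
  choose! e c θ he hc hθ hte h5 h6 h7 h8 using hex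
  obtain ⟨a, haa⟩ : ∃ a : ℕ → ℕ, a = fun i => e^[i] a0 := ⟨_, rfl⟩
  have haz : a 0 = a0 := by rw [haa]; rfl
  have has : ∀ i, a (i + 1) = e (a i) := by
    intro i
    rw [haa]
    exact Function.iterate_succ_apply' e i a0
  have ha01 : 1 ≤ a0 := by omega
  have hage : ∀ i, a0 ≤ a i := by
    intro i
    induction i with
    | zero => rw [haz]
    | succ i ih =>
      rw [has]
      have := he (a i) ih
      omega
  have hdbl : ∀ i, 2 * a i ≤ a (i + 1) := by
    intro i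
    rw [has]
    exact he (a i) (hage i)
  have hlt : ∀ i, a i < a (i + 1) := by
    intro i
    have h1 := hdbl i
    have h2 := hage i
    omega
  have hsm : StrictMono a := strictMono_nat_of_lt_succ hlt
  have hix : ∀ n, ∃ i, n < a (i + 1) := by
    intro n
    refine ⟨n, ?_⟩
    have := hsm.id_le (n + 1)
    simp only [id] at this
    omega
  classical
  obtain ⟨ix, hixx⟩ : ∃ ix : ℕ → ℕ, ix = fun n => Nat.find (hix n) := ⟨_, rfl⟩
  have hix1 : ∀ i n, a i ≤ n → n < a (i + 1) → ix n = i := by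
    intro i n h1 h2
    rw [hixx]
    show Nat.find (hix n) = i
    rw [Nat.find_eq_iff]
    refine ⟨h2, ?_⟩
    intro j hj h3
    have : a (j + 1) ≤ a i := hsm.monotone (by omega)
    omega
  have hix2 : ∀ n, a 0 ≤ n → ∃ i, a i ≤ n ∧ n < a (i + 1) := by
    intro n hn
    refine ⟨Nat.find (hix n), ?_, Nat.find_spec (hix n)⟩
    rcases Nat.eq_zero_or_pos (Nat.find (hix n)) with h0 | h0
    · rw [h0]
      exact hn
    · have h1 := Nat.find_min (hix n) (m := Nat.find (hix n) - 1) (by omega)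
      have h2 : Nat.find (hix n) - 1 + 1 = Nat.find (hix n) := by omega
      rw [h2] at h1
      omega
  obtain ⟨c', hc'⟩ : ∃ c' : ℕ → ℕ, c' = fun n => if n < a0 then 0 else c (a (ix n)) n := ⟨_, rfl⟩
  obtain ⟨θ', hθ'⟩ : ∃ θ' : ℕ → ℝ, θ' = fun n => if n < a0 then 0 else θ (a (ix n)) n := ⟨_, rfl⟩
  have hcc : ∀ i n, a i ≤ n → n < a (i + 1) → c' n = c (a i) n ∧ θ' n = θ (a i) n := by
    intro i n h1 h2
    have h3 : ¬ n < a0 := by
      have := hage i
      omega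
    rw [hc', hθ']
    simp only [h3, if_false, hix1 i n h1 h2]
    exact ⟨trivial, trivial⟩
  have hc4 : ∀ n, c' n ≤ 4 := by
    intro n
    rw [hc']
    simp only
    split_ifs with h1
    · omega
    · exact hc _ (hage _) n
  have hθ1 : ∀ n, 0 ≤ θ' n ∧ θ' n < 1 := by
    intro n
    rw [hθ']
    simp only
    split_ifs with h1
    · norm_num
    · exact hθ _ (hage _) n
  have hc0 : ∀ n, n < a0 → c' n = 0 := by
    intro n hn
    rw [hc']
    simp only [hn, if_true]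
  have hai1 : ∀ i, 1 ≤ a i := fun i => by
    have := hage i
    omega
  have hsml : ∀ η : ℝ, 0 < η → ∃ C5 : ℝ, 0 ≤ C5 ∧ ∀ i n, a i ≤ n →
      (max (h (tt (a i) ^ M (a i))) 0 + 1) * Real.log (tt (a i)) ^ 4 ≤ C5 * (n : ℝ) ^ η := by
    intro η hη
    obtain ⟨C5, hC5, hC5'⟩ := glu_small h M aM hM1 hM2 η hη
    refine ⟨C5, hC5, fun i n hn => ?_⟩
    have e3 := hC5' (a i) (by have := hage i; omega) (hai1 i) (hI2' (a i) (by have := hage i; omega))
    have hni : (a i : ℝ) ≤ n := by exact_mod_cast hn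
    have e4 : (a i : ℝ) ^ η ≤ (n : ℝ) ^ η := Real.rpow_le_rpow (by positivity) hni (by positivity)
    exact e3.trans (mul_le_mul_of_nonneg_left e4 hC5)
  refine ⟨c', θ', ⟨hc4, hθ1, ⟨a0, ha01, hc0, fun n hn => hI1' n (by omega)⟩, ?_, ?_⟩, ?_⟩
  · intro δ hδ
    obtain ⟨C5, hC5, hC5'⟩ := hsml (δ / 2) (by positivity)
    obtain ⟨C, hC, hC'⟩ := glu_sum a (1 / 2 + δ) (CC (δ / 2) * C5) (by linarith) (mul_nonneg (hCC _) hC5)
      (by rw [haz]; exact ha01) hdbl hix2
    refine ⟨C, hC, fun m => hC' ℂ (fun n' => cs m (c' n') (θ' n') n' - ci m n') (LL m) (glu_LL m) ?_ ?_⟩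
    · intro n hn
      rw [haz] at hn
      simp only [hc0 n hn]
      have : cs m 0 (θ' n) n = 0 := by simp [cs]
      rw [this, zero_sub, norm_neg]
      exact avg4 m n
    · intro i n h1 h2
      have e1 : ∑ n' ∈ Finset.Ico (a i) n, (cs m (c' n') (θ' n') n' - ci m n') =
          ∑ n' ∈ Finset.Ico (a i) n, (cs m (c (a i) n') (θ (a i) n') n' - ci m n') := by
        apply Finset.sum_congr rfl
        intro n' hn'
        rw [Finset.mem_Ico] at hn'
        obtain ⟨f1, f2⟩ := hcc i n' hn'.1 (by omega)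
        rw [f1, f2]
      rw [e1]
      rw [has] at h2
      have e2 := h7 (a i) (hage i) (δ / 2) (by positivity) m n h1 h2
      have e9 := hC5' i n h1
      have hn0 : (0 : ℝ) < n := by
        have := hai1 i
        exact_mod_cast (by omega : 0 < n)
      have e5 := glu_LL m
      have e6 := hCC (δ / 2)
      have e7 : (n : ℝ) ^ (δ / 2) * (n : ℝ) ^ (1 / 2 + δ / 2) = (n : ℝ) ^ (1 / 2 + δ) := by
        rw [← Real.rpow_add hn0]
        congr 1
        ring
      have e8 : (0 : ℝ) ≤ (n : ℝ) ^ (1 / 2 + δ / 2) := by positivity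
      calc _ ≤ _ := e2
        _ = CC (δ / 2) * ((max (h (tt (a i) ^ M (a i))) 0 + 1) * Real.log (tt (a i)) ^ 4) *
            (n : ℝ) ^ (1 / 2 + δ / 2) * LL m := by ring
        _ ≤ CC (δ / 2) * (C5 * (n : ℝ) ^ (δ / 2)) * (n : ℝ) ^ (1 / 2 + δ / 2) * LL m := by gcongr
        _ = CC (δ / 2) * C5 * ((n : ℝ) ^ (δ / 2) * (n : ℝ) ^ (1 / 2 + δ / 2)) * LL m := by ring
        _ = _ := by rw [e7]
  · intro ε hε
    obtain ⟨C5, hC5, hC5'⟩ := hsml ε hε
    obtain ⟨A1, hA1⟩ := hM2 (⌈1 / ε⌉₊ + 1)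
    have hs1 := tt_one_le A1
    obtain ⟨C, hC, hC'⟩ := glu_sum a ε (CN * C5 + (5 + 5 * tt A1)) hε (by positivity)
      (by rw [haz]; exact ha01) hdbl hix2
    refine ⟨C, hC, fun n => ?_⟩
    have hfin := hC' ℝ (fun n' => (c' n' : ℝ) - 1) 1 le_rfl ?_ ?_ n
    · rw [Real.norm_eq_abs, mul_one] at hfin
      exact hfin
    · intro n hn
      rw [haz] at hn
      simp only [hc0 n hn]
      norm_num
    · intro i n h1 h2
      have e1 : ∑ n' ∈ Finset.Ico (a i) n, ((c' n' : ℝ) - 1) =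
          ∑ n' ∈ Finset.Ico (a i) n, ((c (a i) n' : ℝ) - 1) := by
        apply Finset.sum_congr rfl
        intro n' hn'
        rw [Finset.mem_Ico] at hn'
        obtain ⟨f1, f2⟩ := hcc i n' hn'.1 (by omega)
        rw [f1]
      rw [e1, Real.norm_eq_abs, mul_one]
      rw [has] at h2
      have e2 := h8 (a i) (hage i) n h1 h2
      have e9 := hC5' i n h1
      have hn1 : (1 : ℝ) ≤ n := by
        have := hai1 i
        exact_mod_cast (by omega : 1 ≤ n)
      have hn0 : (0 : ℝ) < n := by linarith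
      have hne : (1 : ℝ) ≤ (n : ℝ) ^ ε := Real.one_le_rpow hn1 hε.le
      have hif : (if tt (a i) ^ (M (a i) - 1) ≤ n then 5 * tt (a i) else 0) ≤ (5 + 5 * tt A1) * (n : ℝ) ^ ε := by
        split_ifs with hcase
        · rcases le_or_gt A1 (a i) with h10 | h10
          · have h11 := hA1 (a i) h10
            have ht1 := tt_one_le (a i)
            have ht0 : 0 < tt (a i) := by linarith
            have h12 : tt (a i) ≤ (n : ℝ) ^ ε := by
              have k1 : tt (a i) ^ (1 / ε) ≤ (n : ℝ) := by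
                refine le_trans ?_ hcase
                rw [← Real.rpow_natCast]
                apply Real.rpow_le_rpow_of_exponent_le ht1
                refine (Nat.le_ceil (1 / ε)).trans ?_
                exact_mod_cast (by omega : ⌈1 / ε⌉₊ ≤ M (a i) - 1)
              have k2 := Real.rpow_le_rpow (by positivity) k1 hε.le
              rw [← Real.rpow_mul ht0.le, one_div_mul_cancel (ne_of_gt hε), Real.rpow_one] at k2
              exact k2
            nlinarith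
          · have h11 : tt (a i) ≤ tt A1 := tt_mono.monotone h10.le
            nlinarith
        · positivity
      calc _ ≤ _ := e2
        _ = CN * ((max (h (tt (a i) ^ M (a i))) 0 + 1) * Real.log (tt (a i)) ^ 4) +
            (if tt (a i) ^ (M (a i) - 1) ≤ n then 5 * tt (a i) else 0) := by ring
        _ ≤ CN * (C5 * (n : ℝ) ^ ε) + (5 + 5 * tt A1) * (n : ℝ) ^ ε :=
            add_le_add (mul_le_mul_of_nonneg_left e9 hCN) hif
        _ = _ := by ring
  · intro Y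
    obtain ⟨i, hi⟩ : ∃ i : ℕ, i = ⌈Y⌉₊ := ⟨_, rfl⟩
    have hA := hage i
    have hA1 : 1 ≤ a i := hai1 i
    have ht1 : (a i : ℝ) + 1 ≤ tt (a i) := tt_ge (a i)
    have ht2 : 2 ≤ tt (a i) := by
      have : (1 : ℝ) ≤ a i := by exact_mod_cast hA1
      linarith
    have hM4 : 2 ≤ M (a i) := by
      have := (hM1 (a i) (by omega)).1
      omega
    have ht4 : 2 * tt (a i) ≤ tt (a i) ^ M (a i) := by
      have e1 : tt (a i) ^ 2 ≤ tt (a i) ^ M (a i) := pow_le_pow_right₀ (by linarith) hM4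
      nlinarith
    refine ⟨tt (a i) ^ M (a i), ?_, ?_⟩
    · have e1 : Y ≤ (⌈Y⌉₊ : ℝ) := Nat.le_ceil _
      have e2 : (i : ℝ) ≤ a i := by
        have := hsm.id_le i
        simp only [id] at this
        exact_mod_cast this
      rw [← hi] at e1
      linarith
    · have hy : h (tt (a i) ^ M (a i)) ≤ max (h (tt (a i) ^ M (a i))) 0 := le_max_left _ _
      have hbig : ∀ n j, j < c' n → a (i + 1) ≤ n →
          tt (a i) ^ M (a i) + h (tt (a i) ^ M (a i)) < pt (c' n) (θ' n) n j := by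
        intro n j hj hn
        have e1 : tt n ≤ pt (c' n) (θ' n) n j := glu_pt_ge inv n (hθ1 n).1
        have e2 : tt (a (i + 1)) ≤ tt n := tt_mono.monotone hn
        have e3 := hte (a i) hA
        rw [← has] at e3
        linarith
      have hp : ∀ n j, 1 ≤ pt (c' n) (θ' n) n j := fun n j =>
        (tt_one_le n).trans (glu_pt_ge inv n (hθ1 n).1)
      have hsm2 : ∀ n j, j < c' n → n < a i → pt (c' n) (θ' n) n j < tt (a i) := by
        intro n j hj hn
        have e1 : pt (c' n) (θ' n) n j < tt (n + 1) := glu_pt_lt inv n hj (hθ1 n).1 (hθ1 n).2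
        have e2 : tt (n + 1) ≤ tt (a i) := tt_mono.monotone hn
        linarith
      have hmid : ∀ n j, j < c' n → a i ≤ n → n < a (i + 1) →
          pt (c' n) (θ' n) n j + tt (a i) ≤ tt (a i) ^ M (a i) := by
        intro n j hj h1 h2
        obtain ⟨f1, f2⟩ := hcc i n h1 h2
        rw [f1] at hj
        rw [f1, f2]
        rw [has] at h2
        exact h5 (a i) hA n j h1 h2 hj
      intro n j n' j' hj hj'
      rcases le_or_gt (a (i + 1)) n with h1 | h1
      · right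
        have := hbig n j hj h1
        have := hp n' j'
        linarith
      rcases le_or_gt (a (i + 1)) n' with h2 | h2
      · right
        have := hbig n' j' hj' h2
        have := hp n j
        linarith
      rcases le_or_gt (a i) n with h3 | h3
      · rcases le_or_gt (a i) n' with h4 | h4
        · obtain ⟨f1, f2⟩ := hcc i n h3 h1
          obtain ⟨g1, g2⟩ := hcc i n' h4 h2
          rw [f1] at hj
          rw [g1] at hj'
          rw [f1, f2, g1, g2]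
          rw [has] at h1 h2
          rcases h6 (a i) hA n j n' j' h3 h1 hj h4 h2 hj' with k1 | k1
          · left
            exact k1
          · right
            linarith
        · left
          have e1 := hmid n j hj h3 h1
          have e2 := hsm2 n' j' hj' h4
          linarith
      · left
        rcases le_or_gt (a i) n' with h4 | h4
        · have e1 := hmid n' j' hj' h4 h2
          have e2 := hsm2 n j hj h3
          linarith
        · have e1 := hsm2 n j hj h3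
          have e2 := hsm2 n' j' hj' h4
          linarith

end Pool.Agent.H68.GC
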