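import Pool.Agent.H68.GC.Stm
import Pool.Agent.H49.BP.Trans

/-!
# Project GC (helper68), module INV (helper40): the inverse function
-/

set_option autoImplicit false

namespace Pool.Agent.H68.GC

open MeasureTheory Filter Topology Set
open Pool.Agent.H49.BZ
open Pool.Agent.H49.BP (em em_norm em_meas em_cont)

variable [Dens]

theorem F_spec {v : ℝ} (hv : 0 ≤ v) : 1 ≤ F v ∧ MM (F v) = v := by
  unfold F
  rw [dif_pos hv]
  exact (exists_F hv).choose_spec

theorem F_neg {v : ℝ} (hv : v < 0) : F v = 1 := by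
  unfold F
  rw [dif_neg (not_le.2 hv)]

theorem MM_inj {a b : ℝ} (ha : 1 ≤ a) (hb : 1 ≤ b) (h : MM a = MM b) : a = b :=
  le_antisymm ((MM_le_iff ha hb).1 h.le) ((MM_le_iff hb ha).1 h.ge)

theorem F_MM {u : ℝ} (hu : 1 ≤ u) : F (MM u) = u :=
  MM_inj (F_spec (MM_nonneg hu)).1 hu (F_spec (MM_nonneg hu)).2

theorem F_nat (n : ℕ) : F n = tt n :=
  MM_inj (F_spec (Nat.cast_nonneg n)).1 (tt_one_le n)
    (by rw [(F_spec (Nat.cast_nonneg n)).2, MM_tt])

theorem F_strict : StrictMonoOn F (Ici 0) := by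
  intro v hv w hw hvw
  rw [← MM_lt_iff (F_spec hv).1 (F_spec hw).1, (F_spec hv).2, (F_spec hw).2]
  exact hvw

theorem F_mono : Monotone F := by
  intro v w hvw
  rcases lt_or_ge v 0 with hv | hv
  · rw [F_neg hv]
    rcases lt_or_ge w 0 with hw | hw
    · rw [F_neg hw]
    · exact (F_spec hw).1
  · exact F_strict.monotoneOn hv (hv.trans hvw : (0 : ℝ) ≤ w) hvw

/-- an extension which is strictly increasing on the line -/
noncomputable def G (v : ℝ) : ℝ := if v < 0 then v + 1 else F v

theorem G_strict : StrictMono G := by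
  intro v w hvw
  unfold G
  rcases lt_or_ge v 0 with hv | hv
  · rw [if_pos hv]
    rcases lt_or_ge w 0 with hw | hw
    · rw [if_pos hw]
      linarith
    · rw [if_neg (not_lt.2 hw)]
      linarith [(F_spec hw).1]
  · rw [if_neg (not_lt.2 hv), if_neg (not_lt.2 (hv.trans hvw.le))]
    exact F_strict hv (hv.trans hvw.le : (0 : ℝ) ≤ w) hvw

theorem G_surj : Function.Surjective G := by
  intro y
  rcases lt_or_ge y 1 with hy | hy
  · refine ⟨y - 1, ?_⟩
    unfold G
    rw [if_pos (by linarith)]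
    ring
  · refine ⟨MM y, ?_⟩
    unfold G
    rw [if_neg (not_lt.2 (MM_nonneg hy)), F_MM hy]

theorem G_cont : Continuous G :=
  (StrictMono.orderIsoOfSurjective G G_strict G_surj).continuous

theorem F_cont : ContinuousOn F (Ici 0) := by
  refine G_cont.continuousOn.congr fun v hv => ?_
  unfold G
  rw [if_neg (not_lt.2 hv)]

theorem F_sub {v w : ℝ} (hv : 0 ≤ v) (hvw : v ≤ w) : w - v ≤ F w - F v := by
  have h := MM_sub_le (F_spec hv).1 (F_mono hvw)
  rw [(F_spec hv).2, (F_spec (hv.trans hvw)).2] at h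
  exact h

theorem F_zero : F 0 = 1 := by
  have h := F_nat 0
  rw [Nat.cast_zero, tt_zero] at h
  exact h

/-- the image of the measure `md du` under `MM` is the Lebesgue measure -/
theorem map_md {a b : ℝ} (ha0 : 0 ≤ a) (hab : a ≤ b) :
    AEMeasurable MM ((volume.restrict (Ioc (F a) (F b))).withDensity (fun u => ENNReal.ofReal (md u))) ∧
    (((volume.restrict (Ioc (F a) (F b))).withDensity (fun u => ENNReal.ofReal (md u))).map MM) =
      volume.restrict (Ioc a b) := by
  have hFa : 1 ≤ F a := (F_spec ha0).1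
  have hFab : F a ≤ F b := F_mono hab
  have hFb : 1 ≤ F b := hFa.trans hFab
  set μ0 : Measure ℝ := volume.restrict (Ioc (F a) (F b)) with hμ0
  set μ : Measure ℝ := μ0.withDensity (fun u => ENNReal.ofReal (md u)) with hμ
  have hI : ∀ x, F a ≤ x → x ≤ F b → μ (Ioc (F a) x) = ENNReal.ofReal (MM x - a) := by
    intro x hx1 hx2
    have h1 : Ioc (F a) x ∩ Ioc (F a) (F b) = Ioc (F a) x := inter_eq_left.2 (Ioc_subset_Ioc_right hx2)
    rw [hμ, withDensity_apply _ measurableSet_Ioc, hμ0, Measure.restrict_restrict measurableSet_Ioc, h1,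
      ← ofReal_integral_eq_lintegral_ofReal, ← intervalIntegral.integral_of_le hx1,
      ← MM_sub hFa (hFa.trans hx1), (F_spec ha0).2]
    · exact (md_int hFa (hFa.trans hx1)).1
    · refine (ae_restrict_iff' measurableSet_Ioc).2 (Eventually.of_forall fun u hu => ?_)
      exact md_nonneg (hFa.trans hu.1.le)
  have hfin : IsFiniteMeasure μ := isFiniteMeasure_withDensity_ofReal (md_int hFa hFb).1.2
  have hMM0 : AEMeasurable MM μ0 :=
    (MM_cont.mono (fun x hx => hFa.trans hx.1.le)).aemeasurable measurableSet_Ioc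
  have hMM : AEMeasurable MM μ := hMM0.mono_ac (withDensity_absolutelyContinuous _ _)
  have hnull : μ (Ioc (F a) (F b))ᶜ = 0 := by
    refine withDensity_absolutelyContinuous _ _ ?_
    rw [hμ0, Measure.restrict_apply measurableSet_Ioc.compl, compl_inter_self, measure_empty]
  refine ⟨hMM, ?_⟩
  have : IsFiniteMeasure (μ.map MM) := Measure.isFiniteMeasure_map μ MM
  refine Measure.ext_of_Iic _ _ fun t => ?_
  rw [Measure.map_apply_of_aemeasurable hMM measurableSet_Iic, Measure.restrict_apply measurableSet_Iic,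
    ← measure_inter_conull hnull]
  rcases lt_or_ge t a with ht | ht
  · have h1 : MM ⁻¹' Iic t ∩ Ioc (F a) (F b) = ∅ := by
      refine eq_empty_of_forall_notMem fun u hu => ?_
      have h2 : MM u ≤ t := hu.1
      have h3 := MM_lt hFa hu.2.1
      rw [(F_spec ha0).2] at h3
      linarith
    have h2 : Iic t ∩ Ioc a b = ∅ := by
      refine eq_empty_of_forall_notMem fun u hu => ?_
      have h3 : u ≤ t := hu.1
      linarith [hu.2.1]
    rw [h1, h2, measure_empty, measure_empty]
  · have hm0 : 0 ≤ min b t := le_min (ha0.trans hab) (ha0.trans ht)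
    have h1 : MM ⁻¹' Iic t ∩ Ioc (F a) (F b) = Ioc (F a) (F (min b t)) := by
      ext u
      constructor
      · rintro ⟨h2, h3⟩
        have h2' : MM u ≤ t := h2
        have hu : 1 ≤ u := hFa.trans h3.1.le
        refine ⟨h3.1, ?_⟩
        rw [← MM_le_iff hu (F_spec hm0).1, (F_spec hm0).2]
        refine le_min ?_ h2'
        have := (MM_le_iff hu hFb).2 h3.2
        rwa [(F_spec (ha0.trans hab)).2] at this
      · rintro ⟨h2, h3⟩
        have hu : 1 ≤ u := hFa.trans h2.le
        refine ⟨?_, h2, h3.trans (F_mono (min_le_left _ _))⟩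
        show MM u ≤ t
        have := (MM_le_iff hu (F_spec hm0).1).2 h3
        rw [(F_spec hm0).2] at this
        exact this.trans (min_le_right _ _)
    have h2 : Iic t ∩ Ioc a b = Ioc a (min b t) := by
      ext u
      simp only [mem_inter_iff, mem_Iic, mem_Ioc, le_min_iff]
      tauto
    rw [h1, h2, hI _ (F_mono (le_min hab ht)) (F_mono (min_le_left _ _)), (F_spec hm0).2, Real.volume_Ioc]

theorem F_int (m : ℤ) {a b : ℝ} (ha : 1 ≤ a) (hab : a ≤ b) :
    ∫ v in a..b, em m (F v) = ∫ u in (F a)..(F b), em m u * (md u : ℂ) := by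
  have ha0 : 0 ≤ a := by linarith
  have hFa : 1 ≤ F a := (F_spec ha0).1
  have hFab : F a ≤ F b := F_mono hab
  obtain ⟨hMM, hmap⟩ := map_md ha0 hab
  have hsm : Measurable (fun v => em m (F v)) := (em_meas m).comp F_mono.measurable
  rw [intervalIntegral.integral_of_le hab, intervalIntegral.integral_of_le hFab, ← hmap,
    integral_map hMM hsm.aestronglyMeasurable,
    integral_withDensity_eq_integral_toReal_smul md_meas.ennreal_ofReal
      (Eventually.of_forall fun _ => ENNReal.ofReal_lt_top)]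
  refine setIntegral_congr_fun measurableSet_Ioc fun u hu => ?_
  have hu1 : 1 ≤ u := hFa.trans hu.1.le
  show (ENNReal.ofReal (md u)).toReal • em m (F (MM u)) = em m u * (md u : ℂ)
  rw [F_MM hu1, ENNReal.toReal_ofReal (md_nonneg hu1), Complex.real_smul, mul_comm]

theorem MM_inc_upp (hU : Upp) {a b : ℝ} (ha : 1 < a) (hab : a ≤ b) :
    MM b - MM a ≤ (b - a) * (2 / Real.log a) := by
  rw [MM_sub ha.le (by linarith)]
  have h1 := intervalIntegral.integral_mono_on hab (md_int ha.le (by linarith))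
    (intervalIntegrable_const (c := 2 / Real.log a))
    (fun x hx => by
      refine (hU x (by linarith [hx.1])).trans ?_
      have hl := Real.log_pos ha
      exact div_le_div_of_nonneg_left (by norm_num) hl (Real.log_le_log (by linarith) hx.1))
  refine h1.trans (le_of_eq ?_)
  rw [intervalIntegral.integral_const, smul_eq_mul]

theorem tt_big (hU : Upp) : ∃ A0 : ℕ, 1 ≤ A0 ∧ ∀ n : ℕ, A0 ≤ n → 4 * (n : ℝ) + 8 ≤ tt n := by
  set x0 : ℝ := Real.exp 16 with hx0
  have hx1 : 1 < x0 := by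
    rw [hx0]
    exact Real.one_lt_exp_iff.2 (by norm_num)
  have hlog : Real.log x0 = 16 := by rw [hx0, Real.log_exp]
  obtain ⟨N1, hN1⟩ := exists_nat_ge x0
  obtain ⟨N2, hN2⟩ := exists_nat_ge (2 * MM x0 + 2)
  refine ⟨N1 + N2 + 1, by omega, fun n hn => ?_⟩
  have h1 : (N1 : ℝ) ≤ n := by exact_mod_cast (by omega : N1 ≤ n)
  have h2 : (N2 : ℝ) ≤ n := by exact_mod_cast (by omega : N2 ≤ n)
  have h3 := tt_ge n
  have h4 : x0 ≤ tt n := by linarith
  have h5 := MM_inc_upp hU hx1 h4
  rw [MM_tt, hlog] at h5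
  have h6 := MM_nonneg hx1.le
  linarith

theorem tt_sq : ∃ A0 : ℕ, 1 ≤ A0 ∧ ∀ n : ℕ, A0 ≤ n → tt n ≤ (n : ℝ) ^ 2 := by
  have h1 : ∀ᶠ x : ℝ in atTop, ‖Real.log x‖ ≤ 1 / 32 * ‖x ^ (1 / 2 : ℝ)‖ :=
    (isLittleO_log_rpow_atTop (by norm_num : (0 : ℝ) < 1 / 2)).def (by norm_num)
  obtain ⟨X, hX⟩ := eventually_atTop.1 h1
  obtain ⟨N, hN⟩ := exists_nat_ge (max X 4)
  refine ⟨N + 1, by omega, fun n hn => ?_⟩
  have h2 : (N : ℝ) ≤ n := by exact_mod_cast (by omega : N ≤ n)
  have h3 := tt_ge n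
  have h4 : X ≤ tt n := by linarith [le_max_left X 4]
  have h5 : 4 ≤ tt n := by linarith [le_max_right X 4]
  have h6 := hX _ h4
  set x := tt n with hx
  have hx0 : 0 < x := by linarith
  have hl : 0 < Real.log x := Real.log_pos (by linarith)
  rw [Real.norm_of_nonneg hl.le, Real.norm_of_nonneg (Real.rpow_nonneg hx0.le _),
    ← Real.sqrt_eq_rpow] at h6
  by_contra hcon
  push Not at hcon
  have h7 : (n : ℝ) < √x := by
    rw [Real.lt_sqrt (Nat.cast_nonneg n)]
    exact hcon
  have h8 := le_MM_inc (a := 2) (b := x) le_rfl (by linarith)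
  rw [div_le_iff₀ (by positivity)] at h8
  have h9 : MM x = n := MM_tt n
  have h10 := MM_nonneg (x := 2) (by norm_num)
  have h11 : x - 2 ≤ n * (8 * Real.log x) := by
    rw [h9] at h8
    have : 0 ≤ MM 2 * (8 * Real.log x) := by positivity
    nlinarith
  have h12 : (n : ℝ) * (8 * Real.log x) ≤ √x * (8 * (1 / 32 * √x)) := by
    have hs : 0 ≤ √x := Real.sqrt_nonneg x
    gcongr
  have h13 : √x * (8 * (1 / 32 * √x)) = x / 4 := by
    have := Real.mul_self_sqrt hx0.le
    nlinarith
  linarith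

theorem t_INV : S_INV :=
  ⟨fun _ hv => F_spec hv, fun _ hu => F_MM hu, F_nat, F_strict, F_mono, F_cont,
    fun _ _ hv hvw => F_sub hv hvw, fun m _ _ ha hab => F_int m ha hab, tt_big, tt_sq⟩

end Pool.Agent.H68.GC
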