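import Pool.Agent.H68.GC.Stm
import Pool.Agent.H68.GB.Scl

set_option autoImplicit false

/-!
# Project GC (helper68), module SCL (helper39): one scale
-/

namespace Pool.Agent.H68.GC

open MeasureTheory Filter Topology Set
open Pool.Agent.H49.BZ (Dens md MM tt tt_ge tt_mono)
open Pool.Agent.H68.GB (LL)
open Pool.Agent.H68.GB.SCL (LL_ge sum_win sum_winR sum_bd)

noncomputable section

namespace SCL

lemma pt_bd [Dens] (inv : S_INV) {c : ℕ} {θ : ℝ} (n : ℕ) {i : ℕ} (h0 : 0 ≤ θ) (h1 : θ < 1)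
    (hi : i < c) : tt n ≤ pt c θ n i ∧ pt c θ n i < tt (n + 1) := by
  obtain ⟨-, -, h3, h4, -⟩ := inv
  have hc : (0 : ℝ) < c := by
    have : 0 < c := by omega
    exact_mod_cast this
  have hi' : (i : ℝ) + 1 ≤ c := by exact_mod_cast hi
  have hi0 : (0 : ℝ) ≤ i := Nat.cast_nonneg i
  have hn0 : (0 : ℝ) ≤ n := Nat.cast_nonneg n
  have h5 : 0 ≤ (θ + i) / c := by positivity
  have h6 : (θ + i) / c < 1 := by
    rw [div_lt_one hc]
    linarith
  constructor
  · rw [← h3 n]
    exact h4.monotoneOn (show (0 : ℝ) ≤ n from hn0) (show (0 : ℝ) ≤ n + (θ + i) / c by linarith)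
      (by linarith)
  · rw [← h3 (n + 1)]
    unfold pt
    refine h4 (show (0 : ℝ) ≤ n + (θ + i) / c by linarith)
      (show (0 : ℝ) ≤ ((n + 1 : ℕ) : ℝ) by positivity) ?_
    push_cast
    linarith

lemma lfc_le (l : ℕ → ℕ) (k : ℕ) : lfc l k ≤ 4 := by
  unfold lfc
  split_ifs <;> omega

lemma rtc_le (l : ℕ → ℕ) (k : ℕ) : rtc l k ≤ 2 := by
  unfold rtc
  split_ifs <;> omega

/-- occupied windows are not adjacent -/
lemma occ {l : ℕ → ℕ} (h1 : ∀ j, l j < 4) (h2 : ∀ j, l (j + 1) = 0 → l j = 0 ∨ l j = 3) {k k' : ℕ}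
    (hk : k % 4 = l (k / 4))
    (hk' : k' % 4 = (l (k' / 4) + 1) % 4 ∨ k' % 4 = (l (k' / 4) + 2) % 4) :
    k' ≠ k ∧ k' + 1 ≠ k := by
  constructor
  · rintro rfl
    have := h1 (k' / 4)
    omega
  · rintro rfl
    have a1 := h1 (k' / 4)
    have a2 := h1 ((k' + 1) / 4)
    rcases Nat.lt_or_ge (k' % 4) 3 with h | h
    · have e : (k' + 1) / 4 = k' / 4 := by omega
      rw [e] at hk
      omega
    · have e : (k' + 1) / 4 = k' / 4 + 1 := by omega
      rw [e] at hk
      have h3 : (k' + 1) % 4 = 0 := by omega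
      rw [h3] at hk
      have h4 := h2 (k' / 4) hk.symm
      omega

lemma main_sum {A W N B : ℕ} {β V : ℕ → ℕ} (hW : 1 ≤ W) (hWB : 4 * W ≤ B) (hβ : Antitone β)
    (hV : ∀ j i, i < 4 → β (4 * j + i) = β (4 * j + i + 1) + V j) (hVB : ∀ j, 4 * V j ≤ B)
    (hAN : A + 4 * N * W ≤ β (4 * N)) (hAN' : β (4 * N) ≤ A + 4 * N * W + B) (f : ℕ → ℂ) (X : ℝ)
    (hX : 0 ≤ X) (hf : ∀ k, ‖f k‖ ≤ 5) (n₀ : ℕ)
    (hL : ∀ J, J ≤ N → J ≤ n₀ → ‖∑ k ∈ Finset.Ico A (A + 4 * J * W), f k‖ ≤ X)
    (hR : ∀ J, J ≤ N → J ≤ n₀ → ‖∑ k ∈ Finset.Ico (β (4 * J)) (β 0), f k‖ ≤ X) (n : ℕ)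
    (hn : A ≤ n) (hn0 : n ≤ β 0) (hnn : n ≤ n₀) :
    ‖∑ k ∈ Finset.Ico A n, f k‖ ≤ 3 * X + 10 * B := by
  have hB0 : (0 : ℝ) ≤ B := Nat.cast_nonneg B
  have hKn : ∀ {n : ℕ}, A + 4 * N * W ≤ n → N ≤ n := by
    intro n h1
    have : 4 * N * 1 ≤ 4 * N * W := Nat.mul_le_mul_left _ hW
    omega
  rcases le_or_gt n (β (4 * N)) with h1 | h1
  · obtain ⟨J, hJ, hJn, h2, h3⟩ : ∃ J, J ≤ N ∧ J ≤ n ∧ A + 4 * J * W ≤ n ∧
        n ≤ A + 4 * J * W + B := by
      rcases lt_or_ge n (A + 4 * N * W) with h | h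
      · have h3 : (n - A) / (4 * W) * (4 * W) ≤ n - A := Nat.div_mul_le_self _ _
        have h4 : n - A < (n - A) / (4 * W) * (4 * W) + 4 * W := Nat.lt_div_mul_add (by omega)
        have h5 : (n - A) / (4 * W) < N := by
          rw [Nat.div_lt_iff_lt_mul (by omega)]
          have : N * (4 * W) = 4 * N * W := by ring
          omega
        have h6 : (n - A) / (4 * W) * 1 ≤ (n - A) / (4 * W) * (4 * W) :=
          Nat.mul_le_mul_left _ (by omega)
        have h7 : 4 * ((n - A) / (4 * W)) * W = (n - A) / (4 * W) * (4 * W) := by ring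
        exact ⟨(n - A) / (4 * W), h5.le, by omega, by omega, by omega⟩
      · exact ⟨N, le_rfl, hKn h, h, by omega⟩
    rw [← Finset.sum_Ico_consecutive f (Nat.le_add_right A (4 * J * W)) h2]
    have e1 := hL J hJ (hJn.trans hnn)
    have e2 := sum_bd f 5 _ _ B (by norm_num) (fun k _ _ => hf k) h3
    have e3 := norm_add_le (∑ k ∈ Finset.Ico A (A + 4 * J * W), f k)
      (∑ k ∈ Finset.Ico (A + 4 * J * W) n, f k)
    linarith
  · have hex : ∃ J, β (4 * J) ≤ n := ⟨N, h1.le⟩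
    obtain ⟨J, hJN, hJ1, hJ2⟩ : ∃ J, J ≤ N ∧ β (4 * J) ≤ n ∧ n ≤ β (4 * J) + B := by
      classical
      have a1 : Nat.find hex ≤ N := Nat.find_min' hex h1.le
      have a2 := Nat.find_spec hex
      rcases Nat.eq_zero_or_pos (Nat.find hex) with h0 | h0
      · refine ⟨0, Nat.zero_le _, ?_, ?_⟩
        · rw [h0] at a2
          exact a2
        · rw [Nat.mul_zero]
          omega
      · obtain ⟨j, hj⟩ : ∃ j, Nat.find hex = j + 1 := ⟨Nat.find hex - 1, by omega⟩
        have a3 : ¬ β (4 * j) ≤ n := Nat.find_min hex (by omega)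
        rw [hj] at a1 a2
        refine ⟨j + 1, a1, a2, ?_⟩
        have b0 := hV j 0 (by norm_num)
        have b1 := hV j 1 (by norm_num)
        have b2 := hV j 2 (by norm_num)
        have b3 := hV j 3 (by norm_num)
        have b4 := hVB j
        have e0 : 4 * j + 0 = 4 * j := by ring
        have e4 : 4 * j + 3 + 1 = 4 * (j + 1) := by ring
        have e1 : 4 * j + 0 + 1 = 4 * j + 1 := by ring
        have e2 : 4 * j + 1 + 1 = 4 * j + 2 := by ring
        have e3 : 4 * j + 2 + 1 = 4 * j + 3 := by ring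
        rw [e1, e0] at b0
        rw [e2] at b1
        rw [e3] at b2
        rw [e4] at b3
        omega
    have h6 : β (4 * N) ≤ β (4 * J) := hβ (by omega)
    have h7 : A ≤ β (4 * N) := by omega
    have hNn : N ≤ n₀ := (hKn (hAN.trans h1.le)).trans hnn
    rw [← Finset.sum_Ico_consecutive f h7 h1.le, ← Finset.sum_Ico_consecutive f h6 hJ1]
    have h8 : ∑ k ∈ Finset.Ico (β (4 * N)) (β (4 * J)), f k =
        ∑ k ∈ Finset.Ico (β (4 * N)) (β 0), f k - ∑ k ∈ Finset.Ico (β (4 * J)) (β 0), f k := by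
      rw [← Finset.sum_Ico_consecutive f h6 (hβ (Nat.zero_le _)), add_sub_cancel_right]
    rw [h8, ← Finset.sum_Ico_consecutive f (Nat.le_add_right A (4 * N * W)) hAN]
    have e1 := hL N le_rfl hNn
    have e2 := sum_bd f 5 _ _ B (by norm_num) (fun k _ _ => hf k) hAN'
    have e3 := hR N le_rfl hNn
    have e4 := hR J hJN (hJN.trans hNn)
    have e5 := sum_bd f 5 (β (4 * J)) n B (by norm_num) (fun k _ _ => hf k) hJ2
    have t1 := norm_add_le (∑ k ∈ Finset.Ico A (A + 4 * N * W), f k)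
      (∑ k ∈ Finset.Ico (A + 4 * N * W) (β (4 * N)), f k)
    have t2 := norm_sub_le (∑ k ∈ Finset.Ico (β (4 * N)) (β 0), f k)
      (∑ k ∈ Finset.Ico (β (4 * J)) (β 0), f k)
    have t3 := norm_add_le (∑ k ∈ Finset.Ico (β (4 * N)) (β 0), f k -
      ∑ k ∈ Finset.Ico (β (4 * J)) (β 0), f k) (∑ k ∈ Finset.Ico (β (4 * J)) n, f k)
    have t4 := norm_add_le (∑ k ∈ Finset.Ico A (A + 4 * N * W), f k +
      ∑ k ∈ Finset.Ico (A + 4 * N * W) (β (4 * N)), f k)
      (∑ k ∈ Finset.Ico (β (4 * N)) (β 0), f k - ∑ k ∈ Finset.Ico (β (4 * J)) (β 0), f k +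
        ∑ k ∈ Finset.Ico (β (4 * J)) n, f k)
    linarith

lemma blkL (l : ℕ → ℕ) (h : ∀ j, l j < 4) (W : ℕ) (J : ℕ) :
    ∑ k ∈ Finset.range (4 * J), (W : ℂ) * ((lfc l k : ℂ) - 1) = 0 := by
  induction J with
  | zero => simp
  | succ J ih =>
    have e : 4 * (J + 1) = 4 * J + 4 := by ring
    rw [e, Finset.sum_range_add, ih, zero_add]
    have e0 : ∀ i, i < 4 → lfc l (4 * J + i) = if i = l J then 4 else 0 := by
      intro i hi
      unfold lfc
      have a1 : (4 * J + i) % 4 = i := by omega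
      have a2 : (4 * J + i) / 4 = J := by omega
      rw [a1, a2]
    have hl := h J
    rw [Finset.sum_range_succ, Finset.sum_range_succ, Finset.sum_range_succ,
      Finset.sum_range_succ, Finset.sum_range_zero, e0 0 (by norm_num), e0 1 (by norm_num),
      e0 2 (by norm_num), e0 3 (by norm_num)]
    generalize l J = x at hl
    interval_cases x <;> norm_num <;> ring

lemma blkR (l : ℕ → ℕ) (h : ∀ j, l j < 4) (V : ℕ → ℕ) (J : ℕ) :
    ∑ k ∈ Finset.range (4 * J), (V (k / 4) : ℂ) * ((rtc l k : ℂ) - 1) = 0 := by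
  induction J with
  | zero => simp
  | succ J ih =>
    have e : 4 * (J + 1) = 4 * J + 4 := by ring
    rw [e, Finset.sum_range_add, ih, zero_add]
    have e0 : ∀ i, i < 4 → rtc l (4 * J + i) =
        if i = (l J + 1) % 4 ∨ i = (l J + 2) % 4 then 2 else 0 := by
      intro i hi
      unfold rtc
      have a1 : (4 * J + i) % 4 = i := by omega
      have a2 : (4 * J + i) / 4 = J := by omega
      rw [a1, a2]
    have e1 : ∀ i, i < 4 → (4 * J + i) / 4 = J := by
      intro i hi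
      omega
    have hl := h J
    rw [Finset.sum_range_succ, Finset.sum_range_succ, Finset.sum_range_succ,
      Finset.sum_range_succ, Finset.sum_range_zero, e0 0 (by norm_num), e0 1 (by norm_num),
      e0 2 (by norm_num), e0 3 (by norm_num), e1 0 (by norm_num), e1 1 (by norm_num),
      e1 2 (by norm_num), e1 3 (by norm_num)]
    generalize l J = x at hl
    interval_cases x <;> norm_num

end SCL

open SCL

theorem t_SCL [Dens] (inv : S_INV) (avg : S_AVG) (stp : S_STP) (geo : S_GEO) (loc : Loc) :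
    S_SCL := by
  obtain ⟨CC₁, hCC₁, stp⟩ := stp
  obtain ⟨C₂, A₂, hC₂, hA₂, geo⟩ := geo loc
  obtain ⟨-, -, avg3, avg4⟩ := avg
  refine ⟨10 * C₂, fun δ => 3 * CC₁ δ * C₂ + 10 * C₂ + 5, A₂, by positivity,
    fun δ => by have := hCC₁ δ; positivity, hA₂, ?_⟩
  intro A M H hA hM4 hMlog hH0 hH1
  obtain ⟨W, N, B, e, β, V, hW, hWB, hB, hβ, hV, hVB, hβ1, hAN, hAN', hbK, hbM, hb0, he, h2A,
    hte, htK, htbK, hle, hlt⟩ := geo A M H hA hM4 hMlog hH0 hH1
  have hA1 : 1 ≤ A := hA₂.trans hA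
  have htA2 : 2 ≤ tt A := by
    have h1 := tt_ge A
    have h2 : (1 : ℝ) ≤ A := by exact_mod_cast hA1
    linarith
  have hlog4 : 4 ≤ Real.log (tt A) := by
    have : (4 : ℝ) ≤ M := by exact_mod_cast hM4
    linarith
  have hlog : 1 ≤ Real.log (tt A) ^ 4 := one_le_pow₀ (by linarith)
  obtain ⟨l, θ', hl4, hl0, hθ', hstp⟩ := stp A W B β V hA1 hW hWB hV hβ1 hVB
  -- the index of the right window
  obtain ⟨r, hr1, hr2⟩ : ∃ r : ℕ → ℕ, (∀ n, β (4 * N) ≤ n → β (r n) ≤ n) ∧
      ∀ n j, β j ≤ n → r n ≤ j :=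
    ⟨fun n => sInf {j | β j ≤ n}, fun n hn => Nat.sInf_mem (s := {j | β j ≤ n})
      ⟨4 * N, hn⟩, fun n j hj => Nat.sInf_le hj⟩
  have hr3 : ∀ n j, j < r n → n < β j := fun n j hj => by
    by_contra h
    push Not at h
    exact absurd (hr2 n j h) (by omega)
  obtain ⟨c, hc⟩ : ∃ c : ℕ → ℕ, ∀ n, c n = if n < A + 4 * N * W then lfc l ((n - A) / W)
      else if β (4 * N) ≤ n ∧ n < β 0 then rtc l (r n - 1) else 0 := ⟨_, fun _ => rfl⟩
  obtain ⟨θ, hθ⟩ : ∃ θ : ℕ → ℝ, ∀ n, θ n = if n < A + 4 * N * W then θ' ((n - A) / W / 4)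
      else θ' ((r n - 1) / 4) := ⟨_, fun _ => rfl⟩
  have hθ0 : ∀ n, 0 ≤ θ n ∧ θ n < 1 := by
    intro n
    rw [hθ]
    split_ifs
    · exact hθ' _
    · exact hθ' _
  have hc4 : ∀ n, c n ≤ 4 := by
    intro n
    rw [hc]
    split_ifs
    · exact lfc_le _ _
    · exact (rtc_le _ _).trans (by norm_num)
    · omega
  -- left windows
  have hL : ∀ j n, j < 4 * N → A + j * W ≤ n → n < A + (j + 1) * W →
      c n = lfc l j ∧ θ n = θ' (j / 4) := by
    intro j n hj h1 h2
    have h3 : (n - A) / W = j := by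
      refine Nat.div_eq_of_lt_le ?_ ?_
      · omega
      · omega
    have h4 : (j + 1) * W ≤ 4 * N * W := Nat.mul_le_mul_right _ hj
    have h5 : n < A + 4 * N * W := by omega
    rw [hc, hθ, if_pos h5, if_pos h5, h3]
    exact ⟨rfl, rfl⟩
  have hR : ∀ j n, j < 4 * N → β (j + 1) ≤ n → n < β j →
      c n = rtc l j ∧ θ n = θ' (j / 4) := by
    intro j n hj h1 h2
    have h3 : r n = j + 1 := by
      refine le_antisymm (hr2 n (j + 1) h1) ?_
      by_contra h
      push Not at h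
      have h4 : r n ≤ j := by omega
      have h5 := hβ h4
      have h6 := hr1 n ((hβ (show j + 1 ≤ 4 * N from hj)).trans h1)
      omega
    have h7 : β (4 * N) ≤ n := (hβ (show j + 1 ≤ 4 * N from hj)).trans h1
    have h8 : n < β 0 := h2.trans_le (hβ (Nat.zero_le j))
    have h9 : ¬ n < A + 4 * N * W := by omega
    rw [hc, hθ, if_neg h9, if_neg h9, if_pos ⟨h7, h8⟩, h3, Nat.add_sub_cancel]
    exact ⟨rfl, rfl⟩
  have hG : ∀ n, A + 4 * N * W ≤ n → (n < β (4 * N) ∨ β 0 ≤ n) → c n = 0 := by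
    intro n h1 h2
    rw [hc, if_neg (by omega), if_neg (by omega)]
  -- classification of the cells with points
  have hcl : ∀ n i, A ≤ n → i < c n →
      (∃ k, k < 4 * N ∧ A + k * W ≤ n ∧ n < A + (k + 1) * W ∧ k % 4 = l (k / 4)) ∨
      (∃ k, k < 4 * N ∧ β (k + 1) ≤ n ∧ n < β k ∧
        (k % 4 = (l (k / 4) + 1) % 4 ∨ k % 4 = (l (k / 4) + 2) % 4)) := by
    intro n i hn hi
    by_cases h1 : n < A + 4 * N * W
    · left
      have h2 : (n - A) / W < 4 * N := by
        rw [Nat.div_lt_iff_lt_mul (by omega)]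
        omega
      have h3 : (n - A) / W * W ≤ n - A := Nat.div_mul_le_self _ _
      have h4 : n - A < ((n - A) / W + 1) * W := by
        rw [add_mul, one_mul]
        exact Nat.lt_div_mul_add (by omega)
      refine ⟨(n - A) / W, h2, by omega, by omega, ?_⟩
      rw [hc, if_pos h1] at hi
      unfold lfc at hi
      by_contra h5
      rw [if_neg h5] at hi
      omega
    · by_cases h2 : β (4 * N) ≤ n ∧ n < β 0
      · right
        have h3 : r n ≤ 4 * N := hr2 n (4 * N) h2.1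
        have h4 : r n ≠ 0 := by
          intro h
          have h5 := hr1 n h2.1
          rw [h] at h5
          omega
        have h6 := hr1 n h2.1
        have h7 := hr3 n (r n - 1) (by omega)
        refine ⟨r n - 1, by omega, ?_, h7, ?_⟩
        · rw [Nat.sub_add_cancel (by omega)]
          exact h6
        · rw [hc, if_neg h1, if_pos h2] at hi
          unfold rtc at hi
          by_contra h5
          rw [if_neg h5] at hi
          omega
      · rw [hc, if_neg h1, if_neg h2] at hi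
        omega
  have htt : ∀ {i j : ℕ}, i ≤ j → tt i ≤ tt j := fun h => tt_mono.monotone h
  have hbd : ∀ n i, i < c n → tt n ≤ pt (c n) (θ n) n i ∧ pt (c n) (θ n) n i < tt (n + 1) :=
    fun n i hi => pt_bd inv n (hθ0 n).1 (hθ0 n).2 hi
  refine ⟨e, c, θ, h2A, hc4, hθ0, hte, ?_, ?_, ?_, ?_⟩
  · intro n i hn _ hi
    obtain ⟨h1, h2⟩ := hbd n i hi
    rcases hcl n i hn hi with ⟨k, hk, h3, h4, -⟩ | ⟨k, hk, h3, h4, -⟩
    · have h5 : (k + 1) * W ≤ 4 * N * W := Nat.mul_le_mul_right _ hk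
      have h6 := htt (show n + 1 ≤ A + 4 * N * W by omega)
      have h7 : tt A * 2 ≤ tt A ^ M := by
        have e1 : tt A ^ M = tt A * tt A ^ (M - 1) := by
          rw [← pow_succ', Nat.sub_add_cancel (by omega)]
        have e2 : 2 ≤ tt A ^ (M - 1) := by
          calc (2 : ℝ) ≤ tt A := htA2
            _ = tt A ^ 1 := (pow_one _).symm
            _ ≤ tt A ^ (M - 1) := pow_le_pow_right₀ (by linarith) (by omega)
        rw [e1]
        exact mul_le_mul_of_nonneg_left e2 (by linarith)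
      linarith
    · have h5 : β k ≤ β 0 := hβ (Nat.zero_le k)
      have h6 := htt (show n + 1 ≤ β 0 by omega)
      have h7 := hle 0 (Nat.zero_le _)
      rw [Nat.zero_mul, Nat.add_zero] at h7
      linarith
  · -- two points
    have hmix : ∀ n i n' i', A ≤ n → i < c n → A ≤ n' → i' < c n' →
        (∃ k, k < 4 * N ∧ A + k * W ≤ n ∧ n < A + (k + 1) * W ∧ k % 4 = l (k / 4)) →
        (∃ k, k < 4 * N ∧ β (k + 1) ≤ n' ∧ n' < β k ∧
          (k % 4 = (l (k / 4) + 1) % 4 ∨ k % 4 = (l (k / 4) + 2) % 4)) →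
        pt (c n) (θ n) n i + pt (c n') (θ n') n' i' < tt A ^ M ∨
        tt A ^ M + H < pt (c n) (θ n) n i + pt (c n') (θ n') n' i' := by
      rintro n i n' i' hn hi hn' hi' ⟨k, hk, h3, h4, hs1⟩ ⟨j, hj, h5, h6, hs3⟩
      obtain ⟨h1, h2⟩ := hbd n i hi
      obtain ⟨h1', h2'⟩ := hbd n' i' hi'
      obtain ⟨hne1, hne2⟩ := occ hl4 hl0 hs1 hs3
      rcases lt_or_ge j k with hlt' | hge
      · right
        obtain ⟨k', rfl⟩ : ∃ k', k = k' + 1 := ⟨k - 1, by omega⟩
        have h7 := hlt k' (by omega)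
        have h8 := htt h3
        have h9 := htt ((hβ (show j + 1 ≤ k' by omega)).trans h5)
        linarith
      · left
        have h7 := hle (k + 1) (by omega)
        have h8 := htt (show n + 1 ≤ A + (k + 1) * W by omega)
        have h9 := htt (show n' + 1 ≤ β (k + 1) from
          le_trans (by omega : n' + 1 ≤ β j) (hβ (by omega)))
        linarith
    intro n i n' i' hn _ hi hn' _ hi'
    rcases hcl n i hn hi with hl | hr
    · rcases hcl n' i' hn' hi' with hl' | hr'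
      · left
        obtain ⟨h1, h2⟩ := hbd n i hi
        obtain ⟨h1', h2'⟩ := hbd n' i' hi'
        obtain ⟨k, hk, h3, h4, -⟩ := hl
        obtain ⟨k', hk', h3', h4', -⟩ := hl'
        have h5 : (k + 1) * W ≤ 4 * N * W := Nat.mul_le_mul_right _ hk
        have h5' : (k' + 1) * W ≤ 4 * N * W := Nat.mul_le_mul_right _ hk'
        have h6 := htt (show n + 1 ≤ A + 4 * N * W by omega)
        have h6' := htt (show n' + 1 ≤ A + 4 * N * W by omega)
        linarith
      · exact hmix n i n' i' hn hi hn' hi' hl hr'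
    · rcases hcl n' i' hn' hi' with hl' | hr'
      · rw [add_comm (pt (c n) (θ n) n i)]
        exact hmix n' i' n i hn' hi' hn hi hl' hr
      · right
        obtain ⟨h1, h2⟩ := hbd n i hi
        obtain ⟨h1', h2'⟩ := hbd n' i' hi'
        obtain ⟨k, hk, h3, h4, -⟩ := hr
        obtain ⟨k', hk', h3', h4', -⟩ := hr'
        have h6 := htt ((hβ (show k + 1 ≤ 4 * N from hk)).trans h3)
        have h6' := htt ((hβ (show k' + 1 ≤ 4 * N from hk')).trans h3')
        linarith
  · -- the discrepancy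
    intro δ hδ m n hn hne
    set f : ℕ → ℂ := fun n' => cs m (c n') (θ n') n' - ci m n' with hf
    have hf5 : ∀ k, ‖f k‖ ≤ 5 := by
      intro k
      have h1 := avg3 m (c k) k (θ k)
      have h2 := avg4 m k
      have h3 : (c k : ℝ) ≤ 4 := by exact_mod_cast hc4 k
      calc ‖f k‖ ≤ ‖cs m (c k) (θ k) k‖ + ‖ci m k‖ := norm_sub_le _ _
        _ ≤ 4 + 1 := by linarith
        _ = 5 := by norm_num
    have hLm := LL_ge m
    have hx : ∀ {i j : ℕ}, i ≤ j → (i : ℝ) ^ (1 / 2 + δ) ≤ (j : ℝ) ^ (1 / 2 + δ) := fun h =>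
      Real.rpow_le_rpow (Nat.cast_nonneg _) (by exact_mod_cast h) (by linarith)
    have hn1 : 1 ≤ (n : ℝ) ^ (1 / 2 + δ) :=
      Real.one_le_rpow (by exact_mod_cast hA1.trans hn) (by linarith)
    have hCB : 0 ≤ CC₁ δ * B := mul_nonneg (hCC₁ δ) (Nat.cast_nonneg _)
    set X : ℝ := CC₁ δ * B * (n : ℝ) ^ (1 / 2 + δ) * LL m with hX
    have hX0 : 0 ≤ X := by positivity
    have hup : ∀ k : ℕ, k ≤ n → CC₁ δ * B * (k : ℝ) ^ (1 / 2 + δ) * LL m ≤ X := by
      intro k hk
      have := hx hk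
      rw [hX]
      gcongr
    have hSL : ∀ J, J ≤ N → J ≤ n → ‖∑ n' ∈ Finset.Ico A (A + 4 * J * W), f n'‖ ≤ X := by
      intro J hJ hJn
      rw [sum_win]
      have h1 := (hstp δ hδ m J).1
      have h2 : ∑ j ∈ Finset.range (4 * J), ∑ n' ∈ Finset.Ico (A + j * W) (A + (j + 1) * W),
          f n' = ∑ j ∈ Finset.range (4 * J), ∑ n' ∈ Finset.Ico (A + j * W) (A + (j + 1) * W),
            (cs m (lfc l j) (θ' (j / 4)) n' - ci m n') := by
        refine Finset.sum_congr rfl fun j hj => Finset.sum_congr rfl fun n' hn' => ?_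
        rw [Finset.mem_range] at hj
        rw [Finset.mem_Ico] at hn'
        obtain ⟨h3, h4⟩ := hL j n' (by omega) hn'.1 hn'.2
        simp only [hf]
        rw [h3, h4]
      rw [h2]
      exact h1.trans (hup J hJn)
    have hSR : ∀ J, J ≤ N → J ≤ n → ‖∑ n' ∈ Finset.Ico (β (4 * J)) (β 0), f n'‖ ≤ X := by
      intro J hJ hJn
      rw [sum_winR f β hβ]
      have h1 := (hstp δ hδ m J).2
      have h2 : ∑ j ∈ Finset.range (4 * J), ∑ n' ∈ Finset.Ico (β (j + 1)) (β j), f n' =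
          ∑ j ∈ Finset.range (4 * J), ∑ n' ∈ Finset.Ico (β (j + 1)) (β j),
            (cs m (rtc l j) (θ' (j / 4)) n' - ci m n') := by
        refine Finset.sum_congr rfl fun j hj => Finset.sum_congr rfl fun n' hn' => ?_
        rw [Finset.mem_range] at hj
        rw [Finset.mem_Ico] at hn'
        obtain ⟨h3, h4⟩ := hR j n' (by omega) hn'.1 hn'.2
        simp only [hf]
        rw [h3, h4]
      rw [h2]
      exact h1.trans (hup J hJn)
    have hmain := main_sum hW hWB hβ hV hVB hAN hAN' f X hX0 hf5 n hSL hSR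
    have htot : ‖∑ n' ∈ Finset.Ico A n, f n'‖ ≤
        3 * X + 10 * B + 5 * (n : ℝ) ^ (1 / 2 + δ) := by
      rcases le_total n (β 0) with h2 | h2
      · have := hmain n hn h2 le_rfl
        linarith
      have h4 : β (4 * N) ≤ β 0 := hβ (Nat.zero_le _)
      have h3 : A ≤ β 0 := by omega
      rw [← Finset.sum_Ico_consecutive f h3 h2]
      have e1 := hmain (β 0) h3 le_rfl h2
      have e2 := sum_bd f 1 (β 0) n (n - β 0) (by norm_num) (fun k hk1 hk2 => by
        have h5 : c k = 0 := hG k (by omega) (Or.inr hk1)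
        have h6 := avg3 m (c k) k (θ k)
        rw [h5] at h6
        have h7 : f k = cs m (c k) (θ k) k - ci m k := rfl
        rw [h7, h5]
        have h8 := norm_sub_le (cs m 0 (θ k) k) (ci m k)
        have h9 := avg4 m k
        rw [Nat.cast_zero] at h6
        linarith) (by omega)
      have e3 : ((n - β 0 : ℕ) : ℝ) ≤ 5 * tt A := by
        rw [Nat.cast_sub h2]
        have : (n : ℝ) ≤ e := by exact_mod_cast hne
        linarith
      have e4 : tt A ≤ (n : ℝ) ^ (1 / 2 + δ) := by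
        have h5 : tt A ^ 2 ≤ (n : ℝ) := by
          have : (β (4 * N) : ℝ) ≤ n := by exact_mod_cast h4.trans h2
          linarith
        have h6 : tt A = (tt A ^ 2) ^ (1 / 2 : ℝ) := by
          rw [← Real.sqrt_eq_rpow, Real.sqrt_sq (by linarith)]
        calc tt A = (tt A ^ 2) ^ (1 / 2 : ℝ) := h6
          _ ≤ (n : ℝ) ^ (1 / 2 : ℝ) := Real.rpow_le_rpow (by positivity) h5 (by norm_num)
          _ ≤ (n : ℝ) ^ (1 / 2 + δ) := Real.rpow_le_rpow_of_exponent_le
              (by exact_mod_cast hA1.trans hn) (by linarith)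
      have e5 := norm_add_le (∑ n' ∈ Finset.Ico A (β 0), f n')
        (∑ n' ∈ Finset.Ico (β 0) n, f n')
      linarith
    refine htot.trans ?_
    set Lg : ℝ := Real.log (tt A) ^ 4 with hLg
    set P : ℝ := (n : ℝ) ^ (1 / 2 + δ) with hP
    have hH1 : 1 ≤ H + 1 := by linarith
    have a1 : 1 ≤ (H + 1) * Lg := one_le_mul_of_one_le_of_one_le hH1 hlog
    have a2 : 1 ≤ P * LL m := one_le_mul_of_one_le_of_one_le hn1 hLm
    have a3 : X ≤ CC₁ δ * C₂ * ((H + 1) * Lg) * (P * LL m) := by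
      rw [hX]
      have h1 : CC₁ δ * B ≤ CC₁ δ * (C₂ * (H + 1) * Lg) :=
        mul_le_mul_of_nonneg_left hB (hCC₁ δ)
      calc CC₁ δ * B * P * LL m = CC₁ δ * B * (P * LL m) := by ring
        _ ≤ CC₁ δ * (C₂ * (H + 1) * Lg) * (P * LL m) :=
            mul_le_mul_of_nonneg_right h1 (by linarith)
        _ = _ := by ring
    have a4 : (B : ℝ) ≤ C₂ * ((H + 1) * Lg) * (P * LL m) := by
      have h1 : 0 ≤ C₂ * ((H + 1) * Lg) := mul_nonneg hC₂ (by linarith)
      calc (B : ℝ) ≤ C₂ * (H + 1) * Lg := hB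
        _ = C₂ * ((H + 1) * Lg) * 1 := by ring
        _ ≤ _ := mul_le_mul_of_nonneg_left a2 h1
    have a5 : P ≤ ((H + 1) * Lg) * (P * LL m) := by
      have h1 : 0 ≤ P := by linarith
      calc P = 1 * (P * 1) := by ring
        _ ≤ ((H + 1) * Lg) * (P * LL m) :=
            mul_le_mul a1 (mul_le_mul_of_nonneg_left hLm h1) (by linarith) (by linarith)
    calc 3 * X + 10 * B + 5 * P ≤ 3 * (CC₁ δ * C₂ * ((H + 1) * Lg) * (P * LL m)) +
          10 * (C₂ * ((H + 1) * Lg) * (P * LL m)) + 5 * (((H + 1) * Lg) * (P * LL m)) := by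
          linarith
      _ = _ := by ring
  · -- the number of the points
    intro n hn hne
    set f : ℕ → ℂ := fun n' => (c n' : ℂ) - 1 with hf
    have hfr : ∀ k, f k = (((c k : ℝ) - 1 : ℝ) : ℂ) := by
      intro k
      simp only [hf]
      push_cast
      ring
    have hf5 : ∀ k, ‖f k‖ ≤ 5 := by
      intro k
      have h3 : (c k : ℝ) ≤ 4 := by exact_mod_cast hc4 k
      have h4 : (0 : ℝ) ≤ c k := Nat.cast_nonneg _
      rw [hfr, Complex.norm_real, Real.norm_eq_abs, abs_le]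
      constructor <;> linarith
    have hsum : ∀ n, |∑ n' ∈ Finset.Ico A n, ((c n' : ℝ) - 1)| = ‖∑ n' ∈ Finset.Ico A n, f n'‖ := by
      intro n
      simp only [hfr]
      rw [← Complex.ofReal_sum, Complex.norm_real, Real.norm_eq_abs]
    have hSL : ∀ J, J ≤ N → J ≤ n → ‖∑ n' ∈ Finset.Ico A (A + 4 * J * W), f n'‖ ≤ 0 := by
      intro J hJ hJn
      rw [sum_win]
      have h2 : ∑ j ∈ Finset.range (4 * J), ∑ n' ∈ Finset.Ico (A + j * W) (A + (j + 1) * W),
          f n' = ∑ j ∈ Finset.range (4 * J), (W : ℂ) * ((lfc l j : ℂ) - 1) := by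
        refine Finset.sum_congr rfl fun j hj => ?_
        rw [Finset.mem_range] at hj
        have h3 : ∀ n' ∈ Finset.Ico (A + j * W) (A + (j + 1) * W), f n' = (lfc l j : ℂ) - 1 := by
          intro n' hn'
          rw [Finset.mem_Ico] at hn'
          simp only [hf]
          rw [(hL j n' (by omega) hn'.1 hn'.2).1]
        rw [Finset.sum_congr rfl h3, Finset.sum_const, Nat.card_Ico, nsmul_eq_mul]
        congr 2
        have : (j + 1) * W = j * W + W := by ring
        omega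
      rw [h2, blkL l hl4, norm_zero]
    have hSR : ∀ J, J ≤ N → J ≤ n → ‖∑ n' ∈ Finset.Ico (β (4 * J)) (β 0), f n'‖ ≤ 0 := by
      intro J hJ hJn
      rw [sum_winR f β hβ]
      have h2 : ∑ j ∈ Finset.range (4 * J), ∑ n' ∈ Finset.Ico (β (j + 1)) (β j), f n' =
          ∑ j ∈ Finset.range (4 * J), (V (j / 4) : ℂ) * ((rtc l j : ℂ) - 1) := by
        refine Finset.sum_congr rfl fun j hj => ?_
        rw [Finset.mem_range] at hj
        have h3 : ∀ n' ∈ Finset.Ico (β (j + 1)) (β j), f n' = (rtc l j : ℂ) - 1 := by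
          intro n' hn'
          rw [Finset.mem_Ico] at hn'
          simp only [hf]
          rw [(hR j n' (by omega) hn'.1 hn'.2).1]
        rw [Finset.sum_congr rfl h3, Finset.sum_const, Nat.card_Ico, nsmul_eq_mul]
        congr 2
        have h4 := hV (j / 4) (j % 4) (Nat.mod_lt _ (by norm_num))
        have h5 : 4 * (j / 4) + j % 4 = j := Nat.div_add_mod j 4
        rw [h5] at h4
        omega
      rw [h2, blkR l hl4, norm_zero]
    have hmain := main_sum hW hWB hβ hV hVB hAN hAN' f 0 le_rfl hf5 n hSL hSR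
    have hBb : 10 * (B : ℝ) ≤ 10 * C₂ * (H + 1) * Real.log (tt A) ^ 4 := by
      linarith
    rw [hsum]
    rcases le_or_gt n (β 0) with h2 | h2
    · have h3 := hmain n hn h2 le_rfl
      have h4 : (0 : ℝ) ≤ if tt A ^ (M - 1) ≤ n then 5 * tt A else 0 := by
        split_ifs
        · linarith
        · exact le_rfl
      linarith
    · have h4 : β (4 * N) ≤ β 0 := hβ (Nat.zero_le _)
      have h3 : A ≤ β 0 := by omega
      rw [← Finset.sum_Ico_consecutive f h3 h2.le]
      have e1 := hmain (β 0) h3 le_rfl h2.le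
      have e2 := sum_bd f 1 (β 0) n (n - β 0) (by norm_num) (fun k hk1 hk2 => by
        have h5 : c k = 0 := hG k (by omega) (Or.inr hk1)
        rw [hfr, h5]
        simp) (by omega)
      have e3 : ((n - β 0 : ℕ) : ℝ) ≤ 5 * tt A := by
        rw [Nat.cast_sub h2.le]
        have : (n : ℝ) ≤ e := by exact_mod_cast hne
        linarith
      have h5 : tt A ^ (M - 1) ≤ (n : ℝ) := by
        have : ((β 0 : ℕ) : ℝ) ≤ n := by exact_mod_cast h2.le
        linarith
      rw [if_pos h5]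
      have e5 := norm_add_le (∑ n' ∈ Finset.Ico A (β 0), f n')
        (∑ n' ∈ Finset.Ico (β 0) n, f n')
      linarith

end

end Pool.Agent.H68.GC
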