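import Pool.Agent.H68.GC.Stm
import Pool.Agent.H68.GB.Stp

set_option autoImplicit false

/-!
# The random choice in one scale (blocks of four windows)
-/

namespace Pool.Agent.H68.GC

open MeasureTheory Filter Topology Set
open Pool.Agent.H49.BZ (Dens)
open Pool.Agent.H68.GB (LL)
open Pool.Agent.H68.GB.Stp (mu0 sg th meas_comp mean part part_abs part_meas part_sum part_integral
  norm_le_parts summ LL_ge intg bd_intg)

namespace Stp

noncomputable section

theorem meas_comp2 {f : Bool → Bool → ℝ → ℂ} (hf : ∀ c d, Measurable (f c d)) :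
    Measurable fun x => f (sg x) (sg (th x)) (th (th x)) :=
  meas_comp (f := fun c y => f c (sg y) (th y)) fun c => meas_comp (hf c)

theorem mean2 {f : Bool → Bool → ℝ → ℂ} (hf : ∀ c d, Measurable (f c d)) {K : ℝ}
    (hK : ∀ c d x, ‖f c d x‖ ≤ K) : ∫ x, f (sg x) (sg (th x)) (th (th x)) ∂mu0 =
      (1 / 4 : ℂ) * ((∫ θ in (0 : ℝ)..1, f true true θ) + (∫ θ in (0 : ℝ)..1, f true false θ) +
        ((∫ θ in (0 : ℝ)..1, f false true θ) + ∫ θ in (0 : ℝ)..1, f false false θ)) := by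
  have h0 : ∀ c, ∫ y in (0 : ℝ)..1, f c (sg y) (th y) =
      (1 / 2 : ℂ) * ((∫ θ in (0 : ℝ)..1, f c true θ) + ∫ θ in (0 : ℝ)..1, f c false θ) := by
    intro c
    rw [← mean (hf c) (hK c), intervalIntegral.integral_of_le zero_le_one]
    rfl
  have h1 := mean (f := fun c y => f c (sg y) (th y)) (fun c => meas_comp (hf c))
    (fun c y => hK c (sg y) (th y))
  refine h1.trans ?_
  rw [h0, h0]
  ring

/-- the number of the left window -/
def lz (p c d : Bool) : ℕ := if c then (if p then 0 else 3) else (if d then 1 else 2)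

/-- the test -/
def fl (g : ℕ → ℝ → ℂ) (S D D' : ℂ) (B : ℝ) (p c d : Bool) (θ : ℝ) : ℂ :=
  (g (lz p c d) θ - S - (if p then D else -D) + (if c then D' else -D')) / (8 * B)

theorem norm_den {B : ℝ} (hB : 0 < B) : ‖(8 * B : ℂ)‖ = 8 * B := by
  rw [norm_mul, Complex.norm_real, Real.norm_of_nonneg hB.le]
  norm_num

theorem fl_norm {g : ℕ → ℝ → ℂ} {S D D' : ℂ} {B : ℝ} (hB : 0 < B) (hg : ∀ l θ, ‖g l θ‖ ≤ 4 * B)
    (hS : ‖S‖ ≤ B) (hD : ‖D‖ ≤ B) (hD' : ‖D'‖ ≤ B) (p c d : Bool) (θ : ℝ) :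
    ‖fl g S D D' B p c d θ‖ ≤ 1 := by
  unfold fl
  rw [norm_div, norm_den hB, div_le_one (by positivity)]
  have h1 := hg (lz p c d) θ
  have h2 : ‖(if p then D else -D : ℂ)‖ ≤ B := by
    split_ifs
    · exact hD
    · rw [norm_neg]; exact hD
  have h3 : ‖(if c then D' else -D' : ℂ)‖ ≤ B := by
    split_ifs
    · exact hD'
    · rw [norm_neg]; exact hD'
  refine (norm_add_le _ _).trans ((add_le_add ((norm_sub_le _ _).trans
    (add_le_add (norm_sub_le _ _) le_rfl)) le_rfl).trans ?_)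
  linarith

theorem fl_meas {g : ℕ → ℝ → ℂ} (hg : ∀ l, Measurable (g l)) (S D D' : ℂ) (B : ℝ) (p c d : Bool) :
    Measurable (fl g S D D' B p c d) := by
  unfold fl
  exact (((((hg _).sub_const _).sub_const _)).add_const _).div_const _

theorem fl_mean {g : ℕ → ℝ → ℂ} (hgm : ∀ l, Measurable (g l)) {S D D' : ℂ} {B : ℝ} (hB : 0 < B)
    (hg : ∀ l θ, ‖g l θ‖ ≤ 4 * B) (hS : ‖S‖ ≤ B) (hD : ‖D‖ ≤ B) (hD' : ‖D'‖ ≤ B) {M : ℕ → ℂ}
    (hint : ∀ l, ∫ θ in (0 : ℝ)..1, g l θ = M l) (h1 : 2 * M 0 + M 1 + M 2 = 4 * S + 4 * D)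
    (h2 : 2 * M 3 + M 1 + M 2 = 4 * S - 4 * D) (p : Bool) :
    ∫ x, fl g S D D' B p (sg x) (sg (th x)) (th (th x)) ∂mu0 = 0 := by
  rw [mean2 (fun c d => fl_meas hgm S D D' B p c d) (fl_norm hB hg hS hD hD' p)]
  have h3 : ∀ c d, ∫ θ in (0 : ℝ)..1, fl g S D D' B p c d θ =
      (M (lz p c d) - S - (if p then D else -D) + (if c then D' else -D')) / (8 * B) := by
    intro c d
    have hgi := intg (hgm (lz p c d)) (hg (lz p c d)) 0 1
    unfold fl
    rw [intervalIntegral.integral_div, intervalIntegral.integral_add _ intervalIntegrable_const,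
      intervalIntegral.integral_sub _ intervalIntegrable_const,
      intervalIntegral.integral_sub hgi intervalIntegrable_const, hint]
    · simp
    · exact hgi.sub intervalIntegrable_const
    · exact (hgi.sub intervalIntegrable_const).sub intervalIntegrable_const
  rw [h3, h3, h3, h3, ← add_div, ← add_div, ← add_div]
  cases p
  · have h4 : M (lz false true true) - S - (if false = true then D else -D) + (if true = true then D' else -D') +
        (M (lz false true false) - S - (if false = true then D else -D) + (if true = true then D' else -D')) +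
        (M (lz false false true) - S - (if false = true then D else -D) + (if false = true then D' else -D') +
        (M (lz false false false) - S - (if false = true then D else -D) + (if false = true then D' else -D')))
        = 0 := by
      simp only [lz, Bool.false_eq_true, if_true, if_false]
      linear_combination h2
    rw [h4]
    simp
  · have h4 : M (lz true true true) - S - (if true = true then D else -D) + (if true = true then D' else -D') +
        (M (lz true true false) - S - (if true = true then D else -D) + (if true = true then D' else -D')) +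
        (M (lz true false true) - S - (if true = true then D else -D) + (if false = true then D' else -D') +
        (M (lz true false false) - S - (if true = true then D else -D) + (if false = true then D' else -D')))
        = 0 := by
      simp only [lz, Bool.false_eq_true, if_true, if_false]
      linear_combination h1
    rw [h4]
    simp

theorem good {x : ℝ} (hx : x ∈ {x : ℝ | x ∈ Ioo (0 : ℝ) 1 ∧ x ≠ 1 / 2 ∧ x ≠ 1 / 4 ∧ x ≠ 3 / 4}) :
    0 ≤ th (th x) ∧ th (th x) < 1 := by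
  obtain ⟨⟨h0, h1⟩, h2, h3, h4⟩ := hx
  refine Pool.Agent.H68.GB.Stp.good ⟨?_, ?_⟩
  · unfold th
    by_cases h : x ≤ 1 / 2
    · rw [if_pos h]
      have h5 : x < 1 / 2 := lt_of_le_of_ne h h2
      constructor <;> linarith
    · rw [if_neg h]
      push Not at h
      constructor <;> linarith
  · unfold th
    by_cases h : x ≤ 1 / 2
    · rw [if_pos h]
      intro h6
      apply h3
      linarith
    · rw [if_neg h]
      intro h6
      apply h4
      linarith

theorem mu0_compl :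
    mu0 {x : ℝ | x ∈ Ioo (0 : ℝ) 1 ∧ x ≠ 1 / 2 ∧ x ≠ 1 / 4 ∧ x ≠ 3 / 4}ᶜ = 0 := by
  have hms : MeasurableSet {x : ℝ | x ∈ Ioo (0 : ℝ) 1 ∧ x ≠ 1 / 2 ∧ x ≠ 1 / 4 ∧ x ≠ 3 / 4} :=
    measurableSet_Ioo.inter ((measurableSet_singleton (1 / 2 : ℝ)).compl.inter
      ((measurableSet_singleton (1 / 4 : ℝ)).compl.inter (measurableSet_singleton (3 / 4 : ℝ)).compl))
  rw [mu0, Measure.restrict_apply hms.compl]
  refine measure_mono_null (t := {1 / 2, 1 / 4, 3 / 4, 1}) ?_ ((Set.toFinite _).measure_zero _)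
  rintro x ⟨h1, h2⟩
  by_contra hcon
  rw [mem_insert_iff, mem_insert_iff, mem_insert_iff, mem_singleton_iff, not_or, not_or, not_or] at hcon
  exact h1 ⟨⟨h2.1, lt_of_le_of_ne h2.2 hcon.2.2.2⟩, hcon.1, hcon.2.1, hcon.2.2.1⟩

/-- the number of points per cell -/
def cnt (e : Bool) (l i : ℕ) : ℕ :=
  if e then (if i = l then 4 else 0) else (if i = (l + 1) % 4 ∨ i = (l + 2) % 4 then 2 else 0)

theorem cnt_le (e : Bool) (l i : ℕ) : cnt e l i ≤ 4 := by
  unfold cnt
  split_ifs <;> omega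

/-- the cells of a window -/
def XX (A W : ℕ) (β : ℕ → ℕ) (e : Bool) (k : ℕ) : Finset ℕ :=
  if e then Finset.Ico (A + k * W) (A + (k + 1) * W) else Finset.Ico (β (k + 1)) (β k)

variable [Dens]

/-- the sum of a block -/
def GG (X : ℕ → Finset ℕ) (e : Bool) (m : ℤ) (j l : ℕ) (θ : ℝ) : ℂ :=
  ∑ i ∈ Finset.range 4, ∑ n ∈ X (4 * j + i), cs m (cnt e l i) θ n

def II (X : ℕ → Finset ℕ) (m : ℤ) (k : ℕ) : ℂ := ∑ n ∈ X k, ci m n

def SS (X : ℕ → Finset ℕ) (m : ℤ) (j : ℕ) : ℂ := ∑ i ∈ Finset.range 4, II X m (4 * j + i)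

def DD (X : ℕ → Finset ℕ) (e : Bool) (m : ℤ) (j : ℕ) : ℂ :=
  if e then II X m (4 * j) - II X m (4 * j + 3) else (II X m (4 * j + 2) - II X m (4 * j)) / 2

theorem cs_zero (m : ℤ) (θ : ℝ) (n : ℕ) : cs m 0 θ n = 0 := by
  simp [cs]

section sums

variable (avg : S_AVG)

include avg

theorem GG_meas (X : ℕ → Finset ℕ) (e : Bool) (m : ℤ) (j l : ℕ) : Measurable (GG X e m j l) := by
  unfold GG
  exact Finset.measurable_sum _ fun i _ => Finset.measurable_sum _ fun n _ => avg.1 m _ n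

theorem GG_norm {X : ℕ → Finset ℕ} {B : ℕ} (hX : ∀ k, 4 * (X k).card ≤ B) (e : Bool) (m : ℤ) (j l : ℕ)
    (θ : ℝ) : ‖GG X e m j l θ‖ ≤ 4 * (B : ℝ) := by
  unfold GG
  have h1 : ∀ i ∈ Finset.range 4, ‖∑ n ∈ X (4 * j + i), cs m (cnt e l i) θ n‖ ≤ (B : ℝ) := by
    intro i _
    refine (norm_sum_le_of_le _ fun n _ => avg.2.2.1 m _ n θ).trans ?_
    rw [Finset.sum_const, nsmul_eq_mul]
    have h2 : ((X (4 * j + i)).card * cnt e l i : ℕ) ≤ B := by
      refine le_trans ?_ (hX (4 * j + i))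
      rw [Nat.mul_comm 4 (X (4 * j + i)).card]
      exact Nat.mul_le_mul_left _ (cnt_le e l i)
    exact_mod_cast h2
  refine (norm_sum_le_of_le _ h1).trans ?_
  rw [Finset.sum_const, Finset.card_range, nsmul_eq_mul]
  norm_num

theorem II_norm {X : ℕ → Finset ℕ} {B : ℕ} (hX : ∀ k, 4 * (X k).card ≤ B) (m : ℤ) (k : ℕ) :
    ‖II X m k‖ ≤ (B : ℝ) / 4 := by
  unfold II
  refine (norm_sum_le_of_le _ fun n _ => avg.2.2.2 m n).trans ?_
  rw [Finset.sum_const, nsmul_eq_mul, mul_one]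
  have h1 : (4 : ℝ) * ((X k).card : ℝ) ≤ B := by exact_mod_cast hX k
  linarith

theorem SS_norm {X : ℕ → Finset ℕ} {B : ℕ} (hX : ∀ k, 4 * (X k).card ≤ B) (m : ℤ) (j : ℕ) :
    ‖SS X m j‖ ≤ (B : ℝ) := by
  unfold SS
  refine (norm_sum_le_of_le _ fun i _ => II_norm avg hX m (4 * j + i)).trans ?_
  rw [Finset.sum_const, Finset.card_range, nsmul_eq_mul]
  push_cast
  linarith

theorem DD_norm {X : ℕ → Finset ℕ} {B : ℕ} (hX : ∀ k, 4 * (X k).card ≤ B) (e : Bool) (m : ℤ) (j : ℕ) :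
    ‖DD X e m j‖ ≤ (B : ℝ) := by
  have hB : (0 : ℝ) ≤ B := Nat.cast_nonneg B
  unfold DD
  split_ifs
  · refine (norm_sub_le _ _).trans ?_
    have h1 := II_norm avg hX m (4 * j)
    have h2 := II_norm avg hX m (4 * j + 3)
    linarith
  · rw [norm_div]
    have h1 := II_norm avg hX m (4 * j)
    have h2 := II_norm avg hX m (4 * j + 2)
    have h3 := norm_sub_le (II X m (4 * j + 2)) (II X m (4 * j))
    have h4 : ‖(2 : ℂ)‖ = 2 := by norm_num
    rw [h4]
    linarith

theorem GG_int {X : ℕ → Finset ℕ} (hX1 : ∀ k, ∀ n ∈ X k, 1 ≤ n) (e : Bool) (m : ℤ) (j l : ℕ) :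
    ∫ θ in (0 : ℝ)..1, GG X e m j l θ =
      ∑ i ∈ Finset.range 4, (cnt e l i : ℂ) * II X m (4 * j + i) := by
  unfold GG II
  have hi : ∀ i n, IntervalIntegrable (fun θ => cs m (cnt e l i) θ n) volume 0 1 := fun i n =>
    intg (avg.1 m _ n) (fun θ => avg.2.2.1 m _ n θ) 0 1
  have hi2 : ∀ i, IntervalIntegrable (fun θ => ∑ n ∈ X (4 * j + i), cs m (cnt e l i) θ n) volume 0 1 := by
    intro i
    have h1 := IntervalIntegrable.sum (X (4 * j + i)) (f := fun n θ => cs m (cnt e l i) θ n)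
      (fun n _ => hi i n)
    have h2 : (∑ n ∈ X (4 * j + i), fun θ => cs m (cnt e l i) θ n) =
        fun θ => ∑ n ∈ X (4 * j + i), cs m (cnt e l i) θ n := by
      funext θ
      rw [Finset.sum_apply]
    rw [h2] at h1
    exact h1
  rw [intervalIntegral.integral_finsetSum fun i _ => hi2 i]
  refine Finset.sum_congr rfl fun i _ => ?_
  rw [intervalIntegral.integral_finsetSum fun n _ => hi i n, Finset.mul_sum]
  refine Finset.sum_congr rfl fun n hn => ?_
  rcases Nat.eq_zero_or_pos (cnt e l i) with h | h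
  · rw [h]
    simp [cs_zero]
  · exact avg.2.1 m _ n h (hX1 _ n hn)

end sums

theorem mean_one (X : ℕ → Finset ℕ) (e : Bool) (m : ℤ) (j : ℕ) :
    2 * (∑ i ∈ Finset.range 4, (cnt e 0 i : ℂ) * II X m (4 * j + i)) +
      (∑ i ∈ Finset.range 4, (cnt e 1 i : ℂ) * II X m (4 * j + i)) +
      (∑ i ∈ Finset.range 4, (cnt e 2 i : ℂ) * II X m (4 * j + i)) =
      4 * SS X m j + 4 * DD X e m j := by
  unfold SS DD
  cases e
  · simp [Finset.sum_range_succ, cnt]
    ring
  · simp [Finset.sum_range_succ, cnt]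
    ring

theorem mean_two (X : ℕ → Finset ℕ) (e : Bool) (m : ℤ) (j : ℕ) :
    2 * (∑ i ∈ Finset.range 4, (cnt e 3 i : ℂ) * II X m (4 * j + i)) +
      (∑ i ∈ Finset.range 4, (cnt e 1 i : ℂ) * II X m (4 * j + i)) +
      (∑ i ∈ Finset.range 4, (cnt e 2 i : ℂ) * II X m (4 * j + i)) =
      4 * SS X m j - 4 * DD X e m j := by
  unfold SS DD
  cases e
  · simp [Finset.sum_range_succ, cnt]
    ring
  · simp [Finset.sum_range_succ, cnt]
    ring

omit [Dens] in
theorem sum4 {M : Type*} [AddCommMonoid M] (f : ℕ → M) (J : ℕ) :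
    ∑ k ∈ Finset.range (4 * J), f k = ∑ j ∈ Finset.range J, ∑ i ∈ Finset.range 4, f (4 * j + i) := by
  induction J with
  | zero => simp
  | succ J ih =>
    rw [Finset.sum_range_succ (fun j => ∑ i ∈ Finset.range 4, f (4 * j + i)) J, mul_add, mul_one,
      Finset.sum_range_add, ih]

end

end Stp

open Stp in
theorem t_STP [Dens] (_inv : S_INV) (avg : S_AVG) : S_STP := by
  obtain ⟨CC, hCC, hD⟩ := Pool.Agent.H68.GB.t_DRH ℝ (ℤ × Bool × Bool) mu0
    {x : ℝ | x ∈ Ioo (0 : ℝ) 1 ∧ x ≠ 1 / 2 ∧ x ≠ 1 / 4 ∧ x ≠ 3 / 4} (fun k => |(k.1 : ℝ)|) Stp.mu0_compl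
    (fun k => abs_nonneg _) summ
  refine ⟨fun δ => 16 * CC δ + 2, fun δ => by have := hCC δ; linarith, ?_⟩
  intro A W B β V hA hW hWB hV hb1 hVB
  have hB : (0 : ℝ) < B := by
    have : 0 < B := by omega
    exact_mod_cast this
  have hX : ∀ e k, 4 * (XX A W β e k).card ≤ B := by
    intro e k
    cases e
    · show 4 * (Finset.Ico (β (k + 1)) (β k)).card ≤ B
      rw [Nat.card_Ico]
      have h1 := hV (k / 4) (k % 4) (Nat.mod_lt _ (by norm_num))
      rw [Nat.div_add_mod] at h1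
      have h2 := hVB (k / 4)
      omega
    · show 4 * (Finset.Ico (A + k * W) (A + (k + 1) * W)).card ≤ B
      rw [Nat.card_Ico]
      have h1 : A + (k + 1) * W - (A + k * W) = W := by
        rw [add_mul, one_mul]
        omega
      rw [h1]
      exact hWB
  have hX1 : ∀ e k, ∀ n ∈ XX A W β e k, 1 ≤ n := by
    intro e k n hn
    cases e
    · have h1 : n ∈ Finset.Ico (β (k + 1)) (β k) := hn
      exact (hb1 (k + 1)).trans (Finset.mem_Ico.1 h1).1
    · have h1 : n ∈ Finset.Ico (A + k * W) (A + (k + 1) * W) := hn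
      have h2 := (Finset.mem_Ico.1 h1).1
      omega
  -- the tests
  let Z : ℕ → ℤ → Bool → ℝ → ℝ → ℂ := fun j m e y x =>
    fl (GG (XX A W β e) e m j) (SS (XX A W β e) m j) (DD (XX A W β e) e m j) (DD (XX A W β e) e m (j + 1)) B
      (sg y) (sg x) (sg (th x)) (th (th x))
  have hZm : ∀ j m e y, Measurable (Z j m e y) := fun j m e y =>
    meas_comp2 fun c d => fl_meas (fun l => GG_meas avg _ e m j l) _ _ _ _ _ _ _
  have hZn : ∀ j m e y x, ‖Z j m e y x‖ ≤ 1 := fun j m e y x =>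
    fl_norm hB (fun l θ => GG_norm avg (hX e) e m j l θ) (SS_norm avg (hX e) m j)
      (DD_norm avg (hX e) e m j) (DD_norm avg (hX e) e m (j + 1)) _ _ _ _
  have hZ0 : ∀ j m e y, ∫ x, Z j m e y x ∂mu0 = 0 := fun j m e y =>
    fl_mean (fun l => GG_meas avg _ e m j l) hB (fun l θ => GG_norm avg (hX e) e m j l θ)
      (SS_norm avg (hX e) m j) (DD_norm avg (hX e) e m j) (DD_norm avg (hX e) e m (j + 1))
      (fun l => GG_int avg (hX1 e) e m j l) (mean_one _ e m j) (mean_two _ e m j) _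
  obtain ⟨ω, hω, hωs⟩ := hD (fun j k y x => part k.2.1 (Z j k.1 k.2.2 y x))
    (fun j k y => part_meas _ (hZm j k.1 k.2.2 y))
    (fun j k y x => (part_abs _ _).trans (hZn j k.1 k.2.2 y x))
    (fun j k y => part_integral _ (bd_intg (hZm _ _ _ _) (hZn _ _ _ _)) (hZ0 _ _ _ _))
  have hsum : ∀ δ : ℝ, 0 < δ → ∀ (m : ℤ) (e : Bool) (J : ℕ),
      ‖∑ j ∈ Finset.range J, Z j m e (ω j) (ω (j + 1))‖ ≤
        2 * (CC δ * (J : ℝ) ^ (1 / 2 + δ) * LL m) := by
    intro δ hδ m e J
    apply norm_le_parts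
    intro c
    rw [part_sum]
    exact hωs δ hδ (m, c, e) J
  obtain ⟨l, hl⟩ : ∃ l : ℕ → ℕ, l = fun j => lz (sg (ω j)) (sg (ω (j + 1))) (sg (th (ω (j + 1)))) := ⟨_, rfl⟩
  obtain ⟨θ, hθ⟩ : ∃ θ : ℕ → ℝ, θ = fun j => th (th (ω (j + 1))) := ⟨_, rfl⟩
  -- the bound for both families
  have main : ∀ δ : ℝ, 0 < δ → ∀ (m : ℤ) (e : Bool) (J : ℕ),
      ‖∑ j ∈ Finset.range J, (GG (XX A W β e) e m j (l j) (θ j) - SS (XX A W β e) m j)‖ ≤
        (16 * CC δ + 2) * B * (J : ℝ) ^ (1 / 2 + δ) * LL m := by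
    intro δ hδ m e J
    rcases Nat.eq_zero_or_pos J with hJ | hJ
    · subst hJ
      have h1 := hCC δ
      have h2 := LL_ge m
      rw [Finset.sum_range_zero, norm_zero]
      positivity
    have hY : ∀ j, GG (XX A W β e) e m j (l j) (θ j) - SS (XX A W β e) m j =
        (8 * B : ℂ) * Z j m e (ω j) (ω (j + 1)) +
          ((if sg (ω j) then DD (XX A W β e) e m j else -DD (XX A W β e) e m j) -
            (if sg (ω (j + 1)) then DD (XX A W β e) e m (j + 1) else -DD (XX A W β e) e m (j + 1))) := by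
      intro j
      show _ = (8 * B : ℂ) * fl (GG (XX A W β e) e m j) (SS (XX A W β e) m j) (DD (XX A W β e) e m j)
        (DD (XX A W β e) e m (j + 1)) B (sg (ω j)) (sg (ω (j + 1))) (sg (th (ω (j + 1))))
        (th (th (ω (j + 1)))) + _
      have hB0 : (8 * B : ℂ) ≠ 0 := by
        have : (B : ℂ) ≠ 0 := by exact_mod_cast hB.ne'
        exact mul_ne_zero (by norm_num) this
      unfold fl
      push_cast
      rw [mul_div_cancel₀ _ hB0, hl, hθ]
      ring
    rw [Finset.sum_congr rfl fun j _ => hY j, Finset.sum_add_distrib, ← Finset.mul_sum,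
      Finset.sum_range_sub' (fun j => if sg (ω j) then DD (XX A W β e) e m j else -DD (XX A W β e) e m j)]
    have hI : ∀ j, ‖(if sg (ω j) then DD (XX A W β e) e m j else -DD (XX A W β e) e m j : ℂ)‖ ≤ (B : ℝ) := by
      intro j
      split_ifs
      · exact DD_norm avg (hX e) e m j
      · rw [norm_neg]
        exact DD_norm avg (hX e) e m j
    refine (norm_add_le _ _).trans ((add_le_add le_rfl (norm_sub_le _ _)).trans ?_)
    rw [norm_mul]
    have hn9 : ‖(8 * B : ℂ)‖ = 8 * (B : ℝ) := by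
      have := norm_den hB
      push_cast at this ⊢
      exact this
    rw [hn9]
    have h1 := hsum δ hδ m e J
    have h2 : 8 * (B : ℝ) * ‖∑ j ∈ Finset.range J, Z j m e (ω j) (ω (j + 1))‖ ≤
        8 * B * (2 * (CC δ * (J : ℝ) ^ (1 / 2 + δ) * LL m)) :=
      mul_le_mul_of_nonneg_left h1 (by positivity)
    have h3 : (1 : ℝ) ≤ (J : ℝ) ^ (1 / 2 + δ) :=
      Real.one_le_rpow (by exact_mod_cast hJ) (by linarith)
    have h4 := LL_ge m
    have h5 : (1 : ℝ) ≤ (J : ℝ) ^ (1 / 2 + δ) * LL m := by nlinarith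
    have h6 : (B : ℝ) + B ≤ 2 * B * ((J : ℝ) ^ (1 / 2 + δ) * LL m) := by nlinarith
    calc _ ≤ 8 * B * (2 * (CC δ * (J : ℝ) ^ (1 / 2 + δ) * LL m)) + (B + B) :=
          add_le_add h2 (add_le_add (hI 0) (hI J))
      _ ≤ 8 * B * (2 * (CC δ * (J : ℝ) ^ (1 / 2 + δ) * LL m)) +
          2 * B * ((J : ℝ) ^ (1 / 2 + δ) * LL m) := by linarith
      _ = (16 * CC δ + 2) * B * (J : ℝ) ^ (1 / 2 + δ) * LL m := by ring
  have hdm : ∀ j i, i < 4 → (4 * j + i) / 4 = j ∧ (4 * j + i) % 4 = i := by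
    intro j i hi
    constructor <;> omega
  refine ⟨l, θ, ?_, ?_, ?_, fun δ hδ m J => ⟨?_, ?_⟩⟩
  · intro j
    rw [hl]
    show lz _ _ _ < 4
    unfold lz
    split_ifs <;> norm_num
  · intro j h
    rw [hl] at h ⊢
    have h1 : lz (sg (ω (j + 1))) (sg (ω (j + 1 + 1))) (sg (th (ω (j + 1 + 1)))) = 0 := h
    show lz (sg (ω j)) (sg (ω (j + 1))) (sg (th (ω (j + 1)))) = 0 ∨
      lz (sg (ω j)) (sg (ω (j + 1))) (sg (th (ω (j + 1)))) = 3
    unfold lz at h1 ⊢
    revert h1
    cases sg (ω (j + 1)) <;> cases sg (ω (j + 1 + 1)) <;> cases sg (th (ω (j + 1 + 1))) <;>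
      cases sg (ω j) <;> simp
  · intro j
    rw [hθ]
    exact Stp.good (hω (j + 1))
  · have h1 := main δ hδ m true J
    refine le_trans (le_of_eq ?_) h1
    rw [sum4]
    congr 1
    refine Finset.sum_congr rfl fun j _ => ?_
    unfold GG SS
    rw [← Finset.sum_sub_distrib]
    refine Finset.sum_congr rfl fun i hi => ?_
    obtain ⟨e1, e2⟩ := hdm j i (Finset.mem_range.1 hi)
    unfold lfc II
    rw [e1, e2, Finset.sum_sub_distrib]
    rfl
  · have h1 := main δ hδ m false J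
    refine le_trans (le_of_eq ?_) h1
    rw [sum4]
    congr 1
    refine Finset.sum_congr rfl fun j _ => ?_
    unfold GG SS
    rw [← Finset.sum_sub_distrib]
    refine Finset.sum_congr rfl fun i hi => ?_
    obtain ⟨e1, e2⟩ := hdm j i (Finset.mem_range.1 hi)
    unfold rtc II
    rw [e1, e2, Finset.sum_sub_distrib]
    rfl

end Pool.Agent.H68.GC
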