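import Pool.Agent.H68.GC.Fin
import Pool.Agent.H68.GC.Geo
import Pool.Agent.H68.GC.Inv
import Pool.Agent.H68.GC.Avg
import Pool.Agent.H68.GC.Stp
import Pool.Agent.H68.GC.Scl
import Pool.Agent.H68.GC.Glu
import Pool.Agent.H53.GC.Enu

set_option autoImplicit false

/-! Project GC (helper68): assembly. -/

namespace Pool.Agent.H68.GC

open Pool.Agent.H49.BZ

theorem glue [Dens] (loc : Loc) : S_GLU :=
  t_GLU t_INV (t_AVG t_INV) (t_SCL t_INV (t_AVG t_INV) (t_STP t_INV (t_AVG t_INV)) t_GEO loc)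

theorem enum [Dens] : S_ENU := t_ENU53 t_INV (t_AVG t_INV)

/-- the systems of the theorem -/
theorem system {γ : ℕ → ℝ} (h0 : ∀ k, 0 < γ k) (hm : Monotone γ) (hW : Windows γ) {h : ℝ → ℝ}
    (hh : ∀ ε : ℝ, 0 < ε → ∃ C : ℝ, ∀ x : ℝ, 1 ≤ x → h x ≤ C * x ^ ε) :
    ∃ (q : ℕ → ℝ) (Z : ℂ → ℂ), RHSystem q Z ∧ HasZeros Z γ ∧ ExplicitFormula q γ ∧
      ∀ Y : ℝ, ∃ y : ℝ, Y ≤ y ∧ ∀ i j : ℕ, q i + q j < y ∨ y + h y < q i + q j :=
  main (fun {_} loc => glue loc) (fun {_} => enum) h0 hm hW hh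

end Pool.Agent.H68.GC
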