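import Pool.Agent.H68.GC.Stm
import Pool.Agent.H68.GB.Enu

set_option autoImplicit false

/-!
# The enumeration of the points of a system of cells (general density)
-/

namespace Pool.Agent.H68.GC

open MeasureTheory Filter Topology Set
open Pool.Agent.H49.BZ hiding LL
open Pool.Agent.H49.BP (pc em em_norm em_meas AA lt_pc)
open Pool.Agent.H68.GB (LL)
open Pool.Agent.H68.GB.Enu (M M_zero M_succ M_mono M_le M_ex M_uniq M_unbdd em_zero ar ar_ge ar_lt ar_lt_ar sum_diff)

namespace Enu

noncomputable section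

variable [Dens]

theorem ci_sum (m : ℤ) (n : ℕ) : ∑ k ∈ Finset.range n, ci m k = BB m (tt n) := by
  unfold BB
  have h1 := intervalIntegral.sum_integral_adjacent_intervals (a := fun j => tt j) (n := n) (μ := volume)
    (f := fun u => em m u * (md u : ℂ)) (fun k _ => mdg_int (em_meas m) (fun u => (em_norm m u).le)
      (tt_one_le _) (tt_one_le _))
  simp only [tt_zero] at h1
  rw [← h1]
  rfl

theorem ci_zero (n : ℕ) : ci 0 n = 1 := by
  unfold ci
  have h1 : (fun u => em 0 u * (md u : ℂ)) = fun u => ((md u : ℝ) : ℂ) := by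
    funext u
    rw [em_zero, one_mul]
  rw [h1, intervalIntegral.integral_ofReal, ← MM_sub (tt_one_le _) (tt_one_le _), MM_tt, MM_tt]
  push_cast
  ring

theorem cs_zero (c : ℕ) (θ : ℝ) (n : ℕ) : cs 0 c θ n = c := by
  unfold cs
  rw [Finset.sum_congr rfl (fun i _ => em_zero _)]
  simp

end

end Enu

open Enu in
theorem t_ENU [Dens] (inv : S_INV) (_avg : S_AVG) : S_ENU := by
  classical
  intro c θ hS
  obtain ⟨hc, hθ, ⟨A0, hA0, hcz, htt⟩, hD, hP⟩ := hS
  obtain ⟨hF1, -, hFn, hFs, hFm, -, -, -, -, -⟩ := inv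
  -- the number of the points
  have hunb : ∀ j, ∃ n, j < M c n := by
    obtain ⟨C, hC0, hC⟩ := hD (1 / 4) (by norm_num)
    refine M_unbdd (C := C * LL 0) fun n => ?_
    have h1 := hC 0 n
    have h2 : ∑ n' ∈ Finset.range n, (cs 0 (c n') (θ n') n' - ci 0 n') = (((M c n : ℝ) - n : ℝ) : ℂ) := by
      rw [Finset.sum_congr rfl (fun n' _ => by rw [cs_zero, ci_zero]), Finset.sum_sub_distrib]
      unfold M
      push_cast
      simp
    rw [h2, Complex.norm_real, Real.norm_eq_abs] at h1
    refine h1.trans (le_of_eq ?_)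
    ring
  choose N hN1 hN2 using M_ex hunb
  have hNi : ∀ j, j - M c (N j) < c (N j) := by
    intro j
    have h1 := hN1 j
    have h2 := hN2 j
    rw [M_succ] at h2
    omega
  have hNA : ∀ j, A0 ≤ N j := by
    intro j
    by_contra h
    push Not at h
    have h1 := hNi j
    rw [hcz _ h] at h1
    exact absurd h1 (Nat.not_lt_zero _)
  set q : ℕ → ℝ := fun j => F (ar c θ (N j) (j - M c (N j))) with hq
  have har0 : ∀ n i, ar c θ n i ∈ Ici (0 : ℝ) := fun n i => (Nat.cast_nonneg n).trans (ar_ge hθ n i)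
  have hmono : StrictMono q := by
    intro j j' hjj
    rw [hq]
    refine hFs (har0 _ _) (har0 _ _) ?_
    have hle : N j ≤ N j' := by
      by_contra h
      push Not at h
      have h1 := hN2 j'
      have h2 := M_mono c (Nat.succ_le_of_lt h)
      have h3 := hN1 j
      have h4 : M c (N j' + 1) ≤ j := h2.trans h3
      omega
    rcases hle.lt_or_eq with h | h
    · have h1 := ar_lt hθ (hNi j)
      have h2 := ar_ge (c := c) hθ (N j') (j' - M c (N j'))
      have h3 : (N j : ℝ) + 1 ≤ N j' := by exact_mod_cast h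
      linarith
    · rw [← h]
      have h1 := hNi j'
      rw [← h] at h1
      have h2 := hN1 j
      exact ar_lt_ar h1 (by omega)
  have hge : ∀ j : ℕ, (j : ℝ) + 1 ≤ q j := by
    intro j
    have h1 : tt (N j) ≤ q j := by
      rw [← hFn]
      exact hFm (ar_ge hθ _ _)
    have h2 := htt (N j) (hNA j)
    have h3 := (hN2 j).trans_le (M_le hc _)
    have h4 : (j : ℝ) < 4 * ((N j : ℝ) + 1) := by exact_mod_cast h3
    linarith
  have hval : ∀ n i, i < c n → q (M c n + i) = pt (c n) (θ n) n i := by
    intro n i hi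
    have h1 : N (M c n + i) = n := by
      refine M_uniq (hN1 _) (hN2 _) (Nat.le_add_right _ _) ?_
      rw [M_succ]
      omega
    show F (ar c θ (N (M c n + i)) (M c n + i - M c (N (M c n + i)))) = _
    rw [h1, Nat.add_sub_cancel_left]
    rfl
  have hp1 : ∀ (n : ℕ) (x : ℝ), tt n ≤ x → M c n ≤ pc q x := by
    intro n x hn1
    rcases Nat.eq_zero_or_pos (M c n) with h | h
    · rw [h]
      exact Nat.zero_le _
    · have h1 : M c n - 1 < pc q x := by
        rw [lt_pc hmono hge]
        have h2 : N (M c n - 1) < n := by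
          by_contra h3
          push Not at h3
          have h4 := M_mono c h3
          have h5 := hN1 (M c n - 1)
          omega
        have h3 : q (M c n - 1) ≤ tt n := by
          rw [← hFn]
          refine hFm ?_
          have h4 := ar_lt hθ (hNi (M c n - 1))
          have h5 : (N (M c n - 1) : ℝ) + 1 ≤ n := by exact_mod_cast h2
          linarith
        exact h3.trans hn1
      omega
  have hp2 : ∀ (n : ℕ) (x : ℝ), x < tt (n + 1) → pc q x ≤ M c n + 4 := by
    intro n x hn2
    have h0 : pc q x ≤ M c (n + 1) := by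
      by_contra h3
      push Not at h3
      rw [lt_pc hmono hge] at h3
      have h4 : n + 1 ≤ N (M c (n + 1)) := by
        by_contra h5
        push Not at h5
        have h6 := M_mono c (Nat.succ_le_of_lt h5)
        have h7 := hN2 (M c (n + 1))
        exact absurd (h7.trans_le h6) (lt_irrefl _)
      have h5 : tt (n + 1) ≤ q (M c (n + 1)) := by
        rw [← hFn]
        refine hFm ?_
        have h6 := ar_ge (c := c) hθ (N (M c (n + 1))) (M c (n + 1) - M c (N (M c (n + 1))))
        have h7 : ((n + 1 : ℕ) : ℝ) ≤ N (M c (n + 1)) := by exact_mod_cast h4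
        linarith
      linarith
    rw [M_succ] at h0
    have := hc n
    omega
  refine ⟨q, hmono, hge, ?_, fun j => ⟨N j, j - M c (N j), hNi j, rfl⟩, ?_, ?_⟩
  · have h1 : tt (N 0) ≤ q 0 := by
      rw [← hFn]
      exact hFm (ar_ge hθ _ _)
    have h2 := tt_ge (N 0)
    have h3 : (1 : ℝ) ≤ N 0 := by exact_mod_cast hA0.trans (hNA 0)
    linarith
  · have hsum : ∀ (m : ℤ) (n : ℕ), ∑ j ∈ Finset.range (M c n), em m (q j) =
        ∑ n' ∈ Finset.range n, cs m (c n') (θ n') n' := by
      intro m n
      induction n with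
      | zero => rw [M_zero]; simp
      | succ n ih =>
        rw [Finset.sum_range_succ (fun n' => cs m (c n') (θ n') n') n, M_succ, Finset.sum_range_add, ih]
        congr 1
        unfold cs
        refine Finset.sum_congr rfl fun i hi => ?_
        rw [hval n i (Finset.mem_range.1 hi)]
    intro δ hδ
    obtain ⟨C, hC0, hC⟩ := hD δ hδ
    refine ⟨C + 5, by positivity, fun m x hx => ?_⟩
    obtain ⟨n, hn1, hn2⟩ := exists_slot hx
    have hL1 : 1 ≤ √(Real.log (|(m : ℝ)| + 3)) := by
      rw [Real.one_le_sqrt, Real.le_log_iff_exp_le (by positivity)]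
      have := Real.exp_one_lt_d9
      have := abs_nonneg (m : ℝ)
      linarith
    have hx0 : 0 < x := by linarith
    have hx1 : 1 ≤ x ^ (1 / 2 + δ) := Real.one_le_rpow hx (by linarith)
    have hnx : (n : ℝ) ≤ x := by
      have := tt_ge n
      linarith
    have d1 : ‖AA q m x - ∑ j ∈ Finset.range (M c n), em m (q j)‖ ≤ 4 := by
      unfold AA
      refine (sum_diff (f := fun j => em m (q j)) (fun j => (em_norm m _).le) (hp1 n x hn1)).trans ?_
      have h2 : (pc q x : ℝ) ≤ ((M c n + 4 : ℕ) : ℝ) := by exact_mod_cast hp2 n x hn2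
      push_cast at h2
      linarith
    have d2 : ‖BB m (tt n) - BB m x‖ ≤ 1 := by
      have hi1 := mdg_int (g := em m) (em_meas m) (fun u => (em_norm m u).le) le_rfl (tt_one_le n)
      have hi2 := mdg_int (g := em m) (em_meas m) (fun u => (em_norm m u).le) le_rfl hx
      have h1 : BB m x - BB m (tt n) = ∫ u in (tt n)..x, em m u * (md u : ℂ) := by
        unfold BB
        exact intervalIntegral.integral_interval_sub_left hi2 hi1
      rw [norm_sub_rev, h1]
      have h2 : ‖∫ u in (tt n)..x, em m u * (md u : ℂ)‖ ≤ ∫ u in (tt n)..x, md u := by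
        refine intervalIntegral.norm_integral_le_of_norm_le hn1 (Eventually.of_forall fun u hu => ?_)
          (md_int (tt_one_le _) hx)
        have hu1 : 1 ≤ u := (tt_one_le n).trans hu.1.le
        rw [norm_mul, em_norm, one_mul, Complex.norm_real, Real.norm_of_nonneg (md_nonneg hu1)]
      refine h2.trans ?_
      rw [← MM_sub (tt_one_le _) hx, MM_tt]
      have h3 := MM_le hx hn2.le
      rw [MM_tt] at h3
      push_cast at h3
      linarith
    have d3 : ‖∑ j ∈ Finset.range (M c n), em m (q j) - BB m (tt n)‖ ≤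
        C * x ^ (1 / 2 + δ) * √(Real.log (|(m : ℝ)| + 3)) := by
      rw [hsum, ← ci_sum, ← Finset.sum_sub_distrib]
      refine (hC m n).trans ?_
      have h4 : (n : ℝ) ^ (1 / 2 + δ) ≤ x ^ (1 / 2 + δ) := Real.rpow_le_rpow (Nat.cast_nonneg n) hnx (by linarith)
      unfold LL
      gcongr
    have hfin : AA q m x - BB m x = (AA q m x - ∑ j ∈ Finset.range (M c n), em m (q j)) +
        (∑ j ∈ Finset.range (M c n), em m (q j) - BB m (tt n)) + (BB m (tt n) - BB m x) := by ring
    rw [hfin]
    refine (norm_add_le _ _).trans ?_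
    refine (add_le_add ((norm_add_le _ _).trans (add_le_add d1 d3)) d2).trans ?_
    have e1 : 1 ≤ x ^ (1 / 2 + δ) * √(Real.log (|(m : ℝ)| + 3)) := by nlinarith
    nlinarith
  · intro ε hε
    obtain ⟨C, hC0, hC⟩ := hP ε hε
    refine ⟨C + 5, fun x hx => ?_⟩
    obtain ⟨n, hn1, hn2⟩ := exists_slot hx
    have hx1 : 1 ≤ x ^ ε := Real.one_le_rpow hx hε.le
    have hnx : (n : ℝ) ≤ x := by
      have := tt_ge n
      linarith
    have h1 : (M c n : ℝ) ≤ pc q x := by exact_mod_cast hp1 n x hn1
    have h2 : (pc q x : ℝ) ≤ M c n + 4 := by exact_mod_cast hp2 n x hn2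
    have h3 : (n : ℝ) ≤ MM x := by
      rw [← MM_tt]
      exact MM_le (tt_one_le _) hn1
    have h4 : MM x ≤ (n : ℝ) + 1 := by
      have h := MM_le hx hn2.le
      rw [MM_tt] at h
      exact_mod_cast h
    have h5 := hC n
    have h6 : ∑ n' ∈ Finset.range n, ((c n' : ℝ) - 1) = (M c n : ℝ) - n := by
      rw [Finset.sum_sub_distrib]
      unfold M
      push_cast
      simp
    rw [h6] at h5
    have h7 : C * (n : ℝ) ^ ε ≤ C * x ^ ε :=
      mul_le_mul_of_nonneg_left (Real.rpow_le_rpow (Nat.cast_nonneg n) hnx hε.le) hC0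
    rw [abs_le] at h5 ⊢
    constructor
    · nlinarith [h5.1, h5.2]
    · nlinarith [h5.1, h5.2]

end Pool.Agent.H68.GC
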