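import Pool.Agent.H68.GC.Loc
import Pool.Agent.H49.KZ.Sys0

set_option autoImplicit false

/-! Project GC (helper68), assembly (helper49): from `S_GLU`, `S_ENU` to the theorem. -/

namespace Pool.Agent.H68.GC

open MeasureTheory Filter Topology Set
open Pool.Agent.H49.BZ

/-- the systems of the theorem -/
theorem main (glu : ∀ [Dens], Loc → S_GLU) (enu : ∀ [Dens], S_ENU) {γ : ℕ → ℝ} (h0 : ∀ k, 0 < γ k) (hm : Monotone γ)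
    (hW : Windows γ) {h : ℝ → ℝ} (hh : ∀ ε : ℝ, 0 < ε → ∃ C : ℝ, ∀ x : ℝ, 1 ≤ x → h x ≤ C * x ^ ε) :
    ∃ (q : ℕ → ℝ) (Z : ℂ → ℂ), RHSystem q Z ∧ HasZeros Z γ ∧ ExplicitFormula q γ ∧
      ∀ Y : ℝ, ∃ y : ℝ, Y ≤ y ∧ ∀ i j : ℕ, q i + q j < y ∨ y + h y < q i + q j := by
  obtain ⟨hloc, hupp⟩ := t_LOC γ h0 hm hW
  let _ : Dens := dens γ h0
  obtain ⟨c, θ, hS, hy⟩ := glu hloc hupp h hh
  obtain ⟨q, h1, h2, h3, h4, h5, h6⟩ := enu c θ hS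
  obtain ⟨Z, hZ, hord⟩ := rh_of h0 hm hW h1 h3 h2 h5 (smallErr_self h1 h2 h6)
  refine ⟨q, Z, hZ, hord, h6, fun Y => ?_⟩
  obtain ⟨y, hY, hy⟩ := hy Y
  refine ⟨y, hY, fun i j => ?_⟩
  obtain ⟨n, a, ha, hqi⟩ := h4 i
  obtain ⟨n', a', ha', hqj⟩ := h4 j
  rw [hqi, hqj]
  exact hy n a n' a' ha ha'

end Pool.Agent.H68.GC
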