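import Pool.Agent.H68.GC.Stm

set_option autoImplicit false

/-! Project GC (helper68), module GEO, part 1: the numbers and the right windows of one scale. -/

namespace Pool.Agent.H68.GC

open MeasureTheory Filter Topology Set
open Pool.Agent.H49.BZ

section
variable [Dens]

theorem gtt_two {j : ℕ} (hj : 1 ≤ j) : 2 ≤ tt j := by
  have h1 := tt_ge j
  have h2 : (1 : ℝ) ≤ j := by exact_mod_cast hj
  linarith

theorem gtt_diff {i j : ℕ} (h : i ≤ j) : ((j : ℝ) - i) ≤ tt j - tt i := by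
  have := MM_sub_le (tt_one_le i) (tt_mono.monotone h)
  rw [MM_tt, MM_tt] at this
  linarith

/-- lengths and masses -/
theorem glen_le {a b m l : ℝ} (ha : 2 ≤ a) (hab : a ≤ b) (h : MM b - MM a ≤ m) (hm : 0 ≤ m)
    (hl : Real.log b ≤ l) : b - a ≤ m * (8 * l) := by
  have h2 := le_MM_inc ha hab
  have h5 := log_pos' (u := b) (by linarith)
  rw [div_le_iff₀ (by positivity)] at h2
  have h6 : (MM b - MM a) * (8 * Real.log b) ≤ m * (8 * Real.log b) :=
    mul_le_mul_of_nonneg_right h (by positivity)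
  have h7 : m * (8 * Real.log b) ≤ m * (8 * l) := mul_le_mul_of_nonneg_left (by linarith) hm
  linarith

/-- nearly constant density -/
theorem gnear {a b μ ω : ℝ} (ha : 1 ≤ a) (hab : a ≤ b) (h : ∀ u, a ≤ u → u ≤ b → |md u - μ| ≤ ω) :
    |MM b - MM a - μ * (b - a)| ≤ ω * (b - a) := by
  rw [MM_sub ha (by linarith)]
  have e : (∫ u in a..b, md u) - μ * (b - a) = ∫ u in a..b, (md u - μ) := by
    rw [intervalIntegral.integral_sub (md_int ha (by linarith)) intervalIntegrable_const]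
    simp
    ring
  rw [e]
  have h1 := intervalIntegral.norm_integral_le_of_norm_le_const (a := a) (b := b) (C := ω)
    (f := fun u => md u - μ) (fun u hu => by
      rw [uIoc_of_le hab] at hu
      rw [Real.norm_eq_abs]
      exact h u hu.1.le hu.2)
  rw [Real.norm_eq_abs, abs_of_nonneg (show 0 ≤ b - a by linarith)] at h1
  exact h1

end

/-- two windows of a block -/
theorem gpair {μ μ' ω Λ l W d d' D D' : ℝ} (hμ : 1 ≤ μ * (8 * l)) (hμ0 : 0 ≤ μ') (hμ1 : μ' ≤ 1) (hω : 0 ≤ ω)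
    (hl : 1 ≤ l) (hd : 0 ≤ d) (hdΛ : d ≤ Λ) (hd' : 0 ≤ d') (hdΛ' : d' ≤ Λ) (h1 : |W - μ * d| ≤ ω * d)
    (h2 : |W - μ * d'| ≤ ω * d') (h3 : |D - μ' * d| ≤ ω * d) (h4 : |D' - μ' * d'| ≤ ω * d')
    (h5 : 18 * ω * Λ * l ≤ 1 / 4) : |D - D'| ≤ 1 / 4 := by
  have hΛ : 0 ≤ Λ := hd.trans hdΛ
  have a1 : ω * d ≤ ω * Λ := mul_le_mul_of_nonneg_left hdΛ hω
  have a2 : ω * d' ≤ ω * Λ := mul_le_mul_of_nonneg_left hdΛ' hω
  have a3 : μ * |d - d'| ≤ 2 * (ω * Λ) := by
    have hμp : 0 ≤ μ := by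
      by_contra h
      push Not at h
      nlinarith
    have e : μ * |d - d'| = |(W - μ * d') - (W - μ * d)| := by
      have e1 : (W - μ * d') - (W - μ * d) = μ * (d - d') := by ring
      rw [e1, abs_mul, abs_of_nonneg hμp]
    rw [e]
    exact (abs_sub _ _).trans (by linarith)
  have a4 : |d - d'| ≤ 16 * (ω * Λ) * l := by
    have h6 : 0 ≤ |d - d'| := abs_nonneg _
    calc |d - d'| ≤ (μ * (8 * l)) * |d - d'| := le_mul_of_one_le_left h6 hμ
      _ = (μ * |d - d'|) * (8 * l) := by ring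
      _ ≤ (2 * (ω * Λ)) * (8 * l) := mul_le_mul_of_nonneg_right a3 (by linarith)
      _ = 16 * (ω * Λ) * l := by ring
  have a5 : |μ' * (d - d')| ≤ |d - d'| := by
    rw [abs_mul, abs_of_nonneg hμ0]
    exact mul_le_of_le_one_left (abs_nonneg _) hμ1
  have e : D - D' = (D - μ' * d) - (D' - μ' * d') + μ' * (d - d') := by ring
  have a6 : |D - D'| ≤ ω * Λ + ω * Λ + 16 * (ω * Λ) * l := by
    rw [e]
    refine (abs_add_le _ _).trans (add_le_add ((abs_sub _ _).trans (add_le_add ?_ ?_)) (a5.trans a4))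
    · linarith
    · linarith
  have a7 : 0 ≤ ω * Λ := mul_nonneg hω hΛ
  have a8 : ω * Λ ≤ ω * Λ * l := le_mul_of_one_le_right a7 hl
  nlinarith

/-- four nearly equal increments: nearly linear interpolation -/
theorem ginterp {s : ℕ → ℝ} (h : ∀ i i' : ℕ, i < 4 → i' < 4 → |(s i - s (i + 1)) - (s i' - s (i' + 1))| ≤ 1 / 4) {i : ℕ}
    (hi : i < 4) : |s i - ((1 - (i : ℝ) / 4) * s 0 + (i : ℝ) / 4 * s 4)| ≤ 1 / 2 := by
  have h01 := abs_le.1 (h 0 1 (by norm_num) (by norm_num))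
  have h02 := abs_le.1 (h 0 2 (by norm_num) (by norm_num))
  have h03 := abs_le.1 (h 0 3 (by norm_num) (by norm_num))
  have h12 := abs_le.1 (h 1 2 (by norm_num) (by norm_num))
  have h13 := abs_le.1 (h 1 3 (by norm_num) (by norm_num))
  have h23 := abs_le.1 (h 2 3 (by norm_num) (by norm_num))
  norm_num at h01 h02 h03 h12 h13 h23
  rw [abs_le]
  interval_cases i
  · norm_num
  · constructor
    · push_cast
      linarith [h01.1, h01.2, h02.1, h02.2, h03.1, h03.2]
    · push_cast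
      linarith [h01.1, h01.2, h02.1, h02.2, h03.1, h03.2]
  · constructor
    · push_cast
      linarith [h02.1, h02.2, h13.1, h13.2]
    · push_cast
      linarith [h02.1, h02.2, h13.1, h13.2]
  · constructor
    · push_cast
      linarith [h03.1, h03.2, h13.1, h13.2, h23.1, h23.2]
    · push_cast
      linarith [h03.1, h03.2, h13.1, h13.2, h23.1, h23.2]

/-- the size of the constants -/
theorem glarge (C : ℝ) : ∃ X : ℝ, 1 ≤ X ∧ ∀ P : ℝ, X ≤ P → 1 ≤ Real.log P ∧
    2 * Real.log P ^ 2 ≤ P ^ (1 / 100 : ℝ) ∧ 2000000000 * (C + 1) ≤ P ^ (1 / 100 : ℝ) ∧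
    1000000000 ≤ P ^ (1 / 100 : ℝ) := by
  have h1 : ∀ᶠ P : ℝ in atTop, 2 * Real.log P ^ 2 ≤ P ^ (1 / 100 : ℝ) := by
    have h := (isLittleO_log_rpow_rpow_atTop (2 : ℝ) (show (0 : ℝ) < 1 / 100 by norm_num)).bound
      (show (0 : ℝ) < 1 / 2 by norm_num)
    filter_upwards [h, eventually_gt_atTop 1] with x hx h1
    rw [Real.norm_of_nonneg (Real.rpow_nonneg (Real.log_nonneg h1.le) _),
      Real.norm_of_nonneg (Real.rpow_nonneg (by linarith) _)] at hx
    have e : Real.log x ^ (2 : ℝ) = Real.log x ^ 2 := by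
      rw [← Real.rpow_natCast]
      norm_num
    rw [e] at hx
    linarith
  have h2 := (tendsto_rpow_atTop (show (0 : ℝ) < 1 / 100 by norm_num)).eventually
    (eventually_ge_atTop (2000000000 * (C + 1)))
  have h3 := (tendsto_rpow_atTop (show (0 : ℝ) < 1 / 100 by norm_num)).eventually
    (eventually_ge_atTop (1000000000 : ℝ))
  have h4 := Real.tendsto_log_atTop.eventually (eventually_ge_atTop (1 : ℝ))
  obtain ⟨X, hX⟩ := (((h1.and h2).and h3).and h4).exists_forall_of_atTop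
  refine ⟨max X 1, le_max_right _ _, fun P hP => ?_⟩
  obtain ⟨⟨⟨a, b⟩, c⟩, d⟩ := hX P ((le_max_left _ _).trans hP)
  exact ⟨d, a, b, c⟩

section
variable [Dens]

/-- the data of one scale which are used for the windows -/
structure Scale (A M : ℕ) (H ell lam R y z Λ : ℝ) (W N : ℕ) : Prop where
  hA : 1 ≤ A
  hy : y = tt A ^ M
  hell : ell = Real.log (2 * y)
  ell1 : 1 ≤ ell
  ellR : ell ≤ R
  R0 : 1000000000 ≤ R
  RP : R ^ 4 ≤ tt A
  hH : 0 ≤ H
  HR : H ≤ R
  yP : tt A ^ 4 ≤ y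
  W1 : H + 80 * ell + 1 ≤ W
  W2 : (W : ℝ) ≤ H + 80 * ell + 2
  hz : z = y / 2 - H - 100 * ell
  hΛ : Λ = 32 * W * ell
  ΛP : Λ ≤ tt A
  N1 : (A : ℝ) + 4 * N * W ≤ MM z
  N2 : MM z < A + 4 * (N + 1) * W

variable {A M : ℕ} {H ell lam R y z Λ : ℝ} {W N : ℕ}

theorem Scale.P1 (S : Scale A M H ell lam R y z Λ W N) : 1000 * R ≤ tt A ∧ 1 ≤ tt A ∧ 1000 * R * tt A ≤ tt A ^ 2 ∧
    1000 * (R * tt A) ≤ y := by
  have h1 := S.R0
  have h2 := S.RP
  have hR2 : 1000000000 * R ≤ R ^ 2 := by nlinarith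
  have hR4 : R ^ 2 ≤ R ^ 4 := pow_le_pow_right₀ (by linarith) (by norm_num)
  have h3 : 1000 * R ≤ tt A := by nlinarith
  have h4 : 1 ≤ tt A := by linarith
  have h5 : 1000 * R * tt A ≤ tt A ^ 2 := by nlinarith
  refine ⟨h3, h4, h5, ?_⟩
  have h6 : tt A ^ 2 ≤ tt A ^ 4 := pow_le_pow_right₀ h4 (by norm_num)
  have h7 := S.yP
  nlinarith

theorem Scale.zP (S : Scale A M H ell lam R y z Λ W N) : tt A ≤ z ∧ z ≤ y / 2 := by
  obtain ⟨h1, h2, h3, h4⟩ := S.P1
  have h5 := S.R0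
  have h6 : 1 * tt A ≤ R * tt A := mul_le_mul_of_nonneg_right (by linarith) (by linarith)
  have h7 : R * 1 ≤ R * tt A := mul_le_mul_of_nonneg_left h2 (by linarith)
  have h8 := S.ellR
  have h9 := S.HR
  have h10 := S.hH
  have h11 := S.ell1
  rw [S.hz]
  constructor <;> linarith

theorem Scale.logle (S : Scale A M H ell lam R y z Λ W N) {x : ℝ} (h1 : 0 < x) (h2 : x ≤ 2 * y) :
    Real.log x ≤ ell := by
  rw [S.hell]
  exact Real.log_le_log h1 h2

/-- the left ends -/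
theorem Scale.al (S : Scale A M H ell lam R y z Λ W N) {k : ℕ} (hk : k ≤ 4 * N) :
    tt A ≤ tt (A + k * W) ∧ tt (A + k * W) ≤ z ∧ MM (tt (A + k * W)) = A + k * W := by
  have e : MM (tt (A + k * W)) = A + k * W := by
    rw [MM_tt]
    push_cast
    ring
  refine ⟨tt_mono.monotone (by omega), ?_, e⟩
  have hz1 : 1 ≤ z := S.P1.2.1.trans S.zP.1
  rw [← MM_le_iff (tt_one_le _) hz1, e]
  have h1 : (k : ℝ) ≤ 4 * N := by exact_mod_cast hk
  have h2 : (k : ℝ) * W ≤ 4 * N * W := mul_le_mul_of_nonneg_right h1 (Nat.cast_nonneg _)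
  linarith [S.N1]

/-- the increments of the images in a block -/
theorem Scale.inc (S : Scale A M H ell lam R y z Λ W N) {C : ℝ} (hC : 0 ≤ C)
    (hloc : ∀ u v : ℝ, 2 ≤ u → u ≤ v → v ≤ 2 * u → |md v - md u| ≤ C * (1 + (v - u)) * u ^ (-(1 / 8) : ℝ))
    (hsmall : 18 * (C * (1 + Λ) * tt A ^ (-(1 / 8) : ℝ)) * Λ * ell ≤ 1 / 8) {j : ℕ} (hj : j < N) {i i' : ℕ}
    (hi : i < 4) (hi' : i' < 4) :
    |(MM (y - tt (A + (4 * j + i) * W)) - MM (y - tt (A + (4 * j + i + 1) * W))) -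
      (MM (y - tt (A + (4 * j + i') * W)) - MM (y - tt (A + (4 * j + i' + 1) * W)))| ≤ 1 / 4 := by
  obtain ⟨hP1, hP2, hP3, hP4⟩ := S.P1
  obtain ⟨hz1, hz2⟩ := S.zP
  have hR0 := S.R0
  have hell1 := S.ell1
  set α : ℕ → ℝ := fun k => tt (A + k * W) with hα
  have hαm : Monotone α := fun a b h => tt_mono.monotone (Nat.add_le_add_left (Nat.mul_le_mul_right W h) A)
  have hαl : ∀ k, k ≤ 4 * N → tt A ≤ α k ∧ α k ≤ z ∧ MM (α k) = A + k * W := fun k hk => S.al hk
  set a0 := α (4 * j) with ha0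
  set a4 := α (4 * j + 4) with ha4
  have hW0 : (0 : ℝ) ≤ W := Nat.cast_nonneg W
  have h04 : a0 ≤ a4 := hαm (by omega)
  have hl0 := hαl (4 * j) (by omega)
  have hl4 := hαl (4 * j + 4) (by omega)
  have hP2' : 2 ≤ tt A := by linarith
  have hlen : a4 - a0 ≤ Λ := by
    have h1 : a4 - a0 ≤ (4 * W) * (8 * ell) := by
      refine glen_le (by linarith [hl0.1]) h04 ?_ (by positivity) (S.logle (by linarith [hl4.1]) (by linarith [hl4.2.1]))
      rw [hl0.2.2, hl4.2.2]
      push_cast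
      linarith
    rw [S.hΛ]
    linarith
  have hΛ0 : 0 ≤ Λ := by linarith
  set ω : ℝ := C * (1 + Λ) * tt A ^ (-(1 / 8) : ℝ) with hω
  have hω0 : 0 ≤ ω := by positivity
  have hΛP := S.ΛP
  have hvar : ∀ u v : ℝ, tt A ≤ u → u ≤ v → v - u ≤ Λ → |md v - md u| ≤ ω := by
    intro u v h1 h2 h3
    refine (hloc u v (by linarith) h2 (by linarith)).trans ?_
    have h4 : u ^ (-(1 / 8) : ℝ) ≤ tt A ^ (-(1 / 8) : ℝ) :=
      Real.rpow_le_rpow_of_nonpos (by linarith) h1 (by norm_num)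
    have h5 : 0 ≤ u ^ (-(1 / 8) : ℝ) := Real.rpow_nonneg (by linarith) _
    calc C * (1 + (v - u)) * u ^ (-(1 / 8) : ℝ) ≤ C * (1 + Λ) * u ^ (-(1 / 8) : ℝ) := by
          refine mul_le_mul_of_nonneg_right (mul_le_mul_of_nonneg_left (by linarith) hC) h5
      _ ≤ ω := mul_le_mul_of_nonneg_left h4 (by positivity)
  set μ := md a0 with hμ
  set μ' := md (y - a4) with hμ'
  have hya : tt A ≤ y - a4 := by
    have := hl4.2.1
    have h6 : 1 * tt A ≤ R * tt A := mul_le_mul_of_nonneg_right (by linarith) (by linarith)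
    linarith
  have hμ1 : 1 ≤ μ * (8 * ell) := by
    have h1 := le_md (u := a0) (by linarith [hl0.1])
    have h2 : Real.log a0 ≤ ell := S.logle (by linarith [hl0.1]) (by linarith [hl0.2.1])
    have h3 : 0 < Real.log a0 := log_pos' (by linarith [hl0.1])
    rw [div_le_iff₀ (by positivity)] at h1
    have h4 : 0 ≤ μ := md_nonneg (by linarith [hl0.1])
    have h5 : μ * (8 * Real.log a0) ≤ μ * (8 * ell) := mul_le_mul_of_nonneg_left (by linarith) h4
    linarith
  have hμ0' : 0 ≤ μ' := md_nonneg (by linarith)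
  have hμ1' : μ' ≤ 1 := md_le_one (by linarith)
  have hone : ∀ i, i < 4 → 0 ≤ α (4 * j + i + 1) - α (4 * j + i) ∧ α (4 * j + i + 1) - α (4 * j + i) ≤ Λ ∧
      |(W : ℝ) - μ * (α (4 * j + i + 1) - α (4 * j + i))| ≤ ω * (α (4 * j + i + 1) - α (4 * j + i)) ∧
      |(MM (y - α (4 * j + i)) - MM (y - α (4 * j + i + 1))) - μ' * (α (4 * j + i + 1) - α (4 * j + i))| ≤
        ω * (α (4 * j + i + 1) - α (4 * j + i)) := by
    intro i hi
    have m1 : α (4 * j + i) ≤ α (4 * j + i + 1) := hαm (by omega)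
    have m0 : a0 ≤ α (4 * j + i) := hαm (by omega)
    have m2 : α (4 * j + i + 1) ≤ a4 := hαm (by omega)
    have e1 := (hαl (4 * j + i) (by omega)).2.2
    have e2 := (hαl (4 * j + i + 1) (by omega)).2.2
    have t1 := (hαl (4 * j + i) (by omega)).1
    refine ⟨by linarith, by linarith, ?_, ?_⟩
    · have h1 := gnear (a := α (4 * j + i)) (b := α (4 * j + i + 1)) (μ := μ) (ω := ω) (by linarith) m1
        (fun u hu1 hu2 => hvar a0 u hl0.1 (by linarith) (by linarith))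
      have e3 : MM (α (4 * j + i + 1)) - MM (α (4 * j + i)) = W := by
        rw [e1, e2]
        push_cast
        ring
      rw [e3] at h1
      exact h1
    · have h1 := gnear (a := y - α (4 * j + i + 1)) (b := y - α (4 * j + i)) (μ := μ') (ω := ω) (by linarith) (by linarith)
        (fun u hu1 hu2 => hvar (y - a4) u hya (by linarith) (by linarith))
      have e3 : (y - α (4 * j + i)) - (y - α (4 * j + i + 1)) = α (4 * j + i + 1) - α (4 * j + i) := by ring
      rw [e3] at h1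
      exact h1
  obtain ⟨a1, a2, a3, a4'⟩ := hone i hi
  obtain ⟨b1, b2, b3, b4'⟩ := hone i' hi'
  exact gpair hμ1 hμ0' hμ1' hω0 hell1 a1 a2 b1 b2 a3 b3 a4' b4' (by linarith)


/-- the images are large -/
theorem Scale.big (S : Scale A M H ell lam R y z Λ W N) (hM : 4 ≤ M) {k : ℕ} (hk : k ≤ 4 * N) :
    tt A ^ (M - 1) + 16 ≤ MM (y - tt (A + k * W)) ∧ (1 : ℝ) ≤ tt A ^ (M - 1) ∧ 1 ≤ y - tt (A + k * W) ∧
      y / 2 + H + 100 * ell ≤ y - tt (A + k * W) ∧ y - tt (A + k * W) ≤ y := by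
  obtain ⟨h11, hP1, _, h10⟩ := S.P1
  have hzz := (S.al hk).2.1
  have htt := tt_one_le (A + k * W)
  have hzP := S.zP
  have hell1 := S.ell1
  have hellR := S.ellR
  have hR0 := S.R0
  have hH := S.hH
  have hyk : y / 2 + H + 100 * ell ≤ y - tt (A + k * W) := by
    rw [S.hz] at hzz
    linarith
  have hy4 : 1000 ≤ y := by
    have : 1 * tt A ≤ R * tt A := mul_le_mul_of_nonneg_right (by linarith) (by linarith)
    linarith
  have hX1' : (1 : ℝ) ≤ tt A ^ (M - 1) := one_le_pow₀ hP1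
  refine ⟨?_, hX1', by linarith, hyk, by linarith⟩
  have hyX : y = tt A * tt A ^ (M - 1) := by
    rw [S.hy, ← pow_succ']
    congr 1
    omega
  have h2 : MM (y / 2) ≤ MM (y - tt (A + k * W)) := MM_le (by linarith) (by linarith)
  have h3 := le_MM_inc (a := 2) (b := y / 2) le_rfl (by linarith)
  have h4 := MM_nonneg (x := 2) (by norm_num)
  have h5 : Real.log (y / 2) ≤ ell := S.logle (by linarith) (by linarith)
  have h6 : 0 < Real.log (y / 2) := log_pos' (by linarith)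
  rw [div_le_iff₀ (by positivity)] at h3
  have h8 : 0 ≤ MM (y / 2) := MM_nonneg (by linarith)
  have h7 : (MM (y / 2) - MM 2) * (8 * Real.log (y / 2)) ≤ MM (y / 2) * (8 * ell) := by
    calc (MM (y / 2) - MM 2) * (8 * Real.log (y / 2)) ≤ MM (y / 2) * (8 * Real.log (y / 2)) :=
          mul_le_mul_of_nonneg_right (by linarith) (by positivity)
      _ ≤ MM (y / 2) * (8 * ell) := mul_le_mul_of_nonneg_left (by linarith) h8
  set Q := tt A ^ (M - 1) with hQ
  have h9 : (Q + 16) * (8 * ell) ≤ y / 2 - 2 := by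
    have h10 : (Q + 16) * (8 * ell) ≤ (17 * Q) * (8 * R) := by
      refine mul_le_mul (by linarith) (by linarith) (by linarith) (by linarith)
    have h14 : (1000 * R) * Q ≤ tt A * Q := mul_le_mul_of_nonneg_right h11 (by linarith)
    have h15 : 1 * 1 ≤ R * Q := mul_le_mul (by linarith) hX1' (by norm_num) (by linarith)
    have e1 : (17 * Q) * (8 * R) = 136 * (R * Q) := by ring
    have e2 : (1000 * R) * Q = 1000 * (R * Q) := by ring
    rw [hyX]
    linarith
  have h13 : (Q + 16) * (8 * ell) ≤ MM (y / 2) * (8 * ell) := by linarith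
  have h14 := le_of_mul_le_mul_right h13 (by linarith : 0 < 8 * ell)
  linarith

/-- the right windows -/
theorem Scale.beta (S : Scale A M H ell lam R y z Λ W N) (hM : 4 ≤ M) {C : ℝ} (hC : 0 ≤ C)
    (hloc : ∀ u v : ℝ, 2 ≤ u → u ≤ v → v ≤ 2 * u → |md v - md u| ≤ C * (1 + (v - u)) * u ^ (-(1 / 8) : ℝ))
    (hsmall : 18 * (C * (1 + Λ) * tt A ^ (-(1 / 8) : ℝ)) * Λ * ell ≤ 1 / 8) (hΛ0 : 0 ≤ Λ)
    (hdiff : ∀ j, j < N → MM (y - tt (A + 4 * j * W)) - MM (y - tt (A + 4 * (j + 1) * W)) ≤ Λ) :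
    ∃ β V : ℕ → ℕ, Antitone β ∧ (∀ j i, i < 4 → β (4 * j + i) = β (4 * j + i + 1) + V j) ∧
      (∀ j, ((4 * V j : ℕ) : ℝ) ≤ Λ + 4) ∧ (∀ k, 1 ≤ β k) ∧
      ∀ k, k ≤ 4 * N → (β k : ℝ) ≤ MM (y - tt (A + k * W)) - 3 ∧ MM (y - tt (A + k * W)) - (β k : ℝ) ≤ 9 := by
  set bs : ℕ → ℝ := fun k => MM (y - tt (A + k * W)) with hbs
  have hαm : Monotone (fun k : ℕ => tt (A + k * W)) := fun a b h =>
    tt_mono.monotone (Nat.add_le_add_left (Nat.mul_le_mul_right W h) A)
  have hbig : ∀ k, k ≤ 4 * N → tt A ^ (M - 1) + 16 ≤ bs k ∧ (1 : ℝ) ≤ tt A ^ (M - 1) := fun k hk =>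
    ⟨(S.big hM hk).1, (S.big hM hk).2.1⟩
  have hbsm : ∀ j k, j ≤ k → k ≤ 4 * N → bs k ≤ bs j := fun j k h hk =>
    MM_le (S.big hM hk).2.2.1 (by
      have := hαm h
      simp only at this
      linarith)
  -- the ends of the blocks
  set b : ℕ → ℕ := fun j => 4 * ⌊(bs (4 * min j N) - 4) / 4⌋₊ with hb
  have hmin : ∀ j : ℕ, 4 * min j N ≤ 4 * N := fun j => Nat.mul_le_mul_left 4 (min_le_right j N)
  have hbb : ∀ j, bs (4 * min j N) - 8 < b j ∧ (b j : ℝ) ≤ bs (4 * min j N) - 4 := by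
    intro j
    obtain ⟨h1, h2⟩ := hbig (4 * min j N) (hmin j)
    have h3 : (⌊(bs (4 * min j N) - 4) / 4⌋₊ : ℝ) ≤ (bs (4 * min j N) - 4) / 4 :=
      Nat.floor_le (by linarith)
    have h4 : (bs (4 * min j N) - 4) / 4 < ⌊(bs (4 * min j N) - 4) / 4⌋₊ + 1 := Nat.lt_floor_add_one _
    simp only [hb]
    push_cast
    constructor <;> linarith
  have hbanti : Antitone b := by
    intro j k h
    simp only [hb]
    refine Nat.mul_le_mul_left 4 (Nat.floor_mono ?_)
    have h1 : bs (4 * min k N) ≤ bs (4 * min j N) :=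
      hbsm _ _ (Nat.mul_le_mul_left 4 (min_le_min_right N h)) (hmin k)
    linarith
  have hbdvd : ∀ j, ∃ t, b j = 4 * t := fun j => ⟨_, rfl⟩
  set V : ℕ → ℕ := fun j => (b j - b (j + 1)) / 4 with hV
  have hV4 : ∀ j, b j = b (j + 1) + 4 * V j := by
    intro j
    obtain ⟨t, ht⟩ := hbdvd j
    obtain ⟨t', ht'⟩ := hbdvd (j + 1)
    have h1 : b (j + 1) ≤ b j := hbanti (Nat.le_succ j)
    simp only [hV]
    omega
  have hb17 : ∀ j, 8 ≤ b j := by
    intro j
    obtain ⟨h1, h2⟩ := hbig (4 * min j N) (hmin j)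
    have h3 := (hbb j).1
    have h4 : (8 : ℝ) ≤ b j := by linarith
    exact_mod_cast h4
  set β : ℕ → ℕ := fun k => b (k / 4) - (k % 4) * V (k / 4) with hβ
  have hβe : ∀ j i, i < 4 → β (4 * j + i) = b j - i * V j := by
    intro j i hi
    simp only [hβ]
    have e1 : (4 * j + i) / 4 = j := by omega
    have e2 : (4 * j + i) % 4 = i := by omega
    rw [e1, e2]
  have hβ4 : ∀ j, β (4 * j) = b j := by
    intro j
    have := hβe j 0 (by norm_num)
    simpa using this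
  have hstep : ∀ j i, i < 4 → β (4 * j + i) = β (4 * j + i + 1) + V j := by
    intro j i hi
    have h1 := hV4 j
    rcases Nat.lt_or_ge (i + 1) 4 with h2 | h2
    · have e1 := hβe j i hi
      have e2 := hβe j (i + 1) h2
      have e3 : 4 * j + (i + 1) = 4 * j + i + 1 := by omega
      rw [e3] at e2
      rw [e1, e2, Nat.add_mul, one_mul]
      have h3 : (i + 1) * V j ≤ 4 * V j := Nat.mul_le_mul_right _ (by omega)
      rw [Nat.add_mul, one_mul] at h3
      omega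
    · have hi3 : i = 3 := by omega
      subst hi3
      have e1 := hβe j 3 (by norm_num)
      have e2 := hβ4 (j + 1)
      have e3 : 4 * (j + 1) = 4 * j + 3 + 1 := by omega
      rw [e3] at e2
      rw [e1, e2]
      omega
  have hβanti : Antitone β := by
    refine antitone_nat_of_succ_le fun k => ?_
    have h1 := hstep (k / 4) (k % 4) (Nat.mod_lt _ (by norm_num))
    have e1 : 4 * (k / 4) + k % 4 = k := Nat.div_add_mod k 4
    rw [e1] at h1
    omega
  have hβr : ∀ j i, i < 4 → (β (4 * j + i) : ℝ) = (1 - (i : ℝ) / 4) * b j + (i : ℝ) / 4 * b (j + 1) := by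
    intro j i hi
    have h1 := hV4 j
    have h3 : i * V j ≤ b j := by
      have : i * V j ≤ 4 * V j := Nat.mul_le_mul_right _ hi.le
      omega
    rw [hβe j i hi, Nat.cast_sub h3]
    have h4 : (b j : ℝ) = b (j + 1) + 4 * V j := by exact_mod_cast h1
    push_cast
    rw [h4]
    ring
  -- the distance from the images
  have hclose : ∀ k, k ≤ 4 * N → (β k : ℝ) ≤ bs k - 3 ∧ bs k - (β k : ℝ) ≤ 9 := by
    intro k hk
    rcases Nat.lt_or_ge (k / 4) N with hj | hj
    · set j := k / 4 with hjdef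
      set i := k % 4 with hidef
      have hi : i < 4 := Nat.mod_lt _ (by norm_num)
      have e1 : 4 * j + i = k := Nat.div_add_mod k 4
      have h1 := hbb j
      have h2 := hbb (j + 1)
      rw [min_eq_left hj.le] at h1
      rw [min_eq_left (by omega : j + 1 ≤ N)] at h2
      have h3 := ginterp (s := fun i => bs (4 * j + i)) (fun a a' ha ha' => S.inc hC hloc hsmall hj ha ha') hi
      have h4 := abs_le.1 h3
      have h5 := hβr j i hi
      have e2 : 4 * j + 0 = 4 * j := rfl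
      have e3 : 4 * j + 4 = 4 * (j + 1) := by ring
      simp only [e2, e3, e1] at h4
      rw [e1] at h5
      have hi0 : (0 : ℝ) ≤ (i : ℝ) / 4 := by positivity
      have hi1 : 0 ≤ 1 - (i : ℝ) / 4 := by
        have : (i : ℝ) ≤ 4 := by exact_mod_cast hi.le
        linarith
      have u1 := mul_le_mul_of_nonneg_left h1.2 hi1
      have u2 := mul_le_mul_of_nonneg_left h2.2 hi0
      have u3 := mul_le_mul_of_nonneg_left h1.1.le hi1
      have u4 := mul_le_mul_of_nonneg_left h2.1.le hi0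
      constructor <;> linarith [h4.1, h4.2]
    · have hkN : k = 4 * N := by omega
      subst hkN
      have h1 := hbb N
      rw [min_self] at h1
      rw [hβ4 N]
      constructor <;> linarith [h1.1, h1.2]
  have hβ1 : ∀ k, 1 ≤ β k := by
    intro k
    have h1 : β (4 * (k / 4 + 1)) ≤ β k := hβanti (by omega)
    rw [hβ4] at h1
    have := hb17 (k / 4 + 1)
    omega
  refine ⟨β, V, hβanti, hstep, ?_, hβ1, hclose⟩
  intro j
  have h1 := hV4 j
  have h2 := hbb j
  have h3 := hbb (j + 1)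
  have h4 : bs (4 * min j N) - bs (4 * min (j + 1) N) ≤ Λ := by
    rcases Nat.lt_or_ge j N with hj | hj
    · rw [min_eq_left hj.le, min_eq_left (by omega : j + 1 ≤ N)]
      exact hdiff j hj
    · rw [min_eq_right hj, min_eq_right (by omega : N ≤ j + 1), sub_self]
      exact hΛ0
  have h5 : (b j : ℝ) = b (j + 1) + 4 * V j := by exact_mod_cast h1
  push_cast
  linarith [h2.2, h3.1]

/-- the numbers of a scale -/
theorem geo_scale {C : ℝ} (hC : 0 ≤ C) : ∃ A0 : ℕ, 1 ≤ A0 ∧ ∀ (A M : ℕ) (H : ℝ), A0 ≤ A → 4 ≤ M →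
    (M : ℝ) ≤ Real.log (tt A) → 0 ≤ H → H ^ 100 ≤ tt A →
    ∃ (ell R y z Λ : ℝ) (W N : ℕ), Scale A M H ell (Real.log (tt A)) R y z Λ W N ∧
      18 * (C * (1 + Λ) * tt A ^ (-(1 / 8) : ℝ)) * Λ * ell ≤ 1 / 8 ∧ ell ≤ 2 * Real.log (tt A) ^ 2 := by
  obtain ⟨X, hX1, hX⟩ := glarge C
  obtain ⟨A1, hA1⟩ := exists_nat_ge X
  refine ⟨max A1 1, le_max_right _ _, fun A M H hA hM hMl hH hHP => ?_⟩
  have hA' : A1 ≤ A := (le_max_left _ _).trans hA
  have hA1' : 1 ≤ A := (le_max_right _ _).trans hA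
  have hAr : (A1 : ℝ) ≤ A := by exact_mod_cast hA'
  have hPA : (A : ℝ) + 1 ≤ tt A := tt_ge A
  obtain ⟨hlam1, hR1, hR2, hR3⟩ := hX (tt A) (by linarith)
  set P := tt A with hP
  set lam := Real.log P with hlam
  set R := P ^ (1 / 100 : ℝ) with hR
  have hP0 : 0 < P := by linarith [tt_one_le A]
  have hP1 : 1 ≤ P := tt_one_le A
  have hR100 : R ^ 100 = P := by
    rw [hR, ← Real.rpow_natCast, ← Real.rpow_mul hP0.le]
    norm_num
  have hR1' : 1 ≤ R := by linarith
  have hHR : H ≤ R := by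
    refine le_of_not_gt fun h => ?_
    have h1 : R ^ 100 < H ^ 100 := pow_lt_pow_left₀ h (by linarith) (by norm_num)
    linarith
  have hRP : R ^ 4 ≤ P := by
    rw [← hR100]
    exact pow_le_pow_right₀ hR1' (by norm_num)
  set y : ℝ := P ^ M with hy
  have hy4 : P ^ 4 ≤ y := pow_le_pow_right₀ hP1 hM
  have hy0 : 0 < y := by positivity
  set ell := Real.log (2 * y) with hell
  have hlog2 := Real.log_two_lt_d9
  have hlog2' := Real.log_two_gt_d9
  have hell0 : ell = Real.log 2 + M * lam := by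
    rw [hell, hy, Real.log_mul (by norm_num) (by positivity), Real.log_pow]
  have hell2 : ell ≤ 2 * lam ^ 2 := by
    rw [hell0]
    have h1 : (M : ℝ) * lam ≤ lam * lam := mul_le_mul_of_nonneg_right hMl (by linarith)
    nlinarith
  have hell1 : 1 ≤ ell := by
    rw [hell0]
    have h1 : (4 : ℝ) ≤ M := by exact_mod_cast hM
    nlinarith
  have hellR : ell ≤ R := hell2.trans hR1
  set W : ℕ := ⌈H + 80 * ell⌉₊ + 1 with hW
  have hW1 : H + 80 * ell + 1 ≤ W := by
    rw [hW]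
    push_cast
    linarith [Nat.le_ceil (H + 80 * ell)]
  have hW2 : (W : ℝ) ≤ H + 80 * ell + 2 := by
    rw [hW]
    push_cast
    linarith [Nat.ceil_lt_add_one (show 0 ≤ H + 80 * ell by linarith)]
  have hW0 : 1 ≤ W := by omega
  have hWr : (1 : ℝ) ≤ W := by exact_mod_cast hW0
  set z : ℝ := y / 2 - H - 100 * ell with hz
  set Λ : ℝ := 32 * W * ell with hΛ
  have hWR : (W : ℝ) ≤ 83 * R := by linarith
  have hΛR : Λ ≤ 2656 * R ^ 2 := by
    rw [hΛ]
    have h1 : (W : ℝ) * ell ≤ (83 * R) * R := mul_le_mul hWR hellR (by linarith) (by linarith)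
    nlinarith
  have hΛ0 : 0 ≤ Λ := by positivity
  have hR24 : 2656 * R ^ 2 ≤ R ^ 4 := by
    have h1 : 2656 ≤ R ^ 2 := by nlinarith
    have h2 : 0 ≤ R ^ 2 := sq_nonneg R
    calc 2656 * R ^ 2 ≤ R ^ 2 * R ^ 2 := mul_le_mul_of_nonneg_right h1 h2
      _ = R ^ 4 := by ring
  -- the smallness of the variation
  have hP8 : P ^ (-(1 / 8) : ℝ) ≤ (R ^ 12)⁻¹ := by
    have h1 : (R ^ 12)⁻¹ = P ^ (-(12 / 100) : ℝ) := by
      rw [hR, ← Real.rpow_natCast, ← Real.rpow_mul hP0.le, ← Real.rpow_neg hP0.le]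
      norm_num
    rw [h1]
    exact Real.rpow_le_rpow_of_exponent_le hP1 (by norm_num)
  have hsmall : 18 * (C * (1 + Λ) * P ^ (-(1 / 8) : ℝ)) * Λ * ell ≤ 1 / 8 := by
    have h1 : 1 + Λ ≤ 2657 * R ^ 2 := by
      have : (1 : ℝ) ≤ R ^ 2 := by nlinarith
      linarith
    have h2 : 0 ≤ P ^ (-(1 / 8) : ℝ) := Real.rpow_nonneg hP0.le _
    have h3 : Λ * ell ≤ 2656 * R ^ 2 * R := mul_le_mul hΛR hellR (by linarith) (by positivity)
    have h4 : C * (1 + Λ) * P ^ (-(1 / 8) : ℝ) ≤ C * (2657 * R ^ 2) * (R ^ 12)⁻¹ := by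
      refine mul_le_mul (mul_le_mul_of_nonneg_left h1 hC) hP8 h2 (by positivity)
    have hR12 : (0 : ℝ) < R ^ 12 := by positivity
    calc 18 * (C * (1 + Λ) * P ^ (-(1 / 8) : ℝ)) * Λ * ell
        = 18 * (C * (1 + Λ) * P ^ (-(1 / 8) : ℝ)) * (Λ * ell) := by ring
      _ ≤ 18 * (C * (2657 * R ^ 2) * (R ^ 12)⁻¹) * (2656 * R ^ 2 * R) := by
          refine mul_le_mul (mul_le_mul_of_nonneg_left h4 (by norm_num)) h3 (by positivity) (by positivity)
      _ = 127025856 * C * (R ^ 5 / R ^ 12) := by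
          rw [div_eq_mul_inv]
          ring
      _ ≤ 127025856 * C * (1 / R) := by
          refine mul_le_mul_of_nonneg_left ?_ (by positivity)
          rw [div_le_div_iff₀ hR12 (by linarith)]
          have : R ^ 5 * R = R ^ 6 := by ring
          rw [this, one_mul]
          exact pow_le_pow_right₀ hR1' (by norm_num)
      _ ≤ 1 / 8 := by
          rw [mul_one_div, div_le_iff₀ (by linarith)]
          linarith
  have hyP : 1000 * (R * P) ≤ y := by
    have h1 : 1000 * R ≤ P := by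
      have h2 : 1000000000 * R ≤ R ^ 2 := by nlinarith
      have h3 : R ^ 2 ≤ R ^ 4 := pow_le_pow_right₀ hR1' (by norm_num)
      linarith
    have h4 : P ^ 2 ≤ P ^ 4 := pow_le_pow_right₀ hP1 (by norm_num)
    nlinarith
  have hRP1 : R ≤ R * P := le_mul_of_one_le_right (by linarith) hP1
  have hRP2 : P ≤ R * P := le_mul_of_one_le_left (by linarith) hR1'
  have hzP : P ≤ z := by
    rw [hz]
    linarith
  have hz1 : 1 ≤ z := by linarith
  have hMz : (A : ℝ) ≤ MM z := by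
    have h1 := MM_le (tt_one_le A) hzP
    rwa [MM_tt] at h1
  set N : ℕ := ⌊(MM z - A) / (4 * W)⌋₊ with hN
  have hN1 : (A : ℝ) + 4 * N * W ≤ MM z := by
    have h1 : (N : ℝ) ≤ (MM z - A) / (4 * W) := Nat.floor_le (by
      apply div_nonneg <;> linarith)
    rw [le_div_iff₀ (by linarith)] at h1
    linarith
  have hN2 : MM z < A + 4 * (N + 1) * W := by
    have h1 : (MM z - A) / (4 * W) < N + 1 := Nat.lt_floor_add_one _
    rw [div_lt_iff₀ (by linarith)] at h1
    linarith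
  have S : Scale A M H ell lam R y z Λ W N :=
    ⟨hA1', hy, hell, hell1, hellR, hR3, hRP, hH, hHR, hy4, hW1, hW2, hz, hΛ, by linarith, hN1, hN2⟩
  exact ⟨ell, R, y, z, Λ, W, N, S, hsmall, hell2⟩

end

end Pool.Agent.H68.GC
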