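import Pool.Agent.H68.GC.Stm

set_option autoImplicit false

/-! Project GC (helper68), for the module GEO (helper49): the windows of a block are nearly equal. -/

namespace Pool.Agent.H68.GC

open MeasureTheory Filter Topology Set
open Pool.Agent.H49.BZ

/-- the mass of an interval near `a0` -/
theorem mass_lin [Dens] {C : ℝ} (hC0 : 0 ≤ C) (hC : ∀ u v : ℝ, 2 ≤ u → u ≤ v → v ≤ 2 * u →
    |md v - md u| ≤ C * (1 + (v - u)) * u ^ (-(1 / 8) : ℝ)) {a0 a b L : ℝ} (h2 : 2 ≤ a0) (hL : L ≤ a0)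
    (ha : a0 ≤ a) (hab : a ≤ b) (hb : b ≤ a0 + L) :
    |MM b - MM a - md a0 * (b - a)| ≤ C * (1 + L) * a0 ^ (-(1 / 8) : ℝ) * (b - a) := by
  have hi : IntervalIntegrable md volume a b := md_int (by linarith) (by linarith)
  have hp : 0 ≤ a0 ^ (-(1 / 8) : ℝ) := Real.rpow_nonneg (by linarith) _
  rw [MM_sub (by linarith) (by linarith)]
  have e : (∫ u in a..b, md u) - md a0 * (b - a) = ∫ u in a..b, (md u - md a0) := by
    rw [intervalIntegral.integral_sub hi intervalIntegrable_const, intervalIntegral.integral_const, smul_eq_mul]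
    ring
  rw [e]
  have h1 : ∀ u ∈ Set.uIoc a b, ‖md u - md a0‖ ≤ C * (1 + L) * a0 ^ (-(1 / 8) : ℝ) := by
    intro u hu
    rw [Set.uIoc_of_le hab] at hu
    have h3 := hC a0 u h2 (by linarith [hu.1]) (by linarith [hu.2])
    rw [Real.norm_eq_abs]
    refine h3.trans ?_
    refine mul_le_mul_of_nonneg_right ?_ hp
    exact mul_le_mul_of_nonneg_left (by linarith [hu.2]) hC0
  have h3 := intervalIntegral.norm_integral_le_of_norm_le_const h1
  rw [Real.norm_eq_abs, abs_of_nonneg (by linarith : 0 ≤ b - a)] at h3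
  exact h3

/-- the masses of four reflected windows of equal mass -/
theorem group_lin [Dens] {C : ℝ} (hC0 : 0 ≤ C) (hC : ∀ u v : ℝ, 2 ≤ u → u ≤ v → v ≤ 2 * u →
    |md v - md u| ≤ C * (1 + (v - u)) * u ^ (-(1 / 8) : ℝ)) {P y ell L W : ℝ} (t : ℕ → ℝ) (hP : 2 ≤ P) (ht0 : P ≤ t 0)
    (hz : P ≤ y - t 4) (hell : Real.log (t 0) ≤ ell) (hell1 : 1 ≤ ell) (hL : t 4 - t 0 ≤ L) (hLP : L ≤ P)
    (hm : ∀ i, i ≤ 4 → t 0 ≤ t i ∧ t i ≤ t 4 ∧ MM (t i) - MM (t 0) = i * W) {i : ℕ} (hi : i ≤ 4) :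
    |MM (y - t i) - (MM (y - t 0) - i * (MM (y - t 0) - MM (y - t 4)) / 4)| ≤
      18 * C * (1 + L) * L * ell * P ^ (-(1 / 8) : ℝ) := by
  set η : ℝ := C * (1 + L) * P ^ (-(1 / 8) : ℝ) with hη
  have h04 : t 0 ≤ t 4 := (hm 4 le_rfl).1
  have hL0 : 0 ≤ L := by linarith
  have hη0 : 0 ≤ η := by
    have : 0 ≤ P ^ (-(1 / 8) : ℝ) := Real.rpow_nonneg (by linarith) _
    positivity
  have hpow : ∀ a : ℝ, P ≤ a → C * (1 + L) * a ^ (-(1 / 8) : ℝ) ≤ η := by
    intro a ha
    refine mul_le_mul_of_nonneg_left ?_ (by positivity)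
    exact Real.rpow_le_rpow_of_nonpos (by linarith) ha (by norm_num)
  -- left
  have hl : ∀ j, j ≤ 4 → |j * W - md (t 0) * (t j - t 0)| ≤ η * L := by
    intro j hj
    obtain ⟨h1, h2, h3⟩ := hm j hj
    have h4 := mass_lin hC0 hC (a0 := t 0) (a := t 0) (b := t j) (L := L) (by linarith) (by linarith) le_rfl h1
      (by linarith)
    rw [h3] at h4
    refine h4.trans ?_
    exact mul_le_mul (hpow _ ht0) (by linarith) (by linarith) hη0
  have hμ : 1 / (8 * ell) ≤ md (t 0) := by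
    refine le_trans ?_ (le_md (by linarith))
    have h5 : 0 < Real.log (t 0) := log_pos' (by linarith)
    exact one_div_le_one_div_of_le (by positivity) (by linarith)
  have hμ0 : 0 < md (t 0) := md_pos (by linarith)
  have hT : |(t i - t 0) - i / 4 * (t 4 - t 0)| ≤ 16 * ell * (η * L) := by
    have h1 := abs_le.1 (hl i hi)
    have h2 := abs_le.1 (hl 4 le_rfl)
    have hi0 : (0 : ℝ) ≤ i := Nat.cast_nonneg i
    have hi4 : (i : ℝ) ≤ 4 := by exact_mod_cast hi
    have h3 : |md (t 0) * ((t i - t 0) - i / 4 * (t 4 - t 0))| ≤ 2 * (η * L) := by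
      have hηL : 0 ≤ η * L := mul_nonneg hη0 hL0
      push_cast at h2
      have h6 : (i : ℝ) / 4 * (η * L) ≤ η * L := mul_le_of_le_one_left hηL (by linarith)
      have h7 : (i : ℝ) / 4 * (4 * W - md (t 0) * (t 4 - t 0)) ≤ i / 4 * (η * L) :=
        mul_le_mul_of_nonneg_left h2.2 (by positivity)
      have h8 : (i : ℝ) / 4 * (-(η * L)) ≤ i / 4 * (4 * W - md (t 0) * (t 4 - t 0)) :=
        mul_le_mul_of_nonneg_left h2.1 (by positivity)
      have e : md (t 0) * ((t i - t 0) - i / 4 * (t 4 - t 0)) =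
          -(i * W - md (t 0) * (t i - t 0)) + i / 4 * (4 * W - md (t 0) * (t 4 - t 0)) := by ring
      rw [e]
      refine abs_le.2 ⟨by linarith [h1.2], by linarith [h1.1]⟩
    rw [abs_mul, abs_of_pos hμ0] at h3
    have h4 : 1 / (8 * ell) * |(t i - t 0) - i / 4 * (t 4 - t 0)| ≤ 2 * (η * L) :=
      le_trans (mul_le_mul_of_nonneg_right hμ (abs_nonneg _)) h3
    have h5 : 0 < 8 * ell := by linarith
    rw [one_div, inv_mul_le_iff₀ h5] at h4
    refine h4.trans (le_of_eq ?_)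
    ring
  -- right
  have hr : ∀ j, j ≤ 4 → |MM (y - t j) - MM (y - t 4) - md (y - t 4) * (t 4 - t j)| ≤ η * L := by
    intro j hj
    obtain ⟨h1, h2, -⟩ := hm j hj
    have h4 := mass_lin hC0 hC (a0 := y - t 4) (a := y - t 4) (b := y - t j) (L := L) (by linarith) (by linarith) le_rfl
      (by linarith) (by linarith)
    have e : y - t j - (y - t 4) = t 4 - t j := by ring
    rw [e] at h4
    refine h4.trans ?_
    exact mul_le_mul (hpow _ hz) (by linarith) (by linarith) hη0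
  have hν1 : md (y - t 4) ≤ 1 := md_le_one (by linarith)
  have hν0 : 0 ≤ md (y - t 4) := md_nonneg (by linarith)
  have h1 := abs_le.1 (hr i hi)
  have h2 := abs_le.1 (hr 0 (by norm_num))
  have hi0 : (0 : ℝ) ≤ i := Nat.cast_nonneg i
  have hi4 : (i : ℝ) ≤ 4 := by exact_mod_cast hi
  have hηL : 0 ≤ η * L := mul_nonneg hη0 hL0
  set R := MM (y - t 0) - MM (y - t 4) - md (y - t 4) * (t 4 - t 0) with hR
  set Q := MM (y - t i) - MM (y - t 4) - md (y - t 4) * (t 4 - t i) with hQ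
  have e : MM (y - t i) - (MM (y - t 0) - i * (MM (y - t 0) - MM (y - t 4)) / 4) =
      Q - (1 - i / 4) * R - md (y - t 4) * ((t i - t 0) - i / 4 * (t 4 - t 0)) := by
    rw [hQ, hR]
    ring
  have h3 : |md (y - t 4) * ((t i - t 0) - i / 4 * (t 4 - t 0))| ≤ 16 * ell * (η * L) := by
    rw [abs_mul, abs_of_nonneg hν0]
    refine le_trans (mul_le_of_le_one_left (abs_nonneg _) hν1) hT
  have h4 := abs_le.1 h3
  have h5 : (1 - (i : ℝ) / 4) * R ≤ η * L := by
    have h6 : (1 - (i : ℝ) / 4) * R ≤ (1 - i / 4) * (η * L) := mul_le_mul_of_nonneg_left h2.2 (by linarith)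
    have h7 : (1 - (i : ℝ) / 4) * (η * L) ≤ η * L := mul_le_of_le_one_left hηL (by linarith)
    linarith
  have h6 : -(η * L) ≤ (1 - (i : ℝ) / 4) * R := by
    have h6 : (1 - (i : ℝ) / 4) * (-(η * L)) ≤ (1 - i / 4) * R := mul_le_mul_of_nonneg_left h2.1 (by linarith)
    have h7 : (1 - (i : ℝ) / 4) * (η * L) ≤ η * L := mul_le_of_le_one_left hηL (by linarith)
    linarith
  have h7 : 2 * (η * L) ≤ 2 * ell * (η * L) := by
    have := mul_le_mul_of_nonneg_right hell1 hηL
    linarith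
  have e2 : 18 * C * (1 + L) * L * ell * P ^ (-(1 / 8) : ℝ) = 16 * ell * (η * L) + 2 * ell * (η * L) := by
    rw [hη]
    ring
  rw [e, e2]
  exact abs_le.2 ⟨by linarith [h1.1, h4.2], by linarith [h1.2, h4.1]⟩

/-- the size of the error -/
theorem err_small {C : ℝ} (hC : 0 ≤ C) : ∃ P0 : ℝ, 2 ≤ P0 ∧ ∀ P H : ℝ, P0 ≤ P → 0 ≤ H → H ^ 100 ≤ P →
    C * (H + 1) ^ 2 * Real.log P ^ 10 * P ^ (-(1 / 8) : ℝ) ≤ 1 := by
  have h1 : Tendsto (fun x : ℝ => 4 * C * Real.log x ^ 10 * x ^ (-(1 / 10) : ℝ)) atTop (𝓝 0) := by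
    have h3 := (isLittleO_log_rpow_rpow_atTop (s := 1 / 10) (10 : ℝ) (by norm_num)).tendsto_div_nhds_zero
    have h4 := h3.const_mul (4 * C)
    rw [mul_zero] at h4
    refine h4.congr' ?_
    filter_upwards [eventually_gt_atTop (0 : ℝ)] with x hx
    rw [Real.rpow_neg hx.le]
    have e : Real.log x ^ (10 : ℝ) = Real.log x ^ (10 : ℕ) := by
      rw [show (10 : ℝ) = ((10 : ℕ) : ℝ) by norm_num, Real.rpow_natCast]
    rw [e]
    ring
  obtain ⟨B, hB⟩ := (h1.eventually (eventually_le_nhds (b := (1 : ℝ)) (by norm_num))).exists_forall_of_atTop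
  refine ⟨max B 2, le_max_right _ _, fun P H hP hH hHP => ?_⟩
  have hP2 : 2 ≤ P := (le_max_right _ _).trans hP
  have hP0 : 0 < P := by linarith
  have h5 := hB P ((le_max_left _ _).trans hP)
  have h6 : (H + 1) ^ 2 ≤ 4 * P ^ (1 / 50 : ℝ) := by
    have hP1 : 1 ≤ P ^ (1 / 50 : ℝ) := Real.one_le_rpow (by linarith) (by norm_num)
    rcases le_or_gt H 1 with h | h
    · nlinarith
    · have h7 : H ^ 2 ≤ P ^ (1 / 50 : ℝ) := by
        have h8 : (H ^ 100) ^ (1 / 50 : ℝ) ≤ P ^ (1 / 50 : ℝ) := Real.rpow_le_rpow (by positivity) hHP (by norm_num)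
        have e : (H ^ 100) ^ (1 / 50 : ℝ) = H ^ 2 := by
          rw [← Real.rpow_natCast H 100, ← Real.rpow_mul hH, ← Real.rpow_natCast H 2]
          norm_num
        rwa [e] at h8
      nlinarith
  have hl : 0 ≤ Real.log P := Real.log_nonneg (by linarith)
  have h7 : P ^ (1 / 50 : ℝ) * P ^ (-(1 / 8) : ℝ) ≤ P ^ (-(1 / 10) : ℝ) := by
    rw [← Real.rpow_add hP0]
    exact Real.rpow_le_rpow_of_exponent_le (by linarith) (by norm_num)
  have hp8 : 0 ≤ P ^ (-(1 / 8) : ℝ) := by positivity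
  calc C * (H + 1) ^ 2 * Real.log P ^ 10 * P ^ (-(1 / 8) : ℝ)
      ≤ C * (4 * P ^ (1 / 50 : ℝ)) * Real.log P ^ 10 * P ^ (-(1 / 8) : ℝ) := by
        refine mul_le_mul_of_nonneg_right ?_ hp8
        refine mul_le_mul_of_nonneg_right ?_ (by positivity)
        exact mul_le_mul_of_nonneg_left h6 hC
    _ = 4 * C * Real.log P ^ 10 * (P ^ (1 / 50 : ℝ) * P ^ (-(1 / 8) : ℝ)) := by ring
    _ ≤ 4 * C * Real.log P ^ 10 * P ^ (-(1 / 10) : ℝ) := mul_le_mul_of_nonneg_left h7 (by positivity)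
    _ ≤ 1 := h5

/-- the size of one window -/
theorem win_size [Dens] {y t t' ell W : ℝ} (ht : 2 ≤ t) (htt : t ≤ t') (hy : t' + 2 ≤ y) (hell : Real.log y ≤ ell)
    (hm : MM t' - MM t = W) : W ≤ t' - t ∧ t' - t ≤ 8 * W * ell ∧ W ≤ 8 * ell * (MM (y - t) - MM (y - t')) ∧
      MM (y - t) - MM (y - t') ≤ 8 * W * ell := by
  have h1 := MM_sub_le (a := t) (b := t') (by linarith) htt
  have h2 := le_MM_inc (a := t) (b := t') ht htt
  have hlt : 0 < Real.log t' := log_pos' (by linarith)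
  have hlt2 : Real.log t' ≤ ell := (Real.log_le_log (by linarith) (by linarith)).trans hell
  rw [div_le_iff₀ (by positivity), hm] at h2
  rw [hm] at h1
  have hW0 : 0 ≤ W := by
    rw [← hm]
    linarith [MM_le (a := t) (b := t') (by linarith) htt]
  have h3 : W * (8 * Real.log t') ≤ 8 * W * ell := by
    have := mul_le_mul_of_nonneg_left hlt2 hW0
    linarith
  have h4 := MM_sub_le (a := y - t') (b := y - t) (by linarith) (by linarith)
  have h5 := le_MM_inc (a := y - t') (b := y - t) (by linarith) (by linarith)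
  have hlt3 : 0 < Real.log (y - t) := log_pos' (by linarith)
  have hlt4 : Real.log (y - t) ≤ ell := (Real.log_le_log (by linarith) (by linarith)).trans hell
  rw [div_le_iff₀ (by positivity)] at h5
  have h6 : 0 ≤ MM (y - t) - MM (y - t') := sub_nonneg.2 (MM_le (by linarith) (by linarith))
  have h7 := mul_le_mul_of_nonneg_left hlt4 h6
  refine ⟨h1, by linarith, by linarith, by linarith⟩

/-- the windows of a block are nearly equal; the right windows are neither too small nor too large -/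
theorem lin [Dens] (loc : Loc) (w0 : ℝ) : ∃ A0 : ℕ, 1 ≤ A0 ∧ ∀ (A M W : ℕ) (H : ℝ), A0 ≤ A → 4 ≤ M →
    (M : ℝ) ≤ Real.log (tt A) → 0 ≤ H → H ^ 100 ≤ tt A → 1 ≤ W → (W : ℝ) ≤ w0 * (H + 1) * Real.log (tt A) ^ 2 →
    (∀ k : ℕ, tt (A + (k + 1) * W) ≤ 3 / 4 * tt A ^ M →
      (W : ℝ) ≤ 8 * Real.log (tt A) ^ 2 * (MM (tt A ^ M - tt (A + k * W)) - MM (tt A ^ M - tt (A + (k + 1) * W))) ∧
      MM (tt A ^ M - tt (A + k * W)) - MM (tt A ^ M - tt (A + (k + 1) * W)) ≤ 8 * W * Real.log (tt A) ^ 2) ∧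
    ∀ k : ℕ, tt (A + (k + 4) * W) ≤ 3 / 4 * tt A ^ M → ∀ i : ℕ, i ≤ 4 →
      |MM (tt A ^ M - tt (A + (k + i) * W)) - (MM (tt A ^ M - tt (A + k * W)) -
        i * (MM (tt A ^ M - tt (A + k * W)) - MM (tt A ^ M - tt (A + (k + 4) * W))) / 4)| ≤ 1 := by
  obtain ⟨C, hC0, hC⟩ := loc
  set D : ℝ := 18 * C * (1 + 32 * |w0|) ^ 2 + 32 * |w0| with hD
  have hw0 : 0 ≤ |w0| := abs_nonneg _
  have hD0 : 0 ≤ D := by positivity
  obtain ⟨P0, hP02, hP0⟩ := err_small hD0
  obtain ⟨A0, hA0⟩ := exists_nat_ge (P0 + 16)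
  refine ⟨A0, ?_, fun A M W H hA hM hMl hH hHP hW hWw => ?_⟩
  · have h1 : (1 : ℝ) ≤ A0 := by linarith
    exact_mod_cast h1
  set P := tt A with hP
  have hAP : (A : ℝ) + 1 ≤ P := tt_ge A
  have hAr : (A0 : ℝ) ≤ A := by exact_mod_cast hA
  have hPP0 : P0 ≤ P := by linarith
  have hP16 : 16 ≤ P := by linarith
  have hPpos : 0 < P := by linarith
  set lam := Real.log P with hlam
  have hM4 : (4 : ℝ) ≤ M := by exact_mod_cast hM
  have hlam4 : 4 ≤ lam := by linarith
  set y := P ^ M with hy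
  have hyP : 16 * P ≤ y := by
    have h1 : P ^ 2 ≤ P ^ M := pow_le_pow_right₀ (by linarith) (by omega)
    nlinarith
  have hlogy : Real.log y ≤ lam ^ 2 := by
    rw [hy, Real.log_pow]
    nlinarith
  have hWr : (1 : ℝ) ≤ W := by exact_mod_cast hW
  have hMt : ∀ j : ℕ, MM (tt (A + j * W)) = A + j * W := by
    intro j
    rw [MM_tt]
    push_cast
    ring
  have htP : ∀ j : ℕ, P ≤ tt (A + j * W) := fun j => tt_mono.monotone (by omega)
  have htm : ∀ j j' : ℕ, j ≤ j' → tt (A + j * W) ≤ tt (A + j' * W) := by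
    intro j j' h
    refine tt_mono.monotone ?_
    have := Nat.mul_le_mul_right W h
    omega
  refine ⟨fun k hk => ?_, fun k hk i hi => ?_⟩
  · have h1 : MM (tt (A + (k + 1) * W)) - MM (tt (A + k * W)) = (W : ℝ) := by
      have h2 := hMt (k + 1)
      push_cast at h2
      rw [h2, hMt k]
      ring
    obtain ⟨-, -, h2, h3⟩ := win_size (y := y) (ell := lam ^ 2) (by linarith [htP k]) (htm k (k + 1) (Nat.le_succ k))
      (by linarith) hlogy h1
    exact ⟨h2, h3⟩
  · -- the error term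
    have herr := hP0 P H hPP0 hH hHP
    have hp8 : 0 < P ^ (-(1 / 8) : ℝ) := Real.rpow_pos_of_pos hPpos _
    have hp8' : P ^ (-(1 / 8) : ℝ) ≤ 1 := Real.rpow_le_one_of_one_le_of_nonpos (by linarith) (by norm_num)
    have hlam0 : 0 ≤ lam := by linarith
    have hlp : 1 ≤ (H + 1) * lam ^ 4 := by
      have h1 : (1 : ℝ) ≤ lam ^ 4 := one_le_pow₀ (by linarith)
      nlinarith
    set L : ℝ := 32 * |w0| * ((H + 1) * lam ^ 4) with hL
    have hL0 : 0 ≤ L := by positivity
    have hWw' : (W : ℝ) ≤ |w0| * (H + 1) * lam ^ 2 := by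
      refine hWw.trans ?_
      refine mul_le_mul_of_nonneg_right ?_ (by positivity)
      exact mul_le_mul_of_nonneg_right (le_abs_self _) (by linarith)
    have hk4 := hMt (k + 4)
    push_cast at hk4
    have h4W : MM (tt (A + (k + 4) * W)) - MM (tt (A + k * W)) = 4 * (W : ℝ) := by
      rw [hk4, hMt k]
      ring
    obtain ⟨-, h5, -, -⟩ := win_size (y := y) (ell := lam ^ 2) (by linarith [htP k]) (htm k (k + 4) (by omega))
      (by linarith) hlogy h4W
    have hLt : tt (A + (k + 4) * W) - tt (A + k * W) ≤ L := by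
      refine h5.trans ?_
      have h6 : (W : ℝ) * lam ^ 2 ≤ |w0| * (H + 1) * lam ^ 2 * lam ^ 2 :=
        mul_le_mul_of_nonneg_right hWw' (by positivity)
      calc 8 * (4 * (W : ℝ)) * lam ^ 2 = 32 * (W * lam ^ 2) := by ring
        _ ≤ 32 * (|w0| * (H + 1) * lam ^ 2 * lam ^ 2) := by linarith
        _ = L := by
            rw [hL]
            ring
    have h1L : 1 + L ≤ (1 + 32 * |w0|) * ((H + 1) * lam ^ 4) := by
      rw [hL]
      linarith
    have hq1 : (H + 1) * lam ^ 4 ≤ (H + 1) ^ 2 * lam ^ 10 := by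
      have h1 : (1 : ℝ) ≤ lam ^ 6 := one_le_pow₀ (by linarith)
      have h2 : (H + 1) * lam ^ 4 ≤ (H + 1) * lam ^ 4 * ((H + 1) * lam ^ 6) := by
        refine le_mul_of_one_le_right (by positivity) ?_
        nlinarith
      refine h2.trans (le_of_eq ?_)
      ring
    have hLP : L ≤ P := by
      have h1 : L * P ^ (-(1 / 8) : ℝ) ≤ 1 := by
        refine le_trans ?_ herr
        refine mul_le_mul_of_nonneg_right ?_ hp8.le
        calc L = 32 * |w0| * ((H + 1) * lam ^ 4) := rfl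
          _ ≤ D * ((H + 1) ^ 2 * lam ^ 10) := by
              refine mul_le_mul ?_ hq1 (by positivity) hD0
              rw [hD]
              have : 0 ≤ 18 * C * (1 + 32 * |w0|) ^ 2 := by positivity
              linarith
          _ = _ := by ring
      have h2 : P ^ (-(1 : ℝ)) ≤ P ^ (-(1 / 8) : ℝ) :=
        Real.rpow_le_rpow_of_exponent_le (by linarith) (by norm_num)
      rw [Real.rpow_neg_one] at h2
      have h3 : L * P⁻¹ ≤ 1 := (mul_le_mul_of_nonneg_left h2 hL0).trans h1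
      rwa [← div_eq_mul_inv, div_le_one hPpos] at h3
    have hmain := group_lin hC0 hC (P := P) (y := y) (ell := lam ^ 2) (L := L) (W := W) (fun j => tt (A + (k + j) * W))
      (by linarith) (htP (k + 0)) (by
        show P ≤ y - tt (A + (k + 4) * W)
        linarith) (by
        refine (Real.log_le_log (by linarith [htP (k + 0)]) ?_).trans hlogy
        show tt (A + (k + 0) * W) ≤ y
        have := htm (k + 0) (k + 4) (by omega)
        linarith) (by nlinarith) (by
        show tt (A + (k + 4) * W) - tt (A + (k + 0) * W) ≤ L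
        exact hLt) hLP (fun j hj => ⟨htm _ _ (by omega), htm _ _ (by omega), by
          show MM (tt (A + (k + j) * W)) - MM (tt (A + (k + 0) * W)) = j * W
          have h1 := hMt (k + j)
          have h2 := hMt (k + 0)
          push_cast at h1 h2
          rw [h1, h2]
          ring⟩) hi
    refine le_trans hmain ?_
    refine le_trans ?_ herr
    refine mul_le_mul_of_nonneg_right ?_ hp8.le
    have h8 : (1 + L) * L ≤ ((1 + 32 * |w0|) * ((H + 1) * lam ^ 4)) ^ 2 := by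
      have h9 : L ≤ 1 + L := by linarith
      calc (1 + L) * L ≤ (1 + L) * (1 + L) := mul_le_mul_of_nonneg_left h9 (by linarith)
        _ = (1 + L) ^ 2 := by ring
        _ ≤ _ := pow_le_pow_left₀ (by linarith) h1L 2
    calc 18 * C * (1 + L) * L * lam ^ 2 = 18 * C * ((1 + L) * L) * lam ^ 2 := by ring
      _ ≤ 18 * C * ((1 + 32 * |w0|) * ((H + 1) * lam ^ 4)) ^ 2 * lam ^ 2 := by
          refine mul_le_mul_of_nonneg_right ?_ (by positivity)
          exact mul_le_mul_of_nonneg_left h8 (by positivity)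
      _ = 18 * C * (1 + 32 * |w0|) ^ 2 * (H + 1) ^ 2 * lam ^ 10 := by ring
      _ ≤ D * (H + 1) ^ 2 * lam ^ 10 := by
          refine mul_le_mul_of_nonneg_right ?_ (by positivity)
          refine mul_le_mul_of_nonneg_right ?_ (by positivity)
          rw [hD]
          linarith

end Pool.Agent.H68.GC
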