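import Pool.Agent.H68.GC.Stm
import Pool.Agent.H49.KZ.Var
import Pool.Agent.H49.BZ.Win

set_option autoImplicit false

/-! Project GC (helper68), module LOC (helper49): the local variation of the density with prescribed zeros. -/

namespace Pool.Agent.H68.GC

open MeasureTheory Filter Topology Set
open Pool.Agent.H49.BZ

/-- the number of the starts up to `v` is `O(v ^ (3 / 8))` -/
theorem starts {γ : ℕ → ℝ} (h0 : ∀ k, 0 < γ k) {C : ℝ} (hC1 : 1 ≤ C)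
    (hidx : ∀ k : ℕ, (k : ℝ) + 1 ≤ C * (1 + γ k) ^ (3 / 2 : ℝ)) {v : ℝ} (hv : 0 ≤ v) {k : ℕ} (hk : UU γ k ≤ v) :
    (k : ℝ) + 1 ≤ C * v ^ (3 / 8 : ℝ) := by
  have hK : (0 : ℝ) < (k : ℝ) + 1 := by positivity
  have hg : 0 < 1 + γ k := by linarith [h0 k]
  have h1 : ((k : ℝ) + 1) ^ 2 * (1 + γ k) ≤ v := by
    refine le_trans ?_ ((UU_ge h0 k).trans hk)
    refine mul_le_mul_of_nonneg_right ?_ hg.le
    refine pow_le_pow_left₀ hK.le ?_ 2
    have := Nat.cast_nonneg (α := ℝ) k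
    linarith
  have h2 : ((k : ℝ) + 1) ^ 4 ≤ C * v ^ (3 / 2 : ℝ) := by
    have e1 : (((k : ℝ) + 1) ^ 2) ^ (3 / 2 : ℝ) = ((k : ℝ) + 1) ^ 3 := by
      rw [← Real.rpow_natCast ((k : ℝ) + 1) 2, ← Real.rpow_mul hK.le, ← Real.rpow_natCast ((k : ℝ) + 1) 3]
      norm_num
    calc ((k : ℝ) + 1) ^ 4 = ((k : ℝ) + 1) ^ 3 * ((k : ℝ) + 1) := by ring
      _ ≤ ((k : ℝ) + 1) ^ 3 * (C * (1 + γ k) ^ (3 / 2 : ℝ)) := mul_le_mul_of_nonneg_left (hidx k) (by positivity)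
      _ = C * (((k : ℝ) + 1) ^ 2 * (1 + γ k)) ^ (3 / 2 : ℝ) := by
          rw [Real.mul_rpow (by positivity) hg.le, e1]
          ring
      _ ≤ C * v ^ (3 / 2 : ℝ) :=
          mul_le_mul_of_nonneg_left (Real.rpow_le_rpow (by positivity) h1 (by norm_num)) (by linarith)
  have h3 : C * v ^ (3 / 2 : ℝ) ≤ (C * v ^ (3 / 8 : ℝ)) ^ 4 := by
    have e2 : (v ^ (3 / 8 : ℝ)) ^ 4 = v ^ (3 / 2 : ℝ) := by
      rw [← Real.rpow_natCast (v ^ (3 / 8 : ℝ)) 4, ← Real.rpow_mul hv]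
      norm_num
    rw [mul_pow, e2]
    refine mul_le_mul_of_nonneg_right ?_ (by positivity)
    exact le_self_pow₀ hC1 (by norm_num)
  exact (pow_le_pow_iff_left₀ hK.le (by positivity) (by norm_num)).1 (h2.trans h3)

/-- the jumps between `u` and `v` -/
theorem JJ_diff {γ : ℕ → ℝ} (h0 : ∀ k, 0 < γ k) {C : ℝ} (hC1 : 1 ≤ C)
    (hidx : ∀ k : ℕ, (k : ℝ) + 1 ≤ C * (1 + γ k) ^ (3 / 2 : ℝ)) {u v : ℝ} (hu : 2 ≤ u) (huv : u ≤ v) :
    JJ γ v - JJ γ u ≤ C * v ^ (3 / 8 : ℝ) * (4 / √u) := by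
  have hu0 : 0 < √u := Real.sqrt_pos.2 (by linarith)
  rw [JJ_eq h0 (le_rfl : KK v ≤ KK v), JJ_eq h0 (KKm huv), ← Finset.sum_sub_distrib]
  have h1 : ∀ k ∈ Finset.range (KK v), ((if UU γ k ≤ v then 4 / √(UU γ k) else 0) -
      (if UU γ k ≤ u then 4 / √(UU γ k) else 0)) ≤
      if k ∈ Finset.range ⌊C * v ^ (3 / 8 : ℝ)⌋₊ then 4 / √u else 0 := by
    intro k _
    have hnn : (0 : ℝ) ≤ 4 / √u := by positivity
    by_cases h2 : UU γ k ≤ u
    · rw [if_pos h2, if_pos (h2.trans huv), sub_self]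
      split_ifs
      · exact hnn
      · exact le_rfl
    · rw [if_neg h2, sub_zero]
      push Not at h2
      by_cases h3 : UU γ k ≤ v
      · rw [if_pos h3]
        have h4 := starts h0 hC1 hidx (by linarith : 0 ≤ v) h3
        have h5 : k < ⌊C * v ^ (3 / 8 : ℝ)⌋₊ := by
          refine Nat.lt_of_succ_le (Nat.le_floor ?_)
          push_cast
          exact h4
        rw [if_pos (Finset.mem_range.2 h5)]
        exact div_le_div_of_nonneg_left (by norm_num) hu0 (Real.sqrt_le_sqrt h2.le)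
      · rw [if_neg h3]
        split_ifs
        · exact hnn
        · exact le_rfl
  refine (Finset.sum_le_sum h1).trans ?_
  rw [← Finset.sum_filter]
  have h2 : (Finset.range (KK v)).filter (fun k => k ∈ Finset.range ⌊C * v ^ (3 / 8 : ℝ)⌋₊) ⊆
      Finset.range ⌊C * v ^ (3 / 8 : ℝ)⌋₊ := by
    intro k hk
    exact (Finset.mem_filter.1 hk).2
  rw [Finset.sum_const, nsmul_eq_mul]
  refine mul_le_mul_of_nonneg_right ?_ (by positivity)
  have h3 := Finset.card_le_card h2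
  rw [Finset.card_range] at h3
  have h4 : (⌊C * v ^ (3 / 8 : ℝ)⌋₊ : ℝ) ≤ C * v ^ (3 / 8 : ℝ) := Nat.floor_le (by
    have : 0 ≤ v ^ (3 / 8 : ℝ) := Real.rpow_nonneg (by linarith) _
    positivity)
  exact le_trans (by exact_mod_cast h3) h4

theorem t_LOC : S_LOC := by
  intro γ h0 hm hW
  obtain ⟨C, hC1, hidx⟩ := idx h0 hm hW
  refine ⟨⟨15 + 8 * C, by linarith, fun u v hu huv hv2 => ?_⟩, fun u hu => nd_up h0 hu⟩
  have hu0 : 0 < u := by linarith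
  have hsu : 0 < √u := Real.sqrt_pos.2 hu0
  have h1 : |nd γ v - nd γ u| ≤ VV γ v - VV γ u := by
    rw [abs_sub_comm]
    exact nd_var h0 hu huv
  have h2 := JJ_diff h0 hC1 hidx hu huv
  have h3 : √v - √u ≤ (v - u) / √u := by
    rw [le_div_iff₀ hsu]
    have h4 : √v * √v = v := Real.mul_self_sqrt (by linarith)
    have h5 : √u * √u = u := Real.mul_self_sqrt hu0.le
    have h6 : √u ≤ √v := Real.sqrt_le_sqrt huv
    nlinarith
  have hr : u ^ (-(1 / 2) : ℝ) = (√u)⁻¹ := by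
    rw [Real.rpow_neg hu0.le, ← Real.sqrt_eq_rpow]
  have h7 : (√u)⁻¹ ≤ u ^ (-(1 / 8) : ℝ) := by
    rw [← hr]
    exact Real.rpow_le_rpow_of_exponent_le (by linarith) (by norm_num)
  have h8 : v ^ (3 / 8 : ℝ) * (√u)⁻¹ ≤ 2 * u ^ (-(1 / 8) : ℝ) := by
    have h9 : v ^ (3 / 8 : ℝ) ≤ 2 * u ^ (3 / 8 : ℝ) := by
      refine (Real.rpow_le_rpow (by linarith) hv2 (by norm_num)).trans ?_
      rw [Real.mul_rpow (by norm_num) hu0.le]
      refine mul_le_mul_of_nonneg_right ?_ (by positivity)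
      have h10 : (2 : ℝ) ^ (3 / 8 : ℝ) ≤ 2 ^ (1 : ℝ) := Real.rpow_le_rpow_of_exponent_le (by norm_num) (by norm_num)
      rwa [Real.rpow_one] at h10
    have e : u ^ (3 / 8 : ℝ) * u ^ (-(1 / 2) : ℝ) = u ^ (-(1 / 8) : ℝ) := by
      rw [← Real.rpow_add hu0]
      norm_num
    rw [← hr, ← e]
    have h11 : 0 ≤ u ^ (-(1 / 2) : ℝ) := by positivity
    have := mul_le_mul_of_nonneg_right h9 h11
    linarith
  have hvu : 0 ≤ v - u := by linarith
  have h12 : (v - u) / √u ≤ (v - u) * u ^ (-(1 / 8) : ℝ) := by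
    rw [div_eq_mul_inv]
    exact mul_le_mul_of_nonneg_left h7 hvu
  have hp : 0 ≤ u ^ (-(1 / 8) : ℝ) := by positivity
  have h13 : C * v ^ (3 / 8 : ℝ) * (4 / √u) ≤ 8 * C * u ^ (-(1 / 8) : ℝ) := by
    have e : C * v ^ (3 / 8 : ℝ) * (4 / √u) = 4 * C * (v ^ (3 / 8 : ℝ) * (√u)⁻¹) := by
      rw [div_eq_mul_inv]
      ring
    rw [e]
    have := mul_le_mul_of_nonneg_left h8 (by linarith : 0 ≤ 4 * C)
    linarith
  have h14 : VV γ v - VV γ u = 15 * (√v - √u) + (JJ γ v - JJ γ u) := by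
    unfold VV
    ring
  refine h1.trans ?_
  rw [h14]
  have h15 : 15 * (√v - √u) ≤ 15 * ((v - u) * u ^ (-(1 / 8) : ℝ)) := by linarith
  have h16 : 0 ≤ (v - u) * u ^ (-(1 / 8) : ℝ) := mul_nonneg hvu hp
  have h17 : 0 ≤ C * ((v - u) * u ^ (-(1 / 8) : ℝ)) := mul_nonneg (by linarith) h16
  have e : (15 + 8 * C) * (1 + (v - u)) * u ^ (-(1 / 8) : ℝ) = 15 * u ^ (-(1 / 8) : ℝ) + 8 * C * u ^ (-(1 / 8) : ℝ) +
      15 * ((v - u) * u ^ (-(1 / 8) : ℝ)) + 8 * (C * ((v - u) * u ^ (-(1 / 8) : ℝ))) := by ring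
  rw [e]
  linarith

end Pool.Agent.H68.GC
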