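import Pool.Agent.H68.GC.Loc
import Pool.Agent.H49.KZ.Sys0

set_option autoImplicit false

/-! Project GC (helper68): intervals of the length `y ^ δ` always contain a sum of two primes. -/

namespace Pool.Agent.H68.GC

open MeasureTheory Filter Topology Set
open Pool.Agent.H49.BZ

theorem sharp {γ : ℕ → ℝ} (h0 : ∀ k, 0 < γ k) {q : ℕ → ℝ} (hq0 : 1 < q 0) (hE : ExplicitFormula q γ) {δ : ℝ}
    (hδ : 0 < δ) : ∃ Y : ℝ, ∀ y : ℝ, Y ≤ y → ∃ i j : ℕ, y ≤ q i + q j ∧ q i + q j ≤ y + y ^ δ := by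
  let _ : Dens := dens γ h0
  obtain ⟨ε, hε, hε1, hεδ⟩ : ∃ ε : ℝ, 0 < ε ∧ 2 * ε ≤ 1 ∧ 2 * ε ≤ δ :=
    ⟨min δ 1 / 2, by positivity, by linarith [min_le_right δ 1], by linarith [min_le_left δ 1]⟩
  obtain ⟨C, hC⟩ := hE ε hε
  have hC' : ∀ x : ℝ, 1 ≤ x → |(primeCount q x : ℝ) - MM x| ≤ C * x ^ ε := hC
  have h1 := (isLittleO_log_rpow_atTop hε).bound (show (0 : ℝ) < 1 / (64 * (|C| + 1)) by positivity)
  obtain ⟨X, hX⟩ := h1.exists_forall_of_atTop
  refine ⟨max X (q 0 + 2), fun y hy => ?_⟩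
  have hy1 : X ≤ y := (le_max_left _ _).trans hy
  have hy2 : q 0 + 2 ≤ y := (le_max_right _ _).trans hy
  have hy0 : 0 < y := by linarith
  have hlog : 64 * (|C| + 1) * Real.log y ≤ y ^ ε := by
    have h2 := hX y hy1
    rw [Real.norm_of_nonneg (Real.log_nonneg (by linarith)), Real.norm_of_nonneg (Real.rpow_nonneg hy0.le _),
      div_mul_eq_mul_div, one_mul, le_div_iff₀ (by positivity)] at h2
    linarith
  have hl0 : 0 < Real.log y := Real.log_pos (by linarith)
  by_contra hcon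
  push Not at hcon
  have hyd : y ^ (2 * ε) ≤ y := by
    calc y ^ (2 * ε) ≤ y ^ (1 : ℝ) := Real.rpow_le_rpow_of_exponent_le (by linarith) hε1
      _ = y := Real.rpow_one y
  have hyd' : y ^ (2 * ε) ≤ y ^ δ := Real.rpow_le_rpow_of_exponent_le (by linarith) hεδ
  have hyp : 0 < y ^ (2 * ε) := Real.rpow_pos_of_pos hy0 _
  have heq : primeCount q (y - q 0 + y ^ (2 * ε)) = primeCount q (y - q 0) := by
    unfold primeCount
    congr 1
    ext j
    constructor
    · intro hj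
      have hj' : q j ≤ y - q 0 + y ^ (2 * ε) := hj
      show q j ≤ y - q 0
      by_contra h
      push Not at h
      have h3 := hcon 0 j (by linarith)
      linarith
    · intro hj
      have hj' : q j ≤ y - q 0 := hj
      show q j ≤ y - q 0 + y ^ (2 * ε)
      linarith
  have ha := abs_le.1 (hC' (y - q 0) (by linarith))
  have hb := abs_le.1 (hC' (y - q 0 + y ^ (2 * ε)) (by linarith))
  rw [heq] at hb
  have hinc := le_MM_inc (a := y - q 0) (b := y - q 0 + y ^ (2 * ε)) (by linarith) (by linarith)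
  set b := y - q 0 + y ^ (2 * ε) with hbdef
  have hb2 : b ≤ y * 2 := by linarith
  have hbl : Real.log b ≤ 2 * Real.log y := by
    have h3 : b ≤ y ^ 2 := by nlinarith
    have h4 := Real.log_le_log (by linarith) h3
    rw [Real.log_pow] at h4
    push_cast at h4
    exact h4
  have hlb : 0 < Real.log b := Real.log_pos (by linarith)
  have hinc2 : y ^ (2 * ε) ≤ (MM b - MM (y - q 0)) * (8 * Real.log b) := by
    rw [div_le_iff₀ (by positivity)] at hinc
    linarith
  have hpow : ∀ x : ℝ, 0 ≤ x → x ≤ y * 2 → C * x ^ ε ≤ |C| * (2 * y ^ ε) := by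
    intro x hx0 hx
    have h3 : x ^ ε ≤ 2 * y ^ ε := by
      calc x ^ ε ≤ (y * 2) ^ ε := Real.rpow_le_rpow hx0 hx hε.le
        _ = y ^ ε * 2 ^ ε := Real.mul_rpow hy0.le (by norm_num)
        _ ≤ y ^ ε * 2 := by
            refine mul_le_mul_of_nonneg_left ?_ (Real.rpow_nonneg hy0.le _)
            calc (2 : ℝ) ^ ε ≤ 2 ^ (1 : ℝ) := Real.rpow_le_rpow_of_exponent_le (by norm_num) (by linarith)
              _ = 2 := Real.rpow_one 2
        _ = 2 * y ^ ε := by ring
    exact mul_le_mul (le_abs_self C) h3 (Real.rpow_nonneg hx0 _) (abs_nonneg C)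
  have hp1 := hpow b (by linarith) hb2
  have hp2 := hpow (y - q 0) (by linarith) (by linarith)
  have hdiff : MM b - MM (y - q 0) ≤ |C| * (4 * y ^ ε) := by linarith [ha.1, ha.2, hb.1, hb.2]
  have hfin : y ^ (2 * ε) ≤ (|C| * (4 * y ^ ε)) * (8 * (2 * Real.log y)) := by
    refine hinc2.trans (mul_le_mul hdiff (by linarith) (by positivity) (by positivity))
  have e1 : y ^ (2 * ε) = y ^ ε * y ^ ε := by
    rw [← Real.rpow_add hy0]
    congr 1
    ring
  rw [e1] at hfin
  have hye : 0 < y ^ ε := Real.rpow_pos_of_pos hy0 _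
  have h5 : y ^ ε * y ^ ε ≤ y ^ ε * (64 * |C| * Real.log y) := by linarith
  have h6 := le_of_mul_le_mul_left h5 hye
  nlinarith

end Pool.Agent.H68.GC
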