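import Pool.Agent.H68.GB.Drh
import Pool.Agent.H49.BZ.Cont
import Pool.Agent.H49.BZ.Cut

set_option autoImplicit false

/-!
# Project GC (helper68), MP_7b7e48_nt: the strong form of project GB

All zeros of the zeta function are prescribed as well (density `nd γ` of helper49, `H49/BZ`), and the number of the primes
is the explicit formula up to `O(x^ε)`. Everything of GB is repeated for a general density (class `Dens` of `H49/BZ/Base.lean`: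
`md, MM, tt`, lower bound `1/(8 log u) ≤ md u`, upper bound `md u ≤ 1`), with three changes:

* the windows come in blocks of four; in every block exactly one left window (number `l j`) and exactly the two right windows
  `l j + 1, l j + 2` (modulo `4`) are occupied, with `4` respectively `2` points per cell; the right windows of a block
  have the same number `V j` of cells: so the number of the points of a block is exactly the number of its cells;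
* `l j = if c j then (if c (j-1) then 0 else 3) else (if d j then 1 else 2)` with independent fair coins `c j, d j`: `l j` is
  uniformly distributed, and `l j = 0` only if `l (j-1) ∈ {0, 3}` (so that no right window number `3` precedes it);
* `y = tt A ^ M` with `M → ∞` slowly, so the hole before `y` (length about `tt A`) is short.
-/

namespace Pool.Agent.H68.GC

open MeasureTheory Filter Topology Set
open Pool.Agent.H49.BZ (Dens md MM tt MM_one MM_cont MM_tendsto Disc)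
open Pool.Agent.H49.BP (pc)
open Pool.Agent.H68.GB (LL)

noncomputable section

/-- local variation of the density -/
def Loc [Dens] : Prop := ∃ C : ℝ, 0 ≤ C ∧ ∀ u v : ℝ, 2 ≤ u → u ≤ v → v ≤ 2 * u →
  |md v - md u| ≤ C * (1 + (v - u)) * u ^ (-(1 / 8) : ℝ)

/-- the upper bound of the density -/
def Upp [Dens] : Prop := ∀ u : ℝ, 1 < u → md u ≤ 2 / Real.log u

/-- LOC: from `nd_var` (`H49/KZ/Var.lean`): `|nd u - nd v| ≤ 15 (√v - √u) + ∑_{u < UU k ≤ v} 4/√(UU k)`, and the number of the `k`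
with `UU k ≤ v` is `O(v^{0.35})`: `(8k+9)² (1 + γ k) ≤ UU k` and `k ≤ C (γ k + 1)^{1+ε}` (Windows); `nd_up` for `Upp`. -/
def S_LOC : Prop := ∀ (γ : ℕ → ℝ) (h0 : ∀ k, 0 < γ k), Monotone γ → Pool.Agent.H49.BZ.Windows γ →
  @Loc (Pool.Agent.H49.BZ.dens γ h0) ∧ @Upp (Pool.Agent.H49.BZ.dens γ h0)

theorem exists_F [Dens] {v : ℝ} (hv : 0 ≤ v) : ∃ t : ℝ, 1 ≤ t ∧ MM t = v := by
  obtain ⟨B, hB⟩ := (MM_tendsto.eventually (eventually_ge_atTop v)).exists_forall_of_atTop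
  have hB' := hB (max B 1) (le_max_left _ _)
  have hc : ContinuousOn MM (Icc 1 (max B 1)) := MM_cont.mono (fun x hx => hx.1)
  have h := intermediate_value_Icc (le_max_right B 1) hc
  have hj : v ∈ Icc (MM 1) (MM (max B 1)) := ⟨by rw [MM_one]; exact hv, hB'⟩
  obtain ⟨t, ht, hte⟩ := h hj
  exact ⟨t, ht.1, hte⟩

/-- the inverse function of `MM` on `[0, ∞)` (and `1` on the negative numbers) -/
def F [Dens] (v : ℝ) : ℝ := if hv : 0 ≤ v then (exists_F hv).choose else 1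

/-- the points of the cell `n` (`c` of them, `i < c`) -/
def pt [Dens] (c : ℕ) (θ : ℝ) (n i : ℕ) : ℝ := F (n + (θ + i) / c)

/-- the exponential sum of a cell -/
def cs [Dens] (m : ℤ) (c : ℕ) (θ : ℝ) (n : ℕ) : ℂ := ∑ i ∈ Finset.range c, Pool.Agent.H49.BP.em m (pt c θ n i)

/-- its expected value -/
def ci [Dens] (m : ℤ) (n : ℕ) : ℂ := ∫ u in (tt n)..(tt (n + 1)), Pool.Agent.H49.BP.em m u * (md u : ℂ)

/-- INV: as in GB (`H68/GB/Inv.lean`), but `md` is only measurable: for (7) the image under `MM` of the measure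
`md du` on `(F a, F b]` is the Lebesgue measure on `(a, b]` (intervals), so `∫ g(F v) dv = ∫ g(F(MM u)) md u du`. -/
def S_INV [Dens] : Prop :=
  (∀ v : ℝ, 0 ≤ v → 1 ≤ F v ∧ MM (F v) = v) ∧
  (∀ u : ℝ, 1 ≤ u → F (MM u) = u) ∧
  (∀ n : ℕ, F n = tt n) ∧
  StrictMonoOn F (Ici 0) ∧ Monotone F ∧
  ContinuousOn F (Ici 0) ∧
  (∀ v w : ℝ, 0 ≤ v → v ≤ w → w - v ≤ F w - F v) ∧
  (∀ (m : ℤ) (a b : ℝ), 1 ≤ a → a ≤ b → ∫ v in a..b, Pool.Agent.H49.BP.em m (F v) =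
    ∫ u in (F a)..(F b), Pool.Agent.H49.BP.em m u * (md u : ℂ)) ∧
  (Upp → ∃ A0 : ℕ, 1 ≤ A0 ∧ ∀ n : ℕ, A0 ≤ n → 4 * (n : ℝ) + 8 ≤ tt n) ∧
  ∃ A0 : ℕ, 1 ≤ A0 ∧ ∀ n : ℕ, A0 ≤ n → tt n ≤ (n : ℝ) ^ 2

/-- AVG: as in GB (`H68/GB/Avg.lean`) -/
def S_AVG [Dens] : Prop :=
  (∀ (m : ℤ) (c n : ℕ), Measurable (fun θ : ℝ => cs m c θ n)) ∧
  (∀ (m : ℤ) (c n : ℕ), 1 ≤ c → 1 ≤ n → ∫ θ in (0 : ℝ)..1, cs m c θ n = c * ci m n) ∧
  (∀ (m : ℤ) (c n : ℕ) (θ : ℝ), ‖cs m c θ n‖ ≤ c) ∧ ∀ (m : ℤ) (n : ℕ), ‖ci m n‖ ≤ 1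

/-- the number of points per cell in the left window `k` (window `k % 4` of the block `k / 4`) -/
def lfc (l : ℕ → ℕ) (k : ℕ) : ℕ := if k % 4 = l (k / 4) then 4 else 0

/-- the number of points per cell in the right window `k` -/
def rtc (l : ℕ → ℕ) (k : ℕ) : ℕ :=
  if k % 4 = (l (k / 4) + 1) % 4 ∨ k % 4 = (l (k / 4) + 2) % 4 then 2 else 0

/-- STP: as in GB (`H68/GB/Stp.lean`), one step is one block: `Ω = Bool × Bool × ℝ` (`c, d, θ`), `l (j)` from the `c` of the previous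
choice and the `c, d` of the present one as in the header; the test of a block is uniformly bounded by `C B`, its mean over
the present choice depends on the `c` of the previous choice, its mean over both is the expected value
(`l j` is uniform: every left window has probability `1/4` and `4` points per cell, every right window `1/2` and `2`). -/
def S_STP [Dens] : Prop := ∃ CC : ℝ → ℝ, (∀ δ, 0 ≤ CC δ) ∧ ∀ (A W B : ℕ) (β V : ℕ → ℕ), 1 ≤ A → 1 ≤ W → 4 * W ≤ B →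
  (∀ j i, i < 4 → β (4 * j + i) = β (4 * j + i + 1) + V j) → (∀ k, 1 ≤ β k) → (∀ j, 4 * V j ≤ B) →
  ∃ (l : ℕ → ℕ) (θ : ℕ → ℝ), (∀ j, l j < 4) ∧ (∀ j, l (j + 1) = 0 → l j = 0 ∨ l j = 3) ∧
    (∀ j, 0 ≤ θ j ∧ θ j < 1) ∧ ∀ δ : ℝ, 0 < δ → ∀ (m : ℤ) (J : ℕ),
    ‖∑ k ∈ Finset.range (4 * J), ∑ n ∈ Finset.Ico (A + k * W) (A + (k + 1) * W),
      (cs m (lfc l k) (θ (k / 4)) n - ci m n)‖ ≤ CC δ * B * (J : ℝ) ^ (1 / 2 + δ) * LL m ∧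
    ‖∑ k ∈ Finset.range (4 * J), ∑ n ∈ Finset.Ico (β (k + 1)) (β k),
      (cs m (rtc l k) (θ (k / 4)) n - ci m n)‖ ≤ CC δ * B * (J : ℝ) ^ (1 / 2 + δ) * LL m

/-- GEO: the geometry of one scale, `y = tt A ^ M` -/
def S_GEO [Dens] : Prop := Loc → ∃ (C : ℝ) (A0 : ℕ), 0 ≤ C ∧ 1 ≤ A0 ∧ ∀ (A M : ℕ) (H : ℝ), A0 ≤ A → 4 ≤ M →
  (M : ℝ) ≤ Real.log (tt A) → 0 ≤ H → H ^ 100 ≤ tt A →
  ∃ (W N B e : ℕ) (β V : ℕ → ℕ), 1 ≤ W ∧ 4 * W ≤ B ∧ (B : ℝ) ≤ C * (H + 1) * Real.log (tt A) ^ 4 ∧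
    Antitone β ∧ (∀ j i, i < 4 → β (4 * j + i) = β (4 * j + i + 1) + V j) ∧ (∀ j, 4 * V j ≤ B) ∧ (∀ k, 1 ≤ β k) ∧
    A + 4 * N * W ≤ β (4 * N) ∧ β (4 * N) ≤ A + 4 * N * W + B ∧ tt A ^ 2 ≤ β (4 * N) ∧
    tt A ^ (M - 1) ≤ β 0 ∧ β 0 ≤ e ∧ (e : ℝ) ≤ β 0 + 5 * tt A ∧ 2 * A ≤ e ∧ tt A ^ M + H < tt e ∧
    tt (A + 4 * N * W) ≤ tt A ^ M / 2 ∧ tt A ^ M + H < 2 * tt (β (4 * N)) ∧
    (∀ k, k ≤ 4 * N → tt (A + k * W) + tt (β k) ≤ tt A ^ M) ∧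
    ∀ k, k < 4 * N → tt A ^ M + H < tt (A + (k + 1) * W) + tt (β k)

/-- SCL: one scale, from STP and GEO as in GB (`H68/GB/Scl.lean`). `c n = lfc l k` in the left window `k < 4 N` (cells
`A + k W ≤ n < A + (k+1) W`), `c n = rtc l k` in the right window `k < 4 N` (cells `β (k+1) ≤ n < β k`), `0` elsewhere,
`θ n = θ (k/4)`. A left window `k` and a right window `k'` which are both occupied have `k' ≠ k` and `k' + 1 ≠ k`. The last part: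
the number of points of a block is `4 W`, respectively `4 V j`. -/
def S_SCL [Dens] : Prop := ∃ (C : ℝ) (CC : ℝ → ℝ) (A0 : ℕ), 0 ≤ C ∧ (∀ δ, 0 ≤ CC δ) ∧ 1 ≤ A0 ∧
  ∀ (A M : ℕ) (H : ℝ), A0 ≤ A → 4 ≤ M → (M : ℝ) ≤ Real.log (tt A) → 0 ≤ H → H ^ 100 ≤ tt A →
  ∃ (e : ℕ) (c : ℕ → ℕ) (θ : ℕ → ℝ), 2 * A ≤ e ∧ (∀ n, c n ≤ 4) ∧ (∀ n, 0 ≤ θ n ∧ θ n < 1) ∧
    tt A ^ M + H < tt e ∧
    (∀ n i, A ≤ n → n < e → i < c n → pt (c n) (θ n) n i + tt A ≤ tt A ^ M) ∧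
    (∀ n i n' i', A ≤ n → n < e → i < c n → A ≤ n' → n' < e → i' < c n' →
      pt (c n) (θ n) n i + pt (c n') (θ n') n' i' < tt A ^ M ∨
      tt A ^ M + H < pt (c n) (θ n) n i + pt (c n') (θ n') n' i') ∧
    (∀ δ : ℝ, 0 < δ → ∀ (m : ℤ) (n : ℕ), A ≤ n → n ≤ e →
      ‖∑ n' ∈ Finset.Ico A n, (cs m (c n') (θ n') n' - ci m n')‖ ≤
        CC δ * (H + 1) * Real.log (tt A) ^ 4 * (n : ℝ) ^ (1 / 2 + δ) * LL m) ∧
    ∀ n : ℕ, A ≤ n → n ≤ e → |∑ n' ∈ Finset.Ico A n, ((c n' : ℝ) - 1)| ≤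
      C * (H + 1) * Real.log (tt A) ^ 4 + if tt A ^ (M - 1) ≤ n then 5 * tt A else 0

/-- a system of cells -/
def Sys [Dens] (c : ℕ → ℕ) (θ : ℕ → ℝ) : Prop := (∀ n, c n ≤ 4) ∧ (∀ n, 0 ≤ θ n ∧ θ n < 1) ∧
  (∃ A0 : ℕ, 1 ≤ A0 ∧ (∀ n, n < A0 → c n = 0) ∧ ∀ n : ℕ, A0 ≤ n → 4 * (n : ℝ) + 8 ≤ tt n) ∧
  (∀ δ : ℝ, 0 < δ → ∃ C : ℝ, 0 ≤ C ∧ ∀ (m : ℤ) (n : ℕ),
    ‖∑ n' ∈ Finset.range n, (cs m (c n') (θ n') n' - ci m n')‖ ≤ C * (n : ℝ) ^ (1 / 2 + δ) * LL m) ∧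
  ∀ ε : ℝ, 0 < ε → ∃ C : ℝ, 0 ≤ C ∧ ∀ n : ℕ, |∑ n' ∈ Finset.range n, ((c n' : ℝ) - 1)| ≤ C * (n : ℝ) ^ ε

/-- GLU: as in GB (`H68/GB/Glu.lean`): `A 0` large, `A (i+1) = e i`, `P i = tt (A i)`, `y i = P i ^ M i`, `H i = max (h (y i)) 0`.
For every `M ≥ 100` one has `M ≤ log P` and `h (P ^ M) ≤ P ^ (1/M)` for all `P ≥ X M`; take for `M i ≥ 100` a choice that tends to
infinity with `P i ≥ X (M i)` (the largest `M ≤ P i` with this property). So `H i + 1 ≤ C_ε (P i) ^ ε`, and the last term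
`5 P i` of SCL is at most `5 n ^ (1 / (M i - 1))`. -/
def S_GLU [Dens] : Prop := Upp → ∀ h : ℝ → ℝ, (∀ ε : ℝ, 0 < ε → ∃ C : ℝ, ∀ x : ℝ, 1 ≤ x → h x ≤ C * x ^ ε) →
  ∃ (c : ℕ → ℕ) (θ : ℕ → ℝ), Sys c θ ∧ ∀ Y : ℝ, ∃ y : ℝ, Y ≤ y ∧ ∀ n i n' i', i < c n → i' < c n' →
    pt (c n) (θ n) n i + pt (c n') (θ n') n' i' < y ∨ y + h y < pt (c n) (θ n) n i + pt (c n') (θ n') n' i'

/-- ENU: as in GB (`H68/GB/Enu.lean`), and the number of the points -/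
def S_ENU [Dens] : Prop := ∀ (c : ℕ → ℕ) (θ : ℕ → ℝ), Sys c θ → ∃ q : ℕ → ℝ, StrictMono q ∧
  (∀ j : ℕ, (j : ℝ) + 1 ≤ q j) ∧ 1 < q 0 ∧ (∀ j, ∃ n i, i < c n ∧ q j = pt (c n) (θ n) n i) ∧ Disc q ∧
  ∀ ε : ℝ, 0 < ε → ∃ C : ℝ, ∀ x : ℝ, 1 ≤ x → |(pc q x : ℝ) - MM x| ≤ C * x ^ ε

end

end Pool.Agent.H68.GC
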